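import Pool.Agent.XV.Stmts

/-!
# The threefold `X`: module PRI (the ideal is prime and homogeneous)
-/

set_option autoImplicit false

noncomputable section

namespace Pool.Agent.XV

open scoped Classical
open MvPolynomial Pool.Agent.FRM Pool.Agent.DIS

namespace PRI_

/-- The weight: `T` has weight one. -/
def wt : Vr → ℕ
  | Vr.a _ => 0
  | Vr.b _ => 0
  | Vr.u => 0
  | Vr.T => 1

theorem hom_br2 (A : Type) [CommRing A] (i j : Fin 5) :
    IsWeightedHomogeneous wt (br2 A i j) 0 := by
  unfold br2
  have h1 : ∀ i j : Fin 5, IsWeightedHomogeneous wt (X (Vr.a i) * X (Vr.b j) : Cox A) 0 := by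
    intro i j
    exact (isWeightedHomogeneous_X A wt (Vr.a i)).mul (isWeightedHomogeneous_X A wt (Vr.b j))
  exact (h1 i j).sub (h1 j i)

theorem hom_br (A : Type) [CommRing A] (k : Fin 10) :
    IsWeightedHomogeneous wt (br A k) 0 := hom_br2 A _ _

theorem hom_cm (A : Type) [CommRing A] (c : Pt) : IsWeightedHomogeneous wt (cm A c) 1 := by
  unfold cm mon
  have h1 : IsWeightedHomogeneous wt (X Vr.T ^ 1 : Cox A) 1 :=
    (isWeightedHomogeneous_X A wt Vr.T).pow 1
  have h2 : IsWeightedHomogeneous wt (X Vr.u ^ c.w : Cox A) 0 := by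
    have h := (isWeightedHomogeneous_X A wt Vr.u).pow c.w
    simpa [wt] using h
  have h3 : IsWeightedHomogeneous wt (∏ k, br A k ^ c.e k) 0 := by
    have h := IsWeightedHomogeneous.prod Finset.univ (fun k => br A k ^ c.e k) (fun _ => 0)
      (w := wt) (fun k _ => by simpa using (hom_br A k).pow (c.e k))
    simpa using h
  exact (h1.mul h2).mul h3

theorem hom_cx (A : Type) [CommRing A] (F : MvPolynomial (Fin (N + 1)) A) (m : ℕ)
    (hF : F.IsHomogeneous m) : IsWeightedHomogeneous wt (cx A F) m := by
  unfold cx
  rw [aeval_def, eval₂_eq]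
  refine IsWeightedHomogeneous.sum _ _ _ fun d hd => ?_
  have hm : ∑ i ∈ d.support, d i = m := by
    have h := hF (mem_support_iff.1 hd)
    rw [Finsupp.weight_apply] at h
    simpa [Finsupp.sum] using h
  have h := IsWeightedHomogeneous.prod d.support (fun i => cm A (pt i) ^ d i) (fun i => d i)
      (w := wt) (fun i _ => by simpa using (hom_cm A (pt i)).pow (d i))
  rw [hm] at h
  exact h.C_mul _

end PRI_

open PRI_ in
theorem pri_proof : Stmt_Pri := by
  intro K _
  refine ⟨RingHom.ker_isPrime _, fun F hF m => ?_⟩
  have h0 : cx K F = 0 := hF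
  show cx K (homogeneousComponent m F) = 0
  by_cases hm : m ∈ Finset.range (F.totalDegree + 1)
  · have h1 : ∑ i ∈ Finset.range (F.totalDegree + 1), cx K (homogeneousComponent i F) = 0 := by
      rw [← map_sum, sum_homogeneousComponent, h0]
    have h2 := congrArg (weightedHomogeneousComponent wt m) h1
    rw [map_sum, map_zero, Finset.sum_eq_single m] at h2
    · rwa [(hom_cx K _ m (homogeneousComponent_isHomogeneous m F)).weightedHomogeneousComponent_same]
        at h2
    · intro b _ hb
      exact (hom_cx K _ b (homogeneousComponent_isHomogeneous b F)).weightedHomogeneousComponent_ne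
        m (Ne.symm hb)
    · intro h; exact absurd hm h
  · have h1 : homogeneousComponent m F = 0 :=
      homogeneousComponent_eq_zero m F (by simpa using hm)
    rw [h1, map_zero]

end Pool.Agent.XV
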