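import Pool.Agent.XV.Stmts

/-!
# XV, module TAN: the tangent spaces of the cone
-/

set_option autoImplicit false

noncomputable section

namespace Pool.Agent.XV

open scoped Classical
open MvPolynomial

namespace TAN_

/-- relations over the integers give relations over `K` -/
theorem map_mem {K : Type} [Field K] {g : MvPolynomial (Fin (N + 1)) ℤ} (hg : g ∈ I ℤ) :
    MvPolynomial.map (Int.castRingHom K) g ∈ I K := by
  have h0 : cx ℤ g = 0 := hg
  have h1 : ∀ f : MvPolynomial (Fin (N + 1)) ℤ, cx K (MvPolynomial.map (Int.castRingHom K) f) =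
      MvPolynomial.map (Int.castRingHom K) (cx ℤ f) := by
    intro f
    have h2 : ((cx K : MvPolynomial (Fin (N + 1)) K →+* Cox K).comp
        (MvPolynomial.map (Int.castRingHom K))) =
        (MvPolynomial.map (Int.castRingHom K)).comp
          (cx ℤ : MvPolynomial (Fin (N + 1)) ℤ →+* Cox ℤ) := by
      apply MvPolynomial.ringHom_ext
      · intro r
        simp
      · intro i
        simp [cx, cm, mon, br, br2]
    exact RingHom.congr_fun h2 f
  show cx K _ = 0
  rw [h1, h0, map_zero]

/-- the image of a solution under a homomorphism -/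
theorem isSol_map {B B' : Type} [CommRing B] [CommRing B'] (f : B →+* B') {s : Pt → B}
    (hs : IsSol s) : IsSol fun c => f (s c) := by
  intro g hg
  have h := congrArg f (hs g hg)
  rw [map_zero, MvPolynomial.hom_eval₂] at h
  have h2 : f.comp (Int.castRingHom B) = Int.castRingHom B' := RingHom.ext_int _ _
  rw [h2] at h
  exact h

/-- a solution is determined by four coordinates of a chart -/
theorem uniq (hCHV : Stmt_Chv) (hCHR : Stmt_Chr) {B : Type} [CommRing B] {s s' : Pt → B}
    (hs : IsSol s) (hs' : IsSol s') (σ : Fin 6) (Z : Bˣ) (h0 : s (tp σ 0) = Z)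
    (h0' : s' (tp σ 0) = Z) (hX : ∀ l, s (tp σ (tX l)) = s' (tp σ (tX l)))
    (hU : ∀ j, IsUnit (s (tp σ (tU j)))) : s = s' := by
  have hz : ∀ y : B, y = Z * (((Z⁻¹ : Bˣ) : B) * y) := fun y => by
    rw [← mul_assoc, Units.mul_inv, one_mul]
  obtain ⟨a1, a2, a3⟩ := hCHR B s hs σ Z (fun l => ((Z⁻¹ : Bˣ) : B) * s (tp σ (tX l))) h0
    (fun l => hz _)
  obtain ⟨b1, b2, b3⟩ := hCHR B s' hs' σ Z (fun l => ((Z⁻¹ : Bˣ) : B) * s (tp σ (tX l))) h0'
    (fun l => by rw [← hz]; exact (hX l).symm)
  have hUU : ∀ j, s (tp σ (tU j)) = s' (tp σ (tU j)) := by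
    intro j
    fin_cases j
    · exact a1.trans b1.symm
    · exact a2.trans b2.symm
    · exact a3.trans b3.symm
  let U : Fin 3 → Bˣ := fun j => Z⁻¹ * (hU j).unit
  have hU1 : ∀ j, s (tp σ (tU j)) = Z * U j := by
    intro j
    show _ = (Z : B) * ((Z⁻¹ * (hU j).unit : Bˣ) : B)
    rw [Units.val_mul, IsUnit.unit_spec]
    exact hz _
  funext c
  rw [hCHV B s hs σ Z U h0 hU1 c, hCHV B s' hs' σ Z U h0' (fun j => (hUU j).symm.trans (hU1 j)) c]
  simp only [hX]

/-- the first order Taylor expansion -/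
theorem taylor {K : Type} [Field K] {n : ℕ} (x δ : Fin n → K) (F : MvPolynomial (Fin n) K) :
    aeval (fun i => (TrivSqZeroExt.inl (x i) + TrivSqZeroExt.inr (δ i) : TrivSqZeroExt K K)) F =
      TrivSqZeroExt.inl (eval x F) +
        TrivSqZeroExt.inr (∑ l, eval x (pderiv l F) * δ l) := by
  induction F using MvPolynomial.induction_on with
  | C a =>
    ext
    · simp [TrivSqZeroExt.algebraMap_eq_inl]
    · simp [TrivSqZeroExt.algebraMap_eq_inl]
  | add p q hp hq =>
    rw [map_add, hp, hq]
    ext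
    · simp
    · simp [add_mul, Finset.sum_add_distrib]
  | mul_X p i hp =>
    rw [map_mul, hp, aeval_X]
    ext
    · simp
    · simp [add_mul, Finset.sum_add_distrib, pderiv_X, Pi.single_apply]
      congr 1
      · rw [Finset.sum_eq_single i]
        · simp
        · intro b _ hb
          rw [if_neg (Ne.symm hb), map_zero, zero_mul]
        · intro h
          exact absurd (Finset.mem_univ i) h
      · rw [Finset.sum_mul]
        exact Finset.sum_congr rfl fun l _ => by ring

theorem tws_eq {K : Type} [Field K] (π : Equiv.Perm (Fin 5)) (x δ : Fin (N + 1) → K) (c : Pt) :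
    tws π (fun c => (TrivSqZeroExt.inl (x (pt.symm c)) + TrivSqZeroExt.inr (δ (pt.symm c)) :
      TrivSqZeroExt K K)) c =
      TrivSqZeroExt.inl (tws π (fun c => x (pt.symm c)) c) +
        TrivSqZeroExt.inr ((sgn π c : K) * δ (pt.symm (act π c))) := by
  unfold tws
  have h : ((sgn π c : ℤ) : TrivSqZeroExt K K) = TrivSqZeroExt.inl (sgn π c : K) :=
    (TrivSqZeroExt.inl_intCast (sgn π c)).symm
  rw [h, mul_add, ← TrivSqZeroExt.inl_mul, TrivSqZeroExt.inl_mul_inr]
  rfl

theorem sgn_ne {K : Type} [Field K] (π : Equiv.Perm (Fin 5)) (c : Pt) : (sgn π c : K) ≠ 0 := by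
  have h1 : ∀ k, sg π k * sg π k = 1 := by
    intro k
    unfold sg
    split_ifs <;> norm_num
  have h2 : sgn π c * sgn π c = 1 := by
    unfold sgn
    rw [← Finset.prod_mul_distrib]
    refine Finset.prod_eq_one fun k _ => ?_
    rw [← mul_pow, h1, one_pow]
  intro h3
  have h4 : ((sgn π c * sgn π c : ℤ) : K) = 1 := by rw [h2, Int.cast_one]
  rw [Int.cast_mul, h3, zero_mul] at h4
  exact zero_ne_one h4

theorem act_act (π : Equiv.Perm (Fin 5)) (c : Pt) : act π (act π⁻¹ c) = c := by
  apply Pt.ext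
  · rfl
  · funext k
    show c.e (pe (π⁻¹)⁻¹ (pe π⁻¹ k)) = c.e k
    rw [← pe_mul, inv_inv, mul_inv_cancel, pe_one]

end TAN_

open TAN_

theorem tan_proof (hSYM : Stmt_Sym) (hCOV : Stmt_Cov) (hCHV : Stmt_Chv) (hCHR : Stmt_Chr) :
    Stmt_Tan := by
  intro K _ x hx hI T hT
  have hs0 : IsSol fun c => x (pt.symm c) := by
    intro g hg
    have h := hI _ (map_mem (K := K) hg)
    rw [MvPolynomial.eval_map] at h
    simpa using h
  obtain ⟨π, σ, h0, hU⟩ := hCOV K (fun c => x (pt.symm c)) hs0 (by
    by_contra hcon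
    push Not at hcon
    apply hx
    funext i
    have := hcon (pt i)
    simpa using this)
  let D := TrivSqZeroExt K K
  let f : K →+* D := TrivSqZeroExt.inlHom K K
  let sd : (Fin (N + 1) → K) → Pt → D := fun δ c =>
    TrivSqZeroExt.inl (x (pt.symm c)) + TrivSqZeroExt.inr (δ (pt.symm c))
  have hsd : ∀ δ ∈ T, IsSol (sd δ) := by
    intro δ hδ g hg
    have h1 := taylor x δ (MvPolynomial.map (Int.castRingHom K) g)
    rw [hI _ (map_mem (K := K) hg), hT δ hδ _ (map_mem (K := K) hg), aeval_def,
      eval₂_map, TrivSqZeroExt.inl_zero, TrivSqZeroExt.inr_zero, add_zero] at h1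
    have h2 : (algebraMap K D).comp (Int.castRingHom K) = Int.castRingHom D :=
      RingHom.ext_int _ _
    rw [h2] at h1
    rw [← h1]
    congr 1
    funext i
    simp only [sd, Equiv.symm_apply_apply]
  let L : T →ₗ[K] (Fin 4 → K) :=
    LinearMap.pi (Fin.cons ((LinearMap.proj (pt.symm (act π (tp σ 0)))).comp T.subtype)
      (fun l : Fin 3 => (LinearMap.proj (pt.symm (act π (tp σ (tX l))))).comp T.subtype))
  have hL : Function.Injective L := by
    rw [injective_iff_map_eq_zero]
    rintro ⟨δ, hδ⟩ h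
    have e0 : δ (pt.symm (act π (tp σ 0))) = 0 := congrFun h 0
    have eX : ∀ l : Fin 3, δ (pt.symm (act π (tp σ (tX l)))) = 0 := fun l => congrFun h l.succ
    have hz : ∀ c, δ (pt.symm (act π c)) = 0 →
        f (tws π (fun c => x (pt.symm c)) c) = tws π (sd δ) c := by
      intro c hc
      have h1 := tws_eq π x δ c
      rw [hc, mul_zero, TrivSqZeroExt.inr_zero, add_zero] at h1
      exact h1.symm
    have heq : (fun c => f (tws π (fun c => x (pt.symm c)) c)) = tws π (sd δ) :=
      uniq hCHV hCHR (isSol_map f (hSYM K _ π hs0)) (hSYM D _ π (hsd δ hδ)) σ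
        (Units.map (f : K →* D) (Units.mk0 _ h0)) rfl (hz _ e0).symm (fun l => hz _ (eX l))
        (fun j => (hU j).isUnit.map f)
    have hall : ∀ c, δ (pt.symm (act π c)) = 0 := by
      intro c
      have h1 : TrivSqZeroExt.inl (tws π (fun c => x (pt.symm c)) c) =
          (TrivSqZeroExt.inl (tws π (fun c => x (pt.symm c)) c) +
        TrivSqZeroExt.inr ((sgn π c : K) * δ (pt.symm (act π c))) : TrivSqZeroExt K K) :=
        (congrFun heq c).trans (tws_eq π x δ c)
      have h2 : (sgn π c : K) * δ (pt.symm (act π c)) = 0 := by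
        have h3 := congrArg TrivSqZeroExt.snd h1
        rw [TrivSqZeroExt.snd_add, TrivSqZeroExt.snd_inl, TrivSqZeroExt.snd_inr, zero_add] at h3
        exact h3.symm
      exact (mul_eq_zero.1 h2).resolve_left (sgn_ne π c)
    apply Subtype.ext
    funext i
    have h1 := hall (act π⁻¹ (pt i))
    rw [act_act, Equiv.symm_apply_apply] at h1
    exact h1
  have h4 := LinearMap.finrank_le_finrank_of_injective hL
  rw [Module.finrank_fin_fun] at h4
  exact h4

end Pool.Agent.XV
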