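import Pool.Agent.XV.Stmts

/-!
# The threefold `X`: module FIB (dimension of the fibres)
-/

set_option autoImplicit false

noncomputable section

namespace Pool.Agent.XV

open scoped Classical
open MvPolynomial Pool.Agent.FRM Pool.Agent.DIS

namespace FIB_

theorem dim_le {R : Type} [CommRing R] (Q : Ideal R) (d : WithBot ℕ∞)
    (h : ∀ P : Ideal R, P.IsPrime → Q ≤ P → ringKrullDim (R ⧸ P) ≤ d) :
    ringKrullDim (R ⧸ Q) ≤ d := by
  rw [ringKrullDim_quotient, Order.krullDim]
  refine iSup_le fun l => ?_
  have h1 := h l.head.1.asIdeal l.head.1.isPrime l.head.2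
  rw [ringKrullDim_quotient] at h1
  let l' : LTSeries (PrimeSpectrum.zeroLocus (l.head.1.asIdeal : Set R)) :=
    { length := l.length
      toFun := fun i => ⟨(l i).1, by
        have h2 : l.head ≤ l i := LTSeries.head_le l i
        exact h2⟩
      step := fun i => l.step i }
  exact (Order.LTSeries.length_le_krullDim l').trans h1

end FIB_

open FIB_ in
theorem fib_proof (hSPX : Stmt_Spx) : Stmt_Fib := by
  intro K _ Q hQ
  refine dim_le Q 4 fun P hP hQP => ?_
  exact (hSPX K P hP fun g hg => hQP (hQ g hg)).1

end Pool.Agent.XV
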