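import Pool.Agent.XV.Stmts

/-!
# BIN: monomial relations
-/

set_option autoImplicit false

noncomputable section

namespace Pool.Agent.XV

open scoped Classical
open MvPolynomial

namespace BIN_

theorem prod_cm (A : Type) [CommRing A] (α : Multiset Pt) :
    (α.map (cm A)).prod = X Vr.T ^ (Multiset.card α) * X Vr.u ^ (α.map Pt.w).sum *
      ∏ k, br A k ^ (α.map fun c => c.e k).sum := by
  induction α using Multiset.induction_on with
  | empty => simp
  | cons c α ih =>
    simp only [Multiset.map_cons, Multiset.prod_cons, Multiset.sum_cons, Multiset.card_cons]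
    rw [ih, cm, mon]
    simp only [pow_add, pow_one, Finset.prod_mul_distrib]
    ring

theorem cx_prod (A : Type) [CommRing A] (α : Multiset Pt) :
    cx A (α.map (xc A)).prod = (α.map (cm A)).prod := by
  rw [map_multiset_prod, Multiset.map_map]
  congr 1
  apply Multiset.map_congr rfl
  intro c _
  simp [cx_xc]

theorem evalsol_prod {B : Type} [CommRing B] (s : Pt → B) (α : Multiset Pt) :
    eval₂ (Int.castRingHom B) (fun i => s (pt i)) (α.map (xc ℤ)).prod = (α.map s).prod := by
  rw [← coe_eval₂Hom, map_multiset_prod, Multiset.map_map]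
  congr 1
  apply Multiset.map_congr rfl
  intro c _
  simp [xc]

end BIN_

open BIN_ in
theorem bin_proof : Stmt_Bin := by
  intro B _ s hs α β hc hw he
  have h1 : (α.map (xc ℤ)).prod - (β.map (xc ℤ)).prod ∈ I ℤ := by
    show cx ℤ _ = 0
    rw [map_sub, cx_prod, cx_prod, prod_cm, prod_cm, hc, hw]
    simp only [he, sub_self]
  have h2 := hs _ h1
  rw [eval₂_sub, evalsol_prod, evalsol_prod] at h2
  exact sub_eq_zero.1 h2

end Pool.Agent.XV
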