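import Pool.Agent.XV.Stmts

/-!
# XV, module CHR: the units in terms of the chart coordinates
-/

set_option autoImplicit false

noncomputable section

namespace Pool.Agent.XV

open scoped Classical
open MvPolynomial

namespace CHR_

/-- a coordinate which is a monomial in the chart coordinates -/
theorem mono (hBIN : Stmt_Bin) {B : Type} [CommRing B] {s : Pt → B} (hs : IsSol s) (σ : Fin 6)
    (Z : Bˣ) (X : Fin 3 → B) (h0 : s (tp σ 0) = Z) (hX : ∀ l, s (tp σ (tX l)) = Z * X l)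
    (n : Fin 10) (a b c m : ℕ) (hm : m + 1 = a + b + c)
    (hw : tw σ n + m * tw σ 0 = a * tw σ 1 + b * tw σ 2 + c * tw σ 3)
    (he : ∀ k, te σ n k + m * te σ 0 k = a * te σ 1 k + b * te σ 2 k + c * te σ 3 k) :
    s (tp σ n) = Z * (X 0 ^ a * X 1 ^ b * X 2 ^ c) := by
  have h := hBIN B s hs (tp σ n ::ₘ Multiset.replicate m (tp σ 0))
    (Multiset.replicate a (tp σ 1) + Multiset.replicate b (tp σ 2) + Multiset.replicate c (tp σ 3))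
    (by simp [hm]) (by simpa [tp] using hw) (fun k => by simpa [tp] using he k)
  have h1 : s (tp σ 1) = Z * X 0 := hX 0
  have h2 : s (tp σ 2) = Z * X 1 := hX 1
  have h3 : s (tp σ 3) = Z * X 2 := hX 2
  simp only [Multiset.map_cons, Multiset.prod_cons, Multiset.map_replicate,
    Multiset.prod_replicate, Multiset.map_add, Multiset.prod_add, h0, h1, h2, h3] at h
  have h4 : s (tp σ n) * (Z : B) ^ m = (Z * (X 0 ^ a * X 1 ^ b * X 2 ^ c)) * (Z : B) ^ m := by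
    rw [h, mul_pow, mul_pow, mul_pow]
    have h5 : (Z : B) ^ a * (Z : B) ^ b * (Z : B) ^ c = (Z : B) ^ m * Z := by
      rw [← pow_add, ← pow_add, ← hm, pow_succ]
    linear_combination (X 0 ^ a * X 1 ^ b * X 2 ^ c) * h5
  have h6 : IsUnit ((Z : B) ^ m) := Z.isUnit.pow m
  exact h6.mul_right_cancel h4

theorem chkx : ∀ σ : Fin 6, (rx σ 0 + rx σ 1 + rx σ 2 - 1) + 1 = rx σ 0 + rx σ 1 + rx σ 2 ∧
    tw σ 4 + (rx σ 0 + rx σ 1 + rx σ 2 - 1) * tw σ 0 =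
      rx σ 0 * tw σ 1 + rx σ 1 * tw σ 2 + rx σ 2 * tw σ 3 ∧
    ∀ k, te σ 4 k + (rx σ 0 + rx σ 1 + rx σ 2 - 1) * te σ 0 k =
      rx σ 0 * te σ 1 k + rx σ 1 * te σ 2 k + rx σ 2 * te σ 3 k := by
  decide +kernel

theorem chky : ∀ σ : Fin 6, (ry σ 0 + ry σ 1 + ry σ 2 - 1) + 1 = ry σ 0 + ry σ 1 + ry σ 2 ∧
    tw σ 5 + (ry σ 0 + ry σ 1 + ry σ 2 - 1) * tw σ 0 =
      ry σ 0 * tw σ 1 + ry σ 1 * tw σ 2 + ry σ 2 * tw σ 3 ∧
    ∀ k, te σ 5 k + (ry σ 0 + ry σ 1 + ry σ 2 - 1) * te σ 0 k =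
      ry σ 0 * te σ 1 k + ry σ 1 * te σ 2 k + ry σ 2 * te σ 3 k := by
  decide +kernel

theorem chkxy : ∀ σ : Fin 6, ((rx σ 0 + ry σ 0) + (rx σ 1 + ry σ 1) + (rx σ 2 + ry σ 2) - 1) + 1 =
      (rx σ 0 + ry σ 0) + (rx σ 1 + ry σ 1) + (rx σ 2 + ry σ 2) ∧
    tw σ 6 + ((rx σ 0 + ry σ 0) + (rx σ 1 + ry σ 1) + (rx σ 2 + ry σ 2) - 1) * tw σ 0 =
      (rx σ 0 + ry σ 0) * tw σ 1 + (rx σ 1 + ry σ 1) * tw σ 2 + (rx σ 2 + ry σ 2) * tw σ 3 ∧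
    ∀ k, te σ 6 k + ((rx σ 0 + ry σ 0) + (rx σ 1 + ry σ 1) + (rx σ 2 + ry σ 2) - 1) * te σ 0 k =
      (rx σ 0 + ry σ 0) * te σ 1 k + (rx σ 1 + ry σ 1) * te σ 2 k +
        (rx σ 2 + ry σ 2) * te σ 3 k := by
  decide +kernel

theorem chk7 : ∀ σ : Fin 6, tw σ 4 = tw σ 7 ∧ tw σ 0 = tw σ 7 ∧
    (∀ n, te σ 4 n = (te σ 0 n - ind 3 n - ind 5 n) + ind (ed 0 1) n + ind (ed 3 4) n) ∧
    (∀ n, te σ 7 n = (te σ 0 n - ind 3 n - ind 5 n) + ind (ed 0 3) n + ind (ed 1 4) n) ∧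
    (∀ n, te σ 0 n = (te σ 0 n - ind 3 n - ind 5 n) + ind (ed 0 4) n + ind (ed 1 3) n) := by
  decide +kernel

theorem chk8 : ∀ σ : Fin 6, tw σ 0 = tw σ 8 ∧ tw σ 5 = tw σ 8 ∧
    (∀ n, te σ 0 n = (te σ 0 n - ind 1 n - ind 9 n) + ind (ed 0 2) n + ind (ed 3 4) n) ∧
    (∀ n, te σ 8 n = (te σ 0 n - ind 1 n - ind 9 n) + ind (ed 0 3) n + ind (ed 2 4) n) ∧
    (∀ n, te σ 5 n = (te σ 0 n - ind 1 n - ind 9 n) + ind (ed 0 4) n + ind (ed 2 3) n) := by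
  decide +kernel

theorem chk9 : ∀ σ : Fin 6, tw σ 6 = tw σ 0 ∧ tw σ 9 = tw σ 0 ∧
    (∀ n, te σ 6 n = (te σ 0 n - ind 1 n - ind 5 n) + ind (ed 0 1) n + ind (ed 2 3) n) ∧
    (∀ n, te σ 0 n = (te σ 0 n - ind 1 n - ind 5 n) + ind (ed 0 2) n + ind (ed 1 3) n) ∧
    (∀ n, te σ 9 n = (te σ 0 n - ind 1 n - ind 5 n) + ind (ed 0 3) n + ind (ed 1 2) n) := by
  decide +kernel

end CHR_

open CHR_

theorem chr_proof (hBIN : Stmt_Bin) (hTRI : Stmt_Tri) : Stmt_Chr := by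
  intro B _ s hs σ Z X h0 hX
  obtain ⟨x1, x2, x3⟩ := chkx σ
  obtain ⟨y1, y2, y3⟩ := chky σ
  obtain ⟨z1, z2, z3⟩ := chkxy σ
  have e4 : s (tp σ 4) = Z * hx σ X := by
    rw [mono hBIN hs σ Z X h0 hX 4 _ _ _ _ x1 x2 x3, hx, Fin.prod_univ_three]
  have e5 : s (tp σ 5) = Z * hy σ X := by
    rw [mono hBIN hs σ Z X h0 hX 5 _ _ _ _ y1 y2 y3, hy, Fin.prod_univ_three]
  have e6 : s (tp σ 6) = Z * (hx σ X * hy σ X) := by
    rw [mono hBIN hs σ Z X h0 hX 6 _ _ _ _ z1 z2 z3, hx, hy, Fin.prod_univ_three,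
      Fin.prod_univ_three, pow_add, pow_add, pow_add]
    ring
  obtain ⟨a1, a2, a3, a4, a5⟩ := chk7 σ
  obtain ⟨b1, b2, b3, b4, b5⟩ := chk8 σ
  obtain ⟨c1, c2, c3, c4, c5⟩ := chk9 σ
  have e7 := hTRI B s hs 0 1 3 4 (by decide) (by decide) (by decide) _ (tp σ 4) (tp σ 7) (tp σ 0)
    a1 a2 a3 a4 a5
  have e8 := hTRI B s hs 0 2 3 4 (by decide) (by decide) (by decide) _ (tp σ 0) (tp σ 8) (tp σ 5)
    b1 b2 b3 b4 b5
  have e9 := hTRI B s hs 0 1 2 3 (by decide) (by decide) (by decide) _ (tp σ 6) (tp σ 0) (tp σ 9)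
    c1 c2 c3 c4 c5
  rw [h0, e4] at e7
  rw [h0, e5] at e8
  rw [h0, e6] at e9
  refine ⟨?_, ?_, ?_⟩
  · rw [e7]; ring
  · rw [e8]; ring
  · linear_combination -e9

end Pool.Agent.XV
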