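import Pool.Agent.XV.Stmts

/-!
# Module CHV: all coordinates in terms of those of a chart
-/

set_option autoImplicit false

noncomputable section

namespace Pool.Agent.XV

open scoped Classical
open MvPolynomial

namespace CHV_

theorem mdeg0 (e : Fin 10 → ℕ) : mdeg e 0 = e 0 + (e 1 + (e 2 + e 3)) := by
  simp [mdeg, Fin.sum_univ_succ, eS, eT]

theorem mdeg1 (e : Fin 10 → ℕ) : mdeg e 1 = e 0 + (e 4 + (e 5 + e 6)) := by
  simp [mdeg, Fin.sum_univ_succ, eS, eT]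

theorem mdeg2 (e : Fin 10 → ℕ) : mdeg e 2 = e 1 + (e 4 + (e 7 + e 8)) := by
  simp [mdeg, Fin.sum_univ_succ, eS, eT]

theorem mdeg3 (e : Fin 10 → ℕ) : mdeg e 3 = e 2 + (e 5 + (e 7 + e 9)) := by
  simp [mdeg, Fin.sum_univ_succ, eS, eT]

theorem mdeg4 (e : Fin 10 → ℕ) : mdeg e 4 = e 3 + (e 6 + (e 8 + e 9)) := by
  simp [mdeg, Fin.sum_univ_succ, eS, eT]

/-- the vector identity -/
def VI (σ : Fin 6) (c : Pt) : Prop :=
    (c.w : ℤ) = tw σ 0 + ((elc σ 0 c : ℤ) * ((tw σ 1 : ℤ) - tw σ 0) +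
      (elc σ 1 c : ℤ) * ((tw σ 2 : ℤ) - tw σ 0) + (elc σ 2 c : ℤ) * ((tw σ 3 : ℤ) - tw σ 0)) ∧
    ∀ k, (c.e k : ℤ) = te σ 0 k + ((elc σ 0 c : ℤ) * ((te σ 1 k : ℤ) - te σ 0 k) +
      (elc σ 1 c : ℤ) * ((te σ 2 k : ℤ) - te σ 0 k) +
      (elc σ 2 c : ℤ) * ((te σ 3 k : ℤ) - te σ 0 k)) +
      (nu σ 0 c * ((te σ 7 k : ℤ) - te σ 0 k) + nu σ 1 c * ((te σ 8 k : ℤ) - te σ 0 k) +
        nu σ 2 c * ((te σ 9 k : ℤ) - te σ 0 k))

/-- the inequalities and equations which are used -/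
theorem prep {w : ℕ} {e : Fin 10 → ℕ} (h : Adm 1 w e) :
    (e 0 + (e 1 + (e 2 + e 3)) = 4 * (1 + w) ∧ e 0 + (e 4 + (e 5 + e 6)) = 4 * (1 + w) ∧
    e 1 + (e 4 + (e 7 + e 8)) = 4 * (1 + w) ∧ e 2 + (e 5 + (e 7 + e 9)) = 4 * (1 + w) ∧
    e 3 + (e 6 + (e 8 + e 9)) = 4 * (1 + w)) ∧ w ≤ 12 ∧ w ≤ e 0 + 6 ∧ w ≤ e 7 + 6 ∧
    w ≤ 2 * e 0 + 4 ∧ w ≤ 2 * e 7 + 4 ∧ w ≤ e 0 + e 7 + 2 := by
  have d0 := h.deg 0
  have d1 := h.deg 1
  have d2 := h.deg 2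
  have d3 := h.deg 3
  have d4 := h.deg 4
  rw [mdeg0] at d0
  rw [mdeg1] at d1
  rw [mdeg2] at d2
  rw [mdeg3] at d3
  rw [mdeg4] at d4
  have t := h.top
  have o0 := h.one 0
  have o7 := h.one 7
  have w0 := h.two 0
  have w7 := h.two 7
  have db := h.dbl 0 7 (by decide)
  exact ⟨⟨d0, d1, d2, d3, d4⟩, t, o0, o7, w0, w7, db⟩

theorem vi0 (c : Pt) : VI 0 c := by
  obtain ⟨w, e, h⟩ := c
  obtain ⟨⟨d0, d1, d2, d3, d4⟩, t, o0, o7, w0, w7, db⟩ := prep h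
  unfold VI nu
  simp only [Fin.sum_univ_three, elc]
  refine ⟨?_, ?_⟩
  · simp [tw, el]
    try omega
  · intro k
    fin_cases k <;> simp [te, el, kU, tX] <;> omega

theorem vi1 (c : Pt) : VI 1 c := by
  obtain ⟨w, e, h⟩ := c
  obtain ⟨⟨d0, d1, d2, d3, d4⟩, t, o0, o7, w0, w7, db⟩ := prep h
  unfold VI nu
  simp only [Fin.sum_univ_three, elc]
  refine ⟨?_, ?_⟩
  · simp [tw, el]
    try omega
  · intro k
    fin_cases k <;> simp [te, el, kU, tX] <;> omega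

theorem vi2 (c : Pt) : VI 2 c := by
  obtain ⟨w, e, h⟩ := c
  obtain ⟨⟨d0, d1, d2, d3, d4⟩, t, o0, o7, w0, w7, db⟩ := prep h
  unfold VI nu
  simp only [Fin.sum_univ_three, elc]
  refine ⟨?_, ?_⟩
  · simp [tw, el]
    try omega
  · intro k
    fin_cases k <;> simp [te, el, kU, tX] <;> omega

theorem vi3 (c : Pt) : VI 3 c := by
  obtain ⟨w, e, h⟩ := c
  obtain ⟨⟨d0, d1, d2, d3, d4⟩, t, o0, o7, w0, w7, db⟩ := prep h
  unfold VI nu
  simp only [Fin.sum_univ_three, elc]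
  refine ⟨?_, ?_⟩
  · simp [tw, el]
    try omega
  · intro k
    fin_cases k <;> simp [te, el, kU, tX] <;> omega

theorem vi4 (c : Pt) : VI 4 c := by
  obtain ⟨w, e, h⟩ := c
  obtain ⟨⟨d0, d1, d2, d3, d4⟩, t, o0, o7, w0, w7, db⟩ := prep h
  unfold VI nu
  simp only [Fin.sum_univ_three, elc]
  refine ⟨?_, ?_⟩
  · simp [tw, el]
    try omega
  · intro k
    fin_cases k <;> simp [te, el, kU, tX] <;> omega

theorem vi5 (c : Pt) : VI 5 c := by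
  obtain ⟨w, e, h⟩ := c
  obtain ⟨⟨d0, d1, d2, d3, d4⟩, t, o0, o7, w0, w7, db⟩ := prep h
  unfold VI nu
  simp only [Fin.sum_univ_three, elc]
  refine ⟨?_, ?_⟩
  · simp [tw, el]
    try omega
  · intro k
    fin_cases k <;> simp [te, el, kU, tX] <;> omega

theorem vec (σ : Fin 6) (c : Pt) : VI σ c := by
  fin_cases σ
  · exact vi0 c
  · exact vi1 c
  · exact vi2 c
  · exact vi3 c
  · exact vi4 c
  · exact vi5 c

/-- an identity in a commutative group -/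
theorem grp {G : Type} [CommGroup G] (Z P M : G) (a b m : ℕ) :
    Z * (Z⁻¹) ^ a * (P * M⁻¹) * (Z ^ (a + b) * (Z ^ m * M)) = Z ^ b * P * Z ^ (1 + m) := by
  rw [pow_add, pow_add, pow_one, inv_pow]
  generalize Z ^ a = x
  generalize Z ^ b = y
  generalize Z ^ m = z
  calc Z * x⁻¹ * (P * M⁻¹) * (x * y * (z * M))
      = (x⁻¹ * x) * (M⁻¹ * M) * (y * P * (Z * z)) := by
        simp only [mul_assoc, mul_left_comm, mul_comm]
    _ = y * P * (Z * z) := by simp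

end CHV_

open CHV_ in
theorem chv_proof (hBin : Stmt_Bin) : Stmt_Chv := by
  intro B _ s hs σ Z U hZ hU c
  obtain ⟨hw, he⟩ := vec σ c
  -- positive and negative parts
  obtain ⟨p0, m0, h0⟩ : ∃ p m : ℕ, nu σ 0 c = p - m :=
    ⟨(nu σ 0 c).toNat, (-nu σ 0 c).toNat, by omega⟩
  obtain ⟨p1, m1, h1⟩ : ∃ p m : ℕ, nu σ 1 c = p - m :=
    ⟨(nu σ 1 c).toNat, (-nu σ 1 c).toNat, by omega⟩
  obtain ⟨p2, m2, h2⟩ : ∃ p m : ℕ, nu σ 2 c = p - m :=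
    ⟨(nu σ 2 c).toNat, (-nu σ 2 c).toNat, by omega⟩
  have htw : tw σ 7 = tw σ 0 ∧ tw σ 8 = tw σ 0 ∧ tw σ 9 = tw σ 0 := by
    fin_cases σ <;> decide
  have key := hBin B s hs
    (c ::ₘ (Multiset.replicate (elc σ 0 c + elc σ 1 c + elc σ 2 c + (p0 + p1 + p2)) (tp σ 0) +
      (Multiset.replicate m0 (tp σ 7) + Multiset.replicate m1 (tp σ 8) +
        Multiset.replicate m2 (tp σ 9))))
    (Multiset.replicate (elc σ 0 c) (tp σ 1) + Multiset.replicate (elc σ 1 c) (tp σ 2) +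
      Multiset.replicate (elc σ 2 c) (tp σ 3) +
      (Multiset.replicate p0 (tp σ 7) + Multiset.replicate p1 (tp σ 8) +
        Multiset.replicate p2 (tp σ 9)) + Multiset.replicate (1 + (m0 + m1 + m2)) (tp σ 0))
    (by simp; omega)
    (by
      simp only [Multiset.map_cons, Multiset.map_add, Multiset.map_replicate, Multiset.sum_cons,
        Multiset.sum_add, Multiset.sum_replicate, smul_eq_mul, tp, htw.1, htw.2.1, htw.2.2]
      zify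
      linear_combination hw)
    (fun k => by
      have hk := he k
      simp only [Multiset.map_cons, Multiset.map_add, Multiset.map_replicate, Multiset.sum_cons,
        Multiset.sum_add, Multiset.sum_replicate, smul_eq_mul, tp]
      rw [h0, h1, h2] at hk
      zify
      linear_combination hk)
  simp only [Multiset.map_cons, Multiset.map_add, Multiset.map_replicate, Multiset.prod_cons,
    Multiset.prod_add, Multiset.prod_replicate] at key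
  have hU0 : s (tp σ 7) = Z * U 0 := hU 0
  have hU1 : s (tp σ 8) = Z * U 1 := hU 1
  have hU2 : s (tp σ 9) = Z * U 2 := hU 2
  rw [hZ, hU0, hU1, hU2] at key
  rw [Fin.prod_univ_three, Fin.prod_univ_three, h0, h1, h2]
  have e1 : U 0 ^ ((p0 : ℤ) - m0) * U 1 ^ ((p1 : ℤ) - m1) * U 2 ^ ((p2 : ℤ) - m2) =
      U 0 ^ p0 * U 1 ^ p1 * U 2 ^ p2 * (U 0 ^ m0 * U 1 ^ m1 * U 2 ^ m2)⁻¹ := by
    simp only [zpow_sub, zpow_natCast, mul_inv, mul_assoc, mul_left_comm]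
  rw [e1]
  have hgrp := congrArg Units.val (grp Z (U 0 ^ p0 * U 1 ^ p1 * U 2 ^ p2)
    (U 0 ^ m0 * U 1 ^ m1 * U 2 ^ m2) (elc σ 0 c + elc σ 1 c + elc σ 2 c) (p0 + p1 + p2)
    (m0 + m1 + m2))
  let W : Bˣ := Z ^ (elc σ 0 c + elc σ 1 c + elc σ 2 c + (p0 + p1 + p2)) *
    ((Z * U 0) ^ m0 * (Z * U 1) ^ m1 * (Z * U 2) ^ m2)
  refine (Units.mul_left_inj W).1 ?_
  have hW : (W : B) = (Z : B) ^ (elc σ 0 c + elc σ 1 c + elc σ 2 c + (p0 + p1 + p2)) *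
    (((Z : B) * U 0) ^ m0 * ((Z : B) * U 1) ^ m1 * ((Z : B) * U 2) ^ m2) := by
    simp [W]
  rw [hW, key]
  have t1 : s (tp σ (tX 0)) = s (tp σ 1) := rfl
  have t2 : s (tp σ (tX 1)) = s (tp σ 2) := rfl
  have t3 : s (tp σ (tX 2)) = s (tp σ 3) := rfl
  rw [t1, t2, t3]
  simp only [Units.val_mul, Units.val_pow_eq_pow_val] at hgrp ⊢
  generalize ((U 0 ^ m0 * U 1 ^ m1 * U 2 ^ m2 : Bˣ)⁻¹ : Bˣ).val = M' at hgrp ⊢
  generalize ((Z⁻¹ : Bˣ) : B) = Z' at hgrp ⊢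
  linear_combination (-(s (tp σ 1) ^ elc σ 0 c * s (tp σ 2) ^ elc σ 1 c *
    s (tp σ 3) ^ elc σ 2 c)) * hgrp

end Pool.Agent.XV
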