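import Pool.Agent.XV.Stmts

set_option autoImplicit false

noncomputable section

namespace Pool.Agent.XV

open scoped Classical
open MvPolynomial Pool.Agent.FRM Pool.Agent.DIS

namespace COV_

/-- the big field -/
abbrev QQ : Type := FractionRing (Cox ℤ)

/-- the coordinates in the big field -/
def cq (c : Pt) : QQ := algebraMap (Cox ℤ) QQ (cm ℤ c)

theorem inj_cox : Function.Injective (algebraMap (Cox ℤ) QQ) := IsFractionRing.injective _ _

theorem exValAbs (R Q K : Type) [CommRing R] [Field Q] [Field K] (ι : R →+* Q)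
    (hι : Function.Injective ι) (ψ : R →+* K) :
    ∃ (Γ : Type) (_ : LinearOrderedCommGroupWithZero Γ) (v : Valuation Q Γ),
      ∀ r, v (ι r) ≤ 1 ∧ (v (ι r) = 1 ↔ ψ r ≠ 0) := by
  have hp : (RingHom.ker ψ).IsPrime := RingHom.ker_isPrime ψ
  have hu : ∀ y : (RingHom.ker ψ).primeCompl, IsUnit (ι y) := by
    intro y
    rw [isUnit_iff_ne_zero]
    intro h0
    apply y.2
    have h1 : (y : R) = 0 := hι (by rw [h0, map_zero])
    rw [h1]
    exact zero_mem _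
  let f : Localization.AtPrime (RingHom.ker ψ) →+* Q := IsLocalization.lift hu
  obtain ⟨O, hO, hloc⟩ := IsLocalRing.exists_factor_valuationRing f
  refine ⟨O.ValueGroup, inferInstance, O.valuation, fun r => ?_⟩
  have h1 : f (algebraMap _ _ r) = ι r := IsLocalization.lift_eq hu r
  have h2 : ι r ∈ O := by
    rw [← h1]
    exact hO _
  refine ⟨(O.valuation_le_one_iff _).2 h2, ?_⟩
  rw [← O.valuation_eq_one_iff ⟨ι r, h2⟩]
  have h4 : (⟨ι r, h2⟩ : O) = f.codRestrict O.toSubring hO (algebraMap _ _ r) := Subtype.ext h1.symm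
  rw [h4]
  constructor
  · intro h5
    have h6 := isUnit_of_map_unit (f.codRestrict O.toSubring hO) _ h5
    rw [IsLocalization.AtPrime.isUnit_to_map_iff _ (RingHom.ker ψ)] at h6
    intro h7
    exact h6 h7
  · intro h5
    refine IsUnit.map (f.codRestrict O.toSubring hO) ?_
    rw [IsLocalization.AtPrime.isUnit_to_map_iff _ (RingHom.ker ψ)]
    intro h6
    exact h5 h6

theorem exVal (K : Type) [Field K] (s : Pt → K) (hs : IsSol s) :
    ∃ (Γ : Type) (_ : LinearOrderedCommGroupWithZero Γ) (v : Valuation QQ Γ),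
      ∀ c, v (cq c) ≤ 1 ∧ (v (cq c) = 1 ↔ s c ≠ 0) := by
  let ψ : (MvPolynomial (Fin (N + 1)) ℤ ⧸ I ℤ) →+* K :=
    Ideal.Quotient.lift (I ℤ) (eval₂Hom (Int.castRingHom K) (fun i => s (pt i))) hs
  let ι₀ : MvPolynomial (Fin (N + 1)) ℤ →+* QQ :=
    (algebraMap (Cox ℤ) QQ).comp (cx ℤ).toRingHom
  have hι₀ : ∀ g, ι₀ g = 0 ↔ g ∈ I ℤ := by
    intro g
    change algebraMap (Cox ℤ) QQ (cx ℤ g) = 0 ↔ cx ℤ g = 0
    rw [← map_zero (algebraMap (Cox ℤ) QQ), inj_cox.eq_iff]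
  let ι : (MvPolynomial (Fin (N + 1)) ℤ ⧸ I ℤ) →+* QQ :=
    Ideal.Quotient.lift (I ℤ) ι₀ (fun g hg => (hι₀ g).2 hg)
  have hι : Function.Injective ι := by
    rw [injective_iff_map_eq_zero]
    intro x
    obtain ⟨g, rfl⟩ := Ideal.Quotient.mk_surjective x
    intro hg
    rw [Ideal.Quotient.eq_zero_iff_mem, ← hι₀]
    exact hg
  obtain ⟨Γ, i1, v, hv⟩ := exValAbs _ QQ K ι hι ψ
  refine ⟨Γ, i1, v, fun c => ?_⟩
  have h1 : ι (Ideal.Quotient.mk (I ℤ) (xc ℤ c)) = cq c := by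
    change algebraMap (Cox ℤ) QQ (cx ℤ (xc ℤ c)) = _
    rw [cx_xc]
    rfl
  have h3 : ψ (Ideal.Quotient.mk (I ℤ) (xc ℤ c)) = s c := by
    change eval₂Hom (Int.castRingHom K) (fun i => s (pt i)) (xc ℤ c) = s c
    simp [xc]
  have h2 := hv (Ideal.Quotient.mk (I ℤ) (xc ℤ c))
  rw [h1, h3] at h2
  exact h2

theorem br2_ne (i j : Fin 5) (h : i ≠ j) : br2 ℤ i j ≠ 0 := by
  intro h0
  have h1 := congrArg (eval (fun x : Vr => match x with
    | Vr.a i' => if i' = i then (1 : ℤ) else 0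
    | Vr.b j' => if j' = j then (1 : ℤ) else 0
    | _ => 0)) h0
  simp [br2, h] at h1

theorem br_ne (k : Fin 10) : br ℤ k ≠ 0 := br2_ne _ _ (eS_ne_eT k)

theorem br_ed : ∀ i j : Fin 5, i < j → br ℤ (ed i j) = br2 ℤ i j := by
  intro i j hij
  have h : ∀ i j : Fin 5, i < j → eS (ed i j) = i ∧ eT (ed i j) = j := by decide
  unfold br
  rw [(h i j hij).1, (h i j hij).2]

theorem plu (i j k l : Fin 5) : br2 ℤ i j * br2 ℤ k l + br2 ℤ i l * br2 ℤ j k =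
    br2 ℤ i k * br2 ℤ j l := by
  unfold br2
  ring

theorem act_act (π : Equiv.Perm (Fin 5)) (c : Pt) : act π (act π⁻¹ c) = c := by
  ext k
  · rfl
  · change c.e (pe π⁻¹⁻¹ (pe π⁻¹ k)) = c.e k
    rw [← pe_mul, inv_inv, mul_inv_cancel, pe_one]

theorem sgn_unit (π : Equiv.Perm (Fin 5)) (c : Pt) : sgn π c = 1 ∨ sgn π c = -1 := by
  rw [← Int.isUnit_iff]
  unfold sgn
  rw [IsUnit.prod_univ_iff]
  intro k
  apply IsUnit.pow
  unfold sg
  split_ifs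
  · exact isUnit_one
  · exact isUnit_one.neg

section Val

variable {Γ : Type} [LinearOrderedCommGroupWithZero Γ]

theorem v_tws (v : Valuation QQ Γ) (π : Equiv.Perm (Fin 5)) (c : Pt) :
    v (tws π cq c) = v (cq (act π c)) := by
  unfold tws
  rw [map_mul]
  rcases sgn_unit π c with h | h <;> rw [h] <;> simp

/-- integral monomials -/
def Mz (t u : Γ) (a : Fin 10 → Γ) (p q : ℤ) (z : Fin 10 → ℤ) : Γ :=
  t ^ p * u ^ q * ∏ k, a k ^ z k

theorem Mz_mul (t u : Γ) (a : Fin 10 → Γ) (ht : t ≠ 0) (hu : u ≠ 0) (ha : ∀ k, a k ≠ 0)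
    (p q : ℤ) (z : Fin 10 → ℤ) (p' q' : ℤ) (z' : Fin 10 → ℤ) :
    Mz t u a p q z * Mz t u a p' q' z' = Mz t u a (p + p') (q + q') (z + z') := by
  unfold Mz
  rw [zpow_add₀ ht, zpow_add₀ hu]
  have h : ∏ k, a k ^ (z + z') k = (∏ k, a k ^ z k) * ∏ k, a k ^ z' k := by
    rw [← Finset.prod_mul_distrib]
    exact Finset.prod_congr rfl fun k _ => by rw [Pi.add_apply, zpow_add₀ (ha k)]
  rw [h]
  ac_rfl

theorem Mz_zpow (t u : Γ) (a : Fin 10 → Γ) (p q : ℤ) (z : Fin 10 → ℤ) (n : ℤ) :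
    Mz t u a p q z ^ n = Mz t u a (p * n) (q * n) (fun k => z k * n) := by
  unfold Mz
  rw [mul_zpow, mul_zpow, zpow_mul, zpow_mul, ← Finset.prod_zpow]
  congr 1
  exact Finset.prod_congr rfl fun k _ => by rw [zpow_mul]

theorem Mz_ne (t u : Γ) (a : Fin 10 → Γ) (ht : t ≠ 0) (hu : u ≠ 0) (ha : ∀ k, a k ≠ 0)
    (p q : ℤ) (z : Fin 10 → ℤ) : Mz t u a p q z ≠ 0 := by
  unfold Mz
  exact mul_ne_zero (mul_ne_zero (zpow_ne_zero _ ht) (zpow_ne_zero _ hu))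
    (Finset.prod_ne_zero_iff.2 fun k _ => zpow_ne_zero _ (ha k))

/-- exponents of x -/
def xv : Fin 10 → ℤ := ![1, 0, 0, -1, 0, -1, 0, 0, 0, 1]
/-- exponents of y -/
def yv : Fin 10 → ℤ := ![0, -1, 0, 1, 0, 0, 0, 1, 0, -1]
/-- exponents of v -/
def vv : Fin 10 → ℤ := ![0, -2, 0, -2, -2, -2, 0, 0, 0, -2]
/-- exponents of the units -/
def uv : Fin 3 → Fin 10 → ℤ := ![![0, 0, 1, -1, 0, -1, 1, 0, 0, 0],
  ![0, -1, 1, 0, 0, 0, 0, 0, 1, -1], ![0, -1, 1, 0, 1, -1, 0, 0, 0, 0]]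
/-- exponents of the chart coordinates -/
def G : Fin 6 → Fin 3 → Fin 3 → ℤ := ![
  ![![1, 0, 0], ![0, 1, 0], ![0, 0, -1]],
  ![![1, 0, -1], ![0, 1, -1], ![0, 0, 1]],
  ![![1, 1, -2], ![0, 1, 0], ![0, -1, 1]],
  ![![1, 0, -1], ![0, 1, 0], ![-1, -1, 2]],
  ![![0, -1, 1], ![-1, 0, 1], ![1, 1, -1]],
  ![![-1, -1, 1], ![1, 0, 0], ![0, 1, 0]]]

theorem tabU : ∀ (σ : Fin 6) (j : Fin 3) (k : Fin 10),
    (te σ (tU j) k : ℤ) = te σ 0 k + uv j k := by decide +kernel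

theorem tabUw : ∀ (σ : Fin 6) (j : Fin 3), (tw σ (tU j) : ℤ) = tw σ 0 := by decide +kernel

theorem tabX : ∀ (σ : Fin 6) (l : Fin 3) (k : Fin 10),
    (te σ (tX l) k : ℤ) = te σ 0 k + (xv k * G σ l 0 + yv k * G σ l 1 + vv k * G σ l 2) := by
  decide +kernel

theorem tabXw : ∀ (σ : Fin 6) (l : Fin 3), (tw σ (tX l) : ℤ) = tw σ 0 + (-1) * G σ l 2 := by
  decide +kernel

theorem gv_eq (σ : Fin 6) (l : Fin 3) (x y v : Γ) (hv : v ≠ 0) :
    gv σ l x y v = x ^ G σ l 0 * y ^ G σ l 1 * v ^ G σ l 2 := by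
  have h2 : v ^ (-2 : ℤ) = v⁻¹ * v⁻¹ := by
    rw [show (-2 : ℤ) = -1 + -1 by norm_num, zpow_add₀ hv, zpow_neg_one]
  have h3 : v ^ (2 : ℤ) = v * v := by
    rw [show (2 : ℤ) = 1 + 1 by norm_num, zpow_add₀ hv, zpow_one]
  fin_cases σ <;> fin_cases l <;>
    simp only [gv, G, Fin.mk_zero, Fin.mk_one, Fin.isValue, Fin.reduceFinMk,
      Matrix.cons_val_zero, Matrix.cons_val_one, Matrix.cons_val, zpow_zero, zpow_one, one_mul,
      mul_one, zpow_neg_one, h2, h3] <;> ac_rfl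

theorem v_cq (v : Valuation QQ Γ) (π : Equiv.Perm (Fin 5)) (c : Pt) :
    v (cq (act π c)) = Mz (v (algebraMap (Cox ℤ) QQ (X Vr.T))) (v (algebraMap (Cox ℤ) QQ (X Vr.u)))
      (fun k => v (algebraMap (Cox ℤ) QQ (br ℤ (pe π k)))) 1 c.w (fun k => c.e k) := by
  unfold cq cm mon Mz
  rw [map_mul, map_mul, map_mul, map_mul, map_prod, map_prod, pow_one, zpow_one, map_pow, map_pow]
  congr 1
  · rw [zpow_natCast]
    rfl
  · rw [← Equiv.prod_comp (peE π)]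
    refine Finset.prod_congr rfl fun k _ => ?_
    rw [map_pow, map_pow, zpow_natCast]
    change v (algebraMap (Cox ℤ) QQ (br ℤ (pe π k))) ^ (act π c).e (pe π k) = _
    rw [act_e]

theorem main (hSYM : Stmt_Sym) (hHOM : Stmt_Hom) (hCHV : Stmt_Chv) (hFAN : Stmt_Fan)
    (v : Valuation QQ Γ) (π : Equiv.Perm (Fin 5)) (a : Fin 10 → Γ)
    (hav : ∀ k, a k = v (algebraMap (Cox ℤ) QQ (br ℤ (pe π k))))
    (h1 : a 2 * a 6 = a 3 * a 5) (h2 : a 2 * a 8 = a 1 * a 9) (h3 : a 2 * a 4 = a 1 * a 5)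
    (h5 : a 3 * a 7 ≤ a 1 * a 9) (hxy : a 0 * a 9 / (a 3 * a 5) ≤ a 3 * a 7 / (a 1 * a 9))
    (hle : ∀ c, v (cq c) ≤ 1) (c0 : Pt) (hc0 : v (cq c0) = 1) :
    ∃ σ : Fin 6, v (cq (act π (tp σ 0))) = 1 ∧ ∀ j, v (cq (act π (tp σ (tU j)))) = 1 := by
  set t := v (algebraMap (Cox ℤ) QQ (X Vr.T)) with ht
  set u := v (algebraMap (Cox ℤ) QQ (X Vr.u)) with hu
  have hne : ∀ g : Cox ℤ, g ≠ 0 → v (algebraMap (Cox ℤ) QQ g) ≠ 0 := by
    intro g hg
    rw [Valuation.ne_zero_iff, Ne, ← map_zero (algebraMap (Cox ℤ) QQ), inj_cox.eq_iff]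
    exact hg
  have ht0 : t ≠ 0 := hne _ (X_ne_zero _)
  have hu0 : u ≠ 0 := hne _ (X_ne_zero _)
  have ha0 : ∀ k, a k ≠ 0 := fun k => by rw [hav]; exact hne _ (br_ne _)
  have hV : ∀ c : Pt, v (cq (act π c)) = Mz t u a 1 c.w (fun k => c.e k) := by
    intro c
    rw [v_cq]
    have : a = fun k => v (algebraMap (Cox ℤ) QQ (br ℤ (pe π k))) := funext hav
    rw [this]
  -- the values of x, y, v
  have hX : Mz t u a 0 0 xv = a 0 * a 9 / (a 3 * a 5) := by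
    rw [div_eq_mul_inv, mul_inv]
    simp only [Mz, xv, Fin.prod_univ_succ, Fin.prod_univ_zero]
    simp
    have h6 : ∀ A B C D : Γ, A * (B * (C * D)) = A * D * (B * C) := by intros; ac_rfl
    exact h6 _ _ _ _
  have hY : Mz t u a 0 0 yv = a 3 * a 7 / (a 1 * a 9) := by
    rw [div_eq_mul_inv, mul_inv]
    simp only [Mz, yv, Fin.prod_univ_succ, Fin.prod_univ_zero]
    simp
    have h6 : ∀ A B C D : Γ, A * (B * (C * D)) = B * C * (A * D) := by intros; ac_rfl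
    exact h6 _ _ _ _
  have hU : ∀ j, Mz t u a 0 0 (uv j) = 1 := by
    intro j
    fin_cases j
    · simp only [Mz, uv, Fin.prod_univ_succ, Fin.prod_univ_zero]
      simp
      have h6 : a 2 * ((a 3)⁻¹ * ((a 5)⁻¹ * a 6)) = (a 2 * a 6) * (a 3 * a 5)⁻¹ := by
        rw [mul_inv]; ac_rfl
      rw [h6, h1, mul_inv_cancel₀ (mul_ne_zero (ha0 _) (ha0 _))]
    · simp only [Mz, uv, Fin.prod_univ_succ, Fin.prod_univ_zero]
      simp
      have h6 : (a 1)⁻¹ * (a 2 * (a 8 * (a 9)⁻¹)) = (a 2 * a 8) * (a 1 * a 9)⁻¹ := by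
        rw [mul_inv]; ac_rfl
      rw [h6, h2, mul_inv_cancel₀ (mul_ne_zero (ha0 _) (ha0 _))]
    · simp only [Mz, uv, Fin.prod_univ_succ, Fin.prod_univ_zero]
      simp
      have h6 : (a 1)⁻¹ * (a 2 * (a 4 * (a 5)⁻¹)) = (a 2 * a 4) * (a 1 * a 5)⁻¹ := by
        rw [mul_inv]; ac_rfl
      rw [h6, h3, mul_inv_cancel₀ (mul_ne_zero (ha0 _) (ha0 _))]
  have hM0 := Mz_ne t u a ht0 hu0 ha0
  obtain ⟨σ, hσ⟩ := hFAN Γ (Mz t u a 0 0 xv) (Mz t u a 0 0 yv) (Mz t u a 0 (-1) vv) (hM0 _ _ _)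
    (hM0 _ _ _) (by rw [hX, hY]; exact hxy) (by
      rw [hY]
      exact (div_le_one₀ (zero_lt_iff.2 (mul_ne_zero (ha0 _) (ha0 _)))).2 h5)
  -- values at the table
  have hVX : ∀ l, v (cq (act π (tp σ (tX l)))) = v (cq (act π (tp σ 0))) *
      gv σ l (Mz t u a 0 0 xv) (Mz t u a 0 0 yv) (Mz t u a 0 (-1) vv) := by
    intro l
    rw [gv_eq _ _ _ _ _ (hM0 _ _ _), hV, hV, Mz_zpow, Mz_zpow, Mz_zpow,
      Mz_mul _ _ _ ht0 hu0 ha0, Mz_mul _ _ _ ht0 hu0 ha0, Mz_mul _ _ _ ht0 hu0 ha0]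
    have e1 : (((tp σ (tX l)).w : ℕ) : ℤ) = ((tp σ 0).w : ℤ) + (0 * G σ l 0 + 0 * G σ l 1 +
        (-1) * G σ l 2) := by
      have := tabXw σ l
      change (tw σ (tX l) : ℤ) = (tw σ 0 : ℤ) + _
      rw [this]
      ring
    have e2 : (fun k => (((tp σ (tX l)).e k : ℕ) : ℤ)) = (fun k => ((tp σ 0).e k : ℤ)) +
        ((fun k => xv k * G σ l 0) + (fun k => yv k * G σ l 1) + fun k => vv k * G σ l 2) := by
      funext k
      exact tabX σ l k
    rw [e1, e2]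
    congr 1
    ring
  have hVU : ∀ j, v (cq (act π (tp σ (tU j)))) = v (cq (act π (tp σ 0))) := by
    intro j
    rw [← mul_one (v (cq (act π (tp σ 0)))), ← hU j, hV, hV, Mz_mul _ _ _ ht0 hu0 ha0]
    have e1 : (((tp σ (tU j)).w : ℕ) : ℤ) = ((tp σ 0).w : ℤ) + 0 := by
      have := tabUw σ j
      change (tw σ (tU j) : ℤ) = (tw σ 0 : ℤ) + _
      rw [this, add_zero]
    have e2 : (fun k => (((tp σ (tU j)).e k : ℕ) : ℤ)) = (fun k => ((tp σ 0).e k : ℤ)) + uv j := by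
      funext k
      exact tabU σ j k
    rw [e1, e2]
    congr 1
  -- the solution
  have hs : IsSol (tws π cq) := hSYM QQ cq π (hHOM QQ (algebraMap (Cox ℤ) QQ))
  have hcq : ∀ c, cq c ≠ 0 := by
    intro c h0
    have h6 := hV (act π⁻¹ c)
    rw [act_act, h0, map_zero] at h6
    exact hM0 _ _ _ h6.symm
  have hs0 : ∀ c, tws π cq c ≠ 0 := by
    intro c
    unfold tws
    refine mul_ne_zero ?_ (hcq _)
    rcases sgn_unit π c with h | h <;> rw [h] <;> simp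
  let Z : QQˣ := Units.mk0 (tws π cq (tp σ 0)) (hs0 _)
  let U : Fin 3 → QQˣ := fun j => Units.mk0 (tws π cq (tp σ (tU j)) / tws π cq (tp σ 0))
    (div_ne_zero (hs0 _) (hs0 _))
  have hchv := hCHV QQ (tws π cq) hs σ Z U rfl (fun j => by
    change tws π cq (tp σ (tU j)) = tws π cq (tp σ 0) * (tws π cq (tp σ (tU j)) / tws π cq (tp σ 0))
    rw [mul_div_cancel₀ _ (hs0 _)])
  have hvZ : v (Z : QQ) = v (cq (act π (tp σ 0))) := v_tws v π _
  have hvZ0 : v (Z : QQ) ≠ 0 := (Valuation.ne_zero_iff v).2 Z.ne_zero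
  have hvU : ∀ j, v (U j : QQ) = 1 := by
    intro j
    change v (tws π cq (tp σ (tU j)) / tws π cq (tp σ 0)) = 1
    rw [map_div₀, v_tws, v_tws, hVU j, div_self]
    rw [← hvZ]
    exact hvZ0
  have hbound : ∀ c, v (cq (act π c)) ≤ v (cq (act π (tp σ 0))) := by
    intro c
    rw [← v_tws v π c, hchv c, map_mul, map_mul, hvZ, map_prod]
    have e1 : v (((∏ j, U j ^ nu σ j c : QQˣ)) : QQ) = 1 := by
      rw [Units.coe_prod, map_prod]
      refine Finset.prod_eq_one fun j _ => ?_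
      rw [Units.val_zpow_eq_zpow_val, map_zpow₀, hvU, one_zpow]
    rw [e1, mul_one]
    refine mul_le_of_le_one_right zero_le ?_
    refine Finset.prod_le_one' fun l _ => ?_
    rw [map_pow]
    refine pow_le_one' ?_ _
    rw [map_mul, v_tws, hVX l, ← hvZ, ← mul_assoc, ← map_mul, Units.inv_mul, map_one, one_mul]
    exact hσ l
  have hval : v (cq (act π (tp σ 0))) = 1 := by
    apply le_antisymm (hle _)
    have h6 := hbound (act π⁻¹ c0)
    rw [act_act, hc0] at h6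
    exact h6
  exact ⟨σ, hval, fun j => by rw [hVU, hval]⟩

end Val

/-- the swap -/
def rho : Equiv.Perm (Fin 5) := Equiv.swap 0 3 * Equiv.swap 1 2

theorem pe_rho : pe rho = ![7, 5, 2, 9, 4, 1, 8, 0, 6, 3] := by decide +kernel

end COV_

open COV_ in
theorem cov_proof (hSYM : Stmt_Sym) (hHOM : Stmt_Hom) (hCHV : Stmt_Chv) (hTRE : Stmt_Tre)
    (hFAN : Stmt_Fan) : Stmt_Cov := by
  intro K _ s hs ⟨c0, hc0⟩
  obtain ⟨Γ, _, v, hv⟩ := exVal K s hs
  have hne : ∀ g : Cox ℤ, g ≠ 0 → v (algebraMap (Cox ℤ) QQ g) ≠ 0 := by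
    intro g hg
    rw [Valuation.ne_zero_iff, Ne, ← map_zero (algebraMap (Cox ℤ) QQ), inj_cox.eq_iff]
    exact hg
  obtain ⟨π, h1, h2, h3, h4, h5⟩ := hTRE Γ (fun k => v (algebraMap (Cox ℤ) QQ (br ℤ k)))
    (fun k => hne _ (br_ne k)) (by
      intro i j k l hij hjk hkl
      have hp := congrArg (algebraMap (Cox ℤ) QQ) (plu i j k l)
      simp only [br_ed i j hij, br_ed k l hkl, br_ed i k (hij.trans hjk), br_ed j l (hjk.trans hkl),
        br_ed i l (hij.trans (hjk.trans hkl)), br_ed j k hjk]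
      rw [map_add, map_mul, map_mul, map_mul] at hp
      simp only [← map_mul v]
      refine ⟨?_, ?_, ?_⟩
      · rw [eq_sub_of_add_eq hp]
        exact v.map_sub _ _
      · rw [← hp]
        exact v.map_add _ _
      · rw [eq_sub_of_add_eq' hp, max_comm]
        exact v.map_sub _ _)
  have hfin : ∀ (π' : Equiv.Perm (Fin 5)), (∃ σ : Fin 6, v (cq (act π' (tp σ 0))) = 1 ∧
      ∀ j, v (cq (act π' (tp σ (tU j)))) = 1) →
      ∃ (π : Equiv.Perm (Fin 5)) (σ : Fin 6), tws π s (tp σ 0) ≠ 0 ∧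
        ∀ j, tws π s (tp σ (tU j)) ≠ 0 := by
    rintro π' ⟨σ, hσ, hσ'⟩
    have hz : ∀ c, v (cq (act π' c)) = 1 → tws π' s c ≠ 0 := by
      intro c hc
      have h6 := (hv (act π' c)).2.1 hc
      unfold tws
      refine mul_ne_zero ?_ h6
      rcases sgn_unit π' c with h | h <;> rw [h] <;> simp
    exact ⟨π', σ, hz _ hσ, fun j => hz _ (hσ' j)⟩
  have hc1 : v (cq c0) = 1 := (hv c0).2.2 hc0
  rcases le_total (v (algebraMap (Cox ℤ) QQ (br ℤ (pe π 0))) *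
      v (algebraMap (Cox ℤ) QQ (br ℤ (pe π 9))) / (v (algebraMap (Cox ℤ) QQ (br ℤ (pe π 3))) *
      v (algebraMap (Cox ℤ) QQ (br ℤ (pe π 5))))) (v (algebraMap (Cox ℤ) QQ (br ℤ (pe π 3))) *
      v (algebraMap (Cox ℤ) QQ (br ℤ (pe π 7))) / (v (algebraMap (Cox ℤ) QQ (br ℤ (pe π 1))) *
      v (algebraMap (Cox ℤ) QQ (br ℤ (pe π 9))))) with hxy | hxy
  · exact hfin π (main hSYM hHOM hCHV hFAN v π (fun k => v (algebraMap (Cox ℤ) QQ (br ℤ (pe π k))))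
      (fun k => rfl) h1 h2 h3 h5 hxy (fun c => (hv c).1) c0 hc1)
  · refine hfin (π * rho) (main hSYM hHOM hCHV hFAN v (π * rho)
      (fun k => v (algebraMap (Cox ℤ) QQ (br ℤ (pe (π * rho) k))))
      (fun k => rfl) ?_ ?_ ?_ ?_ ?_ (fun c => (hv c).1) c0 hc1)
    · simp only [pe_mul, pe_rho]
      exact h2.trans (mul_comm _ _)
    · simp only [pe_mul, pe_rho]
      exact h1.trans (mul_comm _ _)
    · simp only [pe_mul, pe_rho]
      exact h3.trans (mul_comm _ _)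
    · simp only [pe_mul, pe_rho]
      rw [mul_comm]
      refine le_trans h4 (le_of_eq (mul_comm _ _))
    · simp only [pe_mul, pe_rho]
      refine le_trans (le_of_eq ?_) (le_trans hxy (le_of_eq ?_))
      · change v (algebraMap (Cox ℤ) QQ (br ℤ (pe π 7))) * v (algebraMap (Cox ℤ) QQ (br ℤ (pe π 3))) /
          (v (algebraMap (Cox ℤ) QQ (br ℤ (pe π 9))) * v (algebraMap (Cox ℤ) QQ (br ℤ (pe π 1)))) = _
        rw [mul_comm (v (algebraMap (Cox ℤ) QQ (br ℤ (pe π 7)))),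
          mul_comm (v (algebraMap (Cox ℤ) QQ (br ℤ (pe π 9))))]
      · change _ = v (algebraMap (Cox ℤ) QQ (br ℤ (pe π 9))) *
          v (algebraMap (Cox ℤ) QQ (br ℤ (pe π 0))) /
          (v (algebraMap (Cox ℤ) QQ (br ℤ (pe π 5))) * v (algebraMap (Cox ℤ) QQ (br ℤ (pe π 3))))
        rw [mul_comm (v (algebraMap (Cox ℤ) QQ (br ℤ (pe π 9)))),
          mul_comm (v (algebraMap (Cox ℤ) QQ (br ℤ (pe π 5))))]

end Pool.Agent.XV
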