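import Pool.Agent.XV.Stmts

/-!
# FAN: the cones cover
-/

set_option autoImplicit false

noncomputable section

namespace Pool.Agent.XV

open scoped Classical
open MvPolynomial

namespace FAN_

theorem mi {Γ : Type} [LinearOrderedCommGroupWithZero Γ] {a b : Γ} (hb : b ≠ 0) (h : a ≤ b) :
    a * b⁻¹ ≤ 1 := by
  have := mul_le_mul_left h b⁻¹
  rwa [mul_inv_cancel₀ hb] at this

end FAN_

open FAN_ in
theorem fan_proof : Stmt_Fan := by
  intro Γ _ x y v hx hv hxy hy1
  have hy : y ≠ 0 := by
    rintro rfl
    exact hx (le_zero_iff.1 hxy)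
  have hx1 : x ≤ 1 := hxy.trans hy1
  rcases le_total 1 v with h | h
  · refine ⟨0, fun l => ?_⟩
    fin_cases l
    · exact hx1
    · exact hy1
    · have := mi hv h
      simpa [gv] using this
  rcases le_total y v with h2 | h2
  · refine ⟨1, fun l => ?_⟩
    fin_cases l
    · exact mi hv (hxy.trans h2)
    · exact mi hv h2
    · exact h
  rcases le_total (x * y) (v * v) with h3 | h3
  · refine ⟨2, fun l => ?_⟩
    fin_cases l
    · show x * y * v⁻¹ * v⁻¹ ≤ 1
      have := mi (mul_ne_zero hv hv) h3
      rwa [mul_inv, ← mul_assoc] at this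
    · exact hy1
    · exact mi hy h2
  rcases le_total x v with h4 | h4
  · refine ⟨3, fun l => ?_⟩
    fin_cases l
    · exact mi hv h4
    · exact hy1
    · show v * v * x⁻¹ * y⁻¹ ≤ 1
      have := mi (mul_ne_zero hx hy) h3
      rwa [mul_inv, ← mul_assoc] at this
  rcases le_total (x * y) v with h5 | h5
  · refine ⟨4, fun l => ?_⟩
    fin_cases l
    · exact mi hy h2
    · exact mi hx h4
    · exact mi hv h5
  · refine ⟨5, fun l => ?_⟩
    fin_cases l
    · show v * x⁻¹ * y⁻¹ ≤ 1
      have := mi (mul_ne_zero hx hy) h5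
      rwa [mul_inv, ← mul_assoc] at this
    · exact hx1
    · exact hy1

end Pool.Agent.XV
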