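import Pool.Agent.XV.Stmts

/-!
# HOM: homomorphisms from the Cox ring give solutions
-/

set_option autoImplicit false

noncomputable section

namespace Pool.Agent.XV

open scoped Classical
open MvPolynomial

theorem hom_proof : Stmt_Hom := by
  intro B _ h g hg
  have h1 : cx ℤ g = 0 := hg
  have h2 : eval₂ (Int.castRingHom B) (fun i => h (cm ℤ (pt i))) g = h (cx ℤ g) := by
    unfold cx
    rw [aeval_def, ← coe_eval₂Hom, ← coe_eval₂Hom]
    have : (eval₂Hom (Int.castRingHom B) fun i => h (cm ℤ (pt i))) =
        h.comp (eval₂Hom (algebraMap ℤ (Cox ℤ)) fun i => cm ℤ (pt i)) := by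
      apply MvPolynomial.ringHom_ext
      · intro r
        simp
      · intro i
        simp
    rw [this]
    rfl
  rw [h2, h1, map_zero]

end Pool.Agent.XV
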