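import Pool.Agent.XV.Stmts

/-!
# SYM: permutation of the points
-/

set_option autoImplicit false

noncomputable section

namespace Pool.Agent.XV

open scoped Classical
open MvPolynomial

namespace SYM_

/-- The renaming of the variables. -/
def ren (π : Equiv.Perm (Fin 5)) : Vr → Vr
  | Vr.a i => Vr.a (π i)
  | Vr.b i => Vr.b (π i)
  | Vr.u => Vr.u
  | Vr.T => Vr.T

theorem eS_lt_eT : ∀ k, eS k < eT k := by decide

/-- The homomorphism of the Cox ring. -/
def phi (π : Equiv.Perm (Fin 5)) : Cox ℤ →ₐ[ℤ] Cox ℤ := rename (ren π)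

theorem phi_br2 (π : Equiv.Perm (Fin 5)) (i j : Fin 5) :
    phi π (br2 ℤ i j) = br2 ℤ (π i) (π j) := by
  simp [phi, br2, ren]

theorem br2_swap (i j : Fin 5) : br2 ℤ i j = -br2 ℤ j i := by
  unfold br2
  ring

theorem phi_br (π : Equiv.Perm (Fin 5)) (k : Fin 10) :
    phi π (br ℤ k) = C (sg π k) * br ℤ (pe π k) := by
  unfold br
  rw [phi_br2]
  have h : π (eS k) ≠ π (eT k) := fun h' => eS_ne_eT k (π.injective h')
  have hlt := eS_lt_eT (pe π k)
  have hspec := ed_spec _ _ h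
  change (eS (pe π k) = _ ∧ eT (pe π k) = _) ∨ (eS (pe π k) = _ ∧ eT (pe π k) = _) at hspec
  rcases hspec with ⟨h1, h2⟩ | ⟨h1, h2⟩
  · rw [h1, h2] at hlt ⊢
    unfold sg
    rw [if_pos hlt]
    simp
  · rw [h1, h2] at hlt ⊢
    unfold sg
    rw [if_neg (not_lt.2 hlt.le), br2_swap]
    simp

theorem phi_cm (π : Equiv.Perm (Fin 5)) (c : Pt) :
    phi π (cm ℤ c) = C (sgn π c) * cm ℤ (act π c) := by
  unfold cm mon
  have hprod : ∏ k, br ℤ k ^ (act π c).e k = ∏ k, br ℤ (pe π k) ^ c.e k := by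
    rw [← Equiv.prod_comp (peE π)]
    refine Finset.prod_congr rfl fun k _ => ?_
    have : (peE π) k = pe π k := rfl
    rw [this, act_e]
  rw [hprod]
  have h1 : phi π (X Vr.T) = X Vr.T := by simp [phi, ren]
  have h2 : phi π (X Vr.u) = X Vr.u := by simp [phi, ren]
  rw [map_mul, map_mul, map_pow, map_pow, map_prod, h1, h2]
  have h3 : ∏ k, phi π (br ℤ k ^ c.e k) = C (sgn π c) * ∏ k, br ℤ (pe π k) ^ c.e k := by
    unfold sgn
    rw [map_prod, ← Finset.prod_mul_distrib]
    refine Finset.prod_congr rfl fun k _ => ?_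
    rw [map_pow, phi_br, mul_pow, map_pow]
  rw [h3]
  have h4 : (act π c).w = c.w := rfl
  rw [h4]
  ring

/-- The transformed equation. -/
def tr (π : Equiv.Perm (Fin 5)) : MvPolynomial (Fin (N + 1)) ℤ →ₐ[ℤ] MvPolynomial (Fin (N + 1)) ℤ :=
  aeval fun i => C (sgn π (pt i)) * X (pt.symm (act π (pt i)))

theorem cx_tr (π : Equiv.Perm (Fin 5)) (g : MvPolynomial (Fin (N + 1)) ℤ) :
    cx ℤ (tr π g) = phi π (cx ℤ g) := by
  have h : (cx ℤ).comp (tr π) = (phi π).comp (cx ℤ) := by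
    ext1 i
    simp only [AlgHom.comp_apply]
    have h1 : tr π (X i) = C (sgn π (pt i)) * X (pt.symm (act π (pt i))) := by simp [tr]
    have h2 : cx ℤ (X i) = cm ℤ (pt i) := by simp [cx]
    have h3 : cx ℤ (X (pt.symm (act π (pt i)))) = cm ℤ (act π (pt i)) := by simp [cx]
    have h4 : cx ℤ (C (sgn π (pt i))) = C (sgn π (pt i)) := by simp [cx]
    rw [h1, h2, phi_cm, map_mul, h3, h4]
  exact DFunLike.congr_fun h g

theorem tr_mem (π : Equiv.Perm (Fin 5)) {g : MvPolynomial (Fin (N + 1)) ℤ} (hg : g ∈ I ℤ) :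
    tr π g ∈ I ℤ := by
  have h : cx ℤ g = 0 := hg
  have h2 : cx ℤ (tr π g) = 0 := by rw [cx_tr, h, map_zero]
  exact h2

theorem eval_tr {B : Type} [CommRing B] (s : Pt → B) (π : Equiv.Perm (Fin 5))
    (g : MvPolynomial (Fin (N + 1)) ℤ) :
    eval₂ (Int.castRingHom B) (fun i => s (pt i)) (tr π g) =
      eval₂ (Int.castRingHom B) (fun i => tws π s (pt i)) g := by
  have h : (eval₂Hom (Int.castRingHom B) (fun i => s (pt i))).comp (tr π).toRingHom =
      eval₂Hom (Int.castRingHom B) (fun i => tws π s (pt i)) := by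
    apply MvPolynomial.ringHom_ext
    · intro r
      simp
    · intro i
      have h1 : (tr π).toRingHom (X i) = C (sgn π (pt i)) * X (pt.symm (act π (pt i))) := by
        simp [tr]
      rw [RingHom.comp_apply, h1, map_mul]
      simp [tws]
  exact RingHom.congr_fun h g

end SYM_

open SYM_ in
theorem sym_proof : Stmt_Sym := by
  intro B _ s π hs g hg
  rw [← eval_tr]
  exact hs _ (tr_mem π hg)

end Pool.Agent.XV
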