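import Pool.Agent.XV.Stmts

/-!
# The threefold `X`: module TRI (Plücker relations)
-/

set_option autoImplicit false

noncomputable section

namespace Pool.Agent.XV

open scoped Classical
open MvPolynomial Pool.Agent.FRM Pool.Agent.DIS

namespace TRI_

theorem ed_lt : ∀ i j : Fin 5, i < j → eS (ed i j) = i ∧ eT (ed i j) = j := by decide

theorem br_ed (A : Type) [CommRing A] (i j : Fin 5) (h : i < j) : br A (ed i j) = br2 A i j := by
  unfold br
  rw [(ed_lt i j h).1, (ed_lt i j h).2]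

theorem prod_ind (A : Type) [CommRing A] (m : Fin 10) : ∏ k, br A k ^ ind m k = br A m := by
  rw [Finset.prod_eq_single m]
  · simp [ind]
  · intro b _ hb
    simp [ind, hb]
  · intro h; exact absurd (Finset.mem_univ m) h

theorem cm_eq (A : Type) [CommRing A] (c : Pt) (e0 : Fin 10 → ℕ) (m m' : Fin 10)
    (h : ∀ n, c.e n = e0 n + ind m n + ind m' n) :
    cm A c = X Vr.T ^ 1 * X Vr.u ^ c.w * (∏ k, br A k ^ e0 k) * (br A m * br A m') := by
  unfold cm mon
  have h1 : ∏ k, br A k ^ c.e k = (∏ k, br A k ^ e0 k) * br A m * br A m' := by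
    rw [← prod_ind A m, ← prod_ind A m', ← Finset.prod_mul_distrib, ← Finset.prod_mul_distrib]
    refine Finset.prod_congr rfl fun k _ => ?_
    rw [h k, pow_add, pow_add]
  rw [h1]
  ring

end TRI_

open TRI_ in
theorem tri_proof : Stmt_Tri := by
  intro B _ s hs i j k l hij hjk hkl e0 c c' c'' hw hw' h h' h''
  have hmem : xc ℤ c' - xc ℤ c - xc ℤ c'' ∈ I ℤ := by
    show cx ℤ _ = 0
    rw [map_sub, map_sub, cx_xc, cx_xc, cx_xc, cm_eq ℤ c e0 _ _ h, cm_eq ℤ c' e0 _ _ h',
      cm_eq ℤ c'' e0 _ _ h'', hw, hw', br_ed ℤ i j hij, br_ed ℤ k l hkl,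
      br_ed ℤ i k (hij.trans hjk), br_ed ℤ j l (hjk.trans hkl),
      br_ed ℤ i l (hij.trans (hjk.trans hkl)), br_ed ℤ j k hjk]
    unfold br2
    ring
  have h1 := hs _ hmem
  simp only [xc, eval₂_sub, eval₂_X, Equiv.apply_symm_apply] at h1
  linear_combination h1

end Pool.Agent.XV
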