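import Pool.Agent.XV.Stmts
import Pool.Agent.LibDb3ab1.Dim

/-!
# XV: DIM
-/

set_option autoImplicit false

noncomputable section

namespace Pool.Agent.XV

open scoped Classical
open MvPolynomial Pool.Agent.FRM Pool.Agent.DIS

namespace DIM_

variable (K : Type) [Field K]

/-- target ring -/
abbrev P4 : Type := MvPolynomial (Fin 4) K

def va (i : Fin 5) : P4 K := ![1, 1 + X 0, 1, 1, 0] i
def vb (i : Fin 5) : P4 K := ![0, X 0 * (1 + X 1), 1, 1 + X 1, 1] i

/-- the specialisation -/
def V : Cox K →ₐ[K] P4 K := aeval fun v => match v with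
  | .a i => va K i
  | .b i => vb K i
  | .u => X 3
  | .T => X 2

def bv (k : Fin 10) : P4 K := va K (eS k) * vb K (eT k) - va K (eT k) * vb K (eS k)

lemma V_br (k : Fin 10) : V K (br K k) = bv K k := by
  simp [V, br, br2, bv]

lemma V_cm (c : Pt) : V K (cm K c) = X 2 * X 3 ^ c.w * ∏ k, bv K k ^ c.e k := by
  simp only [cm, mon, map_mul, map_pow, map_prod, V_br]
  simp [V]

def D : P4 K := (1 - X 0 * X 1) ^ 2 * (1 + X 1) ^ 2

lemma V0 : V K (cm K (tp 0 0)) = X 2 * D K := by
  rw [V_cm]
  simp [tp, tw, te, bv, va, vb, eS, eT, Fin.prod_univ_succ, D]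
  ring

lemma V1 : V K (cm K (tp 0 1)) = X 0 * (X 2 * D K) := by
  rw [V_cm]
  simp [tp, tw, te, bv, va, vb, eS, eT, Fin.prod_univ_succ, D]
  ring

lemma V2 : V K (cm K (tp 0 2)) = X 1 * (X 2 * D K) := by
  rw [V_cm]
  simp [tp, tw, te, bv, va, vb, eS, eT, Fin.prod_univ_succ, D]
  ring

lemma V3 : V K (cm K (tp 0 3)) = X 3 * (X 2 * D K ^ 2) := by
  rw [V_cm]
  simp [tp, tw, te, bv, va, vb, eS, eT, Fin.prod_univ_succ, D]
  ring

lemma D_ne : D K ≠ 0 := by
  intro h
  have h1 := congrArg (MvPolynomial.eval (fun _ : Fin 4 => (0 : K))) h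
  simp [D] at h1

lemma X_ne (i : Fin 4) : (X i : P4 K) ≠ 0 := MvPolynomial.X_ne_zero i

/-- the map -/
def φ : MvPolynomial (Fin (N + 1)) K →ₐ[K] P4 K := (V K).comp (cx K)

lemma mem_range (c : Pt) : V K (cm K c) ∈ (φ K).range := by
  refine ⟨xc K c, ?_⟩
  change V K (cx K (xc K c)) = _
  rw [cx_xc]

lemma alg_mem (y : P4 K) (hy : y ∈ (φ K).range) : IsAlgebraic (φ K).range y := by
  have := isAlgebraic_algebraMap (R := (φ K).range) (A := P4 K) ⟨y, hy⟩
  exact this

lemma alg_div {y z : P4 K} (hy : y ≠ 0) (h1 : IsAlgebraic (φ K).range y)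
    (h2 : IsAlgebraic (φ K).range (z * y)) : IsAlgebraic (φ K).range z := by
  rw [mul_comm] at h2
  exact IsAlgebraic.of_mul (mem_nonZeroDivisors_of_ne_zero hy) h1 h2

lemma alg_X (i : Fin 4) : IsAlgebraic (φ K).range (X i : P4 K) := by
  have h0 := alg_mem K _ (mem_range K (tp 0 0))
  have h1 := alg_mem K _ (mem_range K (tp 0 1))
  have h2 := alg_mem K _ (mem_range K (tp 0 2))
  have h3 := alg_mem K _ (mem_range K (tp 0 3))
  rw [V0] at h0
  rw [V1] at h1
  rw [V2] at h2
  rw [V3] at h3
  have hX2D : (X 2 : P4 K) * D K ≠ 0 := mul_ne_zero (X_ne K 2) (D_ne K)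
  have a0 : IsAlgebraic (φ K).range (X 0 : P4 K) := alg_div K hX2D h0 h1
  have a1 : IsAlgebraic (φ K).range (X 1 : P4 K) := alg_div K hX2D h0 h2
  have hone : IsAlgebraic (φ K).range (1 : P4 K) := isAlgebraic_one
  have aD : IsAlgebraic (φ K).range (D K) := by
    unfold D
    exact ((hone.sub (a0.mul a1)).pow 2).mul ((hone.add a1).pow 2)
  have a2 : IsAlgebraic (φ K).range (X 2 : P4 K) := alg_div K (D_ne K) aD h0
  have a3 : IsAlgebraic (φ K).range (X 3 : P4 K) := by
    refine alg_div K (y := X 2 * D K ^ 2) (mul_ne_zero (X_ne K 2) (pow_ne_zero 2 (D_ne K))) ?_ h3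
    exact a2.mul (aD.pow 2)
  fin_cases i
  · exact a0
  · exact a1
  · exact a2
  · exact a3

instance : Algebra.IsAlgebraic (φ K).range (P4 K) := by
  constructor
  intro p
  induction p using MvPolynomial.induction_on with
  | C a =>
    have : (C a : P4 K) ∈ (φ K).range := (φ K).range.algebraMap_mem a
    exact alg_mem K _ this
  | add p q hp hq => exact hp.add hq
  | mul_X p i hp => exact hp.mul (alg_X K i)

/-- base change of the brackets -/
def mc : Cox ℤ →+* Cox K := MvPolynomial.map (Int.castRingHom K)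

lemma mc_br (k : Fin 10) : mc K (br ℤ k) = br K k := by
  simp [mc, br, br2]

lemma mc_cm (c : Pt) : mc K (cm ℤ c) = cm K c := by
  unfold cm mon
  rw [map_mul, map_mul, map_pow, map_pow, map_prod]
  simp only [map_pow, mc_br]
  simp [mc]

lemma cx_map (g : MvPolynomial (Fin (N + 1)) ℤ) :
    cx K (MvPolynomial.map (Int.castRingHom K) g) = mc K (cx ℤ g) := by
  have h : ((cx K).toRingHom.comp (MvPolynomial.map (Int.castRingHom K))) =
      (mc K).comp (cx ℤ).toRingHom := by
    apply MvPolynomial.ringHom_ext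
    · intro r
      simp [mc, cx]
    · intro i
      simp [cx, mc_cm]
  exact RingHom.congr_fun h g

lemma cx_map_zero (g : MvPolynomial (Fin (N + 1)) ℤ) (hg : g ∈ I ℤ) :
    MvPolynomial.map (Int.castRingHom K) g ∈ I K := by
  have h1 : cx ℤ g = 0 := hg
  change cx K _ = 0
  rw [cx_map, h1, map_zero]

end DIM_

open DIM_ in
theorem dim_proof (_hUNI : Stmt_Uni) (hSPX : Stmt_Spx) : Stmt_Dim := by
  intro K _
  have hprime : (I K).IsPrime := RingHom.ker_isPrime _
  apply le_antisymm
  · refine (hSPX K (I K) hprime ?_).1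
    intro g hg
    exact cx_map_zero K g hg
  · have hfin : Algebra.FiniteType K (φ K).range :=
      Algebra.FiniteType.of_surjective (φ K).rangeRestrict (φ K).rangeRestrict_surjective
    have htr : Algebra.trdeg K (φ K).range = (4 : ℕ) := by
      have h2 := lift_trdeg_add_eq K (φ K).range (P4 K)
      have h3 : Algebra.trdeg (φ K).range (P4 K) = 0 := by
        rw [trdeg_eq_zero_iff]
        infer_instance
      rw [h3, MvPolynomial.trdeg_of_isDomain] at h2
      simp at h2
      rw [h2]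
      norm_cast
    have hdim := LibDb3ab1.ringKrullDim_eq_trdeg K (φ K).range htr
    have hker : ∀ a ∈ I K, (φ K).rangeRestrict.toRingHom a = 0 := by
      intro a ha
      have h1 : cx K a = 0 := ha
      apply Subtype.ext
      change V K (cx K a) = 0
      rw [h1, map_zero]
    have h5 := ringKrullDim_le_of_surjective
      (Ideal.Quotient.lift (I K) (φ K).rangeRestrict.toRingHom hker)
      (Ideal.Quotient.lift_surjective_of_surjective (I K) hker (φ K).rangeRestrict_surjective)
    rw [hdim] at h5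
    exact_mod_cast h5

end Pool.Agent.XV
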