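import Pool.Agent.XV.Stmts

/-!
# GEN: existence of the equations
-/

set_option autoImplicit false

noncomputable section

namespace Pool.Agent.XV

open scoped Classical
open MvPolynomial Pool.Agent.FRM Pool.Agent.DIS

namespace GEN_

/-- The weight: one on `T` and zero elsewhere. -/
def wt : Vr → ℕ
  | Vr.T => 1
  | _ => 0

theorem wh_br2 (i j : Fin 5) : IsWeightedHomogeneous wt (br2 ℤ i j) 0 := by
  have h : ∀ i j : Fin 5, IsWeightedHomogeneous wt
      (X (Vr.a i) * X (Vr.b j) : MvPolynomial Vr ℤ) 0 := fun i j => by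
    have := (isWeightedHomogeneous_X ℤ wt (Vr.a i)).mul (isWeightedHomogeneous_X ℤ wt (Vr.b j))
    exact this
  unfold br2
  have h1 := (weightedHomogeneousSubmodule ℤ wt 0).sub_mem
    ((mem_weightedHomogeneousSubmodule ℤ wt 0 _).2 (h i j))
    ((mem_weightedHomogeneousSubmodule ℤ wt 0 _).2 (h j i))
  exact (mem_weightedHomogeneousSubmodule ℤ wt 0 _).1 h1

theorem wh_cm (c : Pt) : IsWeightedHomogeneous wt (cm ℤ c) 1 := by
  unfold cm mon
  have h1 := (isWeightedHomogeneous_X ℤ wt Vr.T).pow 1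
  have h2 := (isWeightedHomogeneous_X ℤ wt Vr.u).pow c.w
  have h3 := IsWeightedHomogeneous.prod (w := wt) Finset.univ (fun k => br ℤ k ^ c.e k)
    (fun k => c.e k • 0) fun k _ => (wh_br2 (eS k) (eT k)).pow (c.e k)
  have h4 := (h1.mul h2).mul h3
  have h5 : 1 • wt Vr.T + c.w • wt Vr.u + ∑ i : Fin 10, c.e i • 0 = 1 := by
    simp [wt]
  rw [h5] at h4
  exact h4

theorem wh_cx (m : ℕ) (F : MvPolynomial (Fin (N + 1)) ℤ) (hF : F.IsHomogeneous m) :
    IsWeightedHomogeneous wt (cx ℤ F) m := by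
  unfold cx
  rw [aeval_def, eval₂_eq']
  refine IsWeightedHomogeneous.sum _ _ _ fun d hd => ?_
  have h1 := isWeightedHomogeneous_C (R := ℤ) wt (coeff d F)
  have h2 := IsWeightedHomogeneous.prod (w := wt) Finset.univ (fun i => cm ℤ (pt i) ^ d i)
    (fun i => d i • 1) fun i _ => (wh_cm (pt i)).pow (d i)
  have h3 := h1.mul h2
  have h4 := hF (mem_support_iff.1 hd)
  have h5 : (0 : ℕ) + ∑ i, d i • 1 = m := by
    rw [← h4, Finsupp.weight_apply, Finsupp.sum_fintype _ _ (fun i => by simp)]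
    simp
  rw [h5] at h3
  exact h3

theorem cx_hc (m : ℕ) (F : MvPolynomial (Fin (N + 1)) ℤ) :
    cx ℤ (homogeneousComponent m F) = weightedHomogeneousComponent wt m (cx ℤ F) := by
  conv_rhs => rw [← sum_homogeneousComponent F, map_sum, map_sum]
  have h : ∀ i, weightedHomogeneousComponent wt m (cx ℤ (homogeneousComponent i F)) =
      if m = i then cx ℤ (homogeneousComponent i F) else 0 := fun i =>
    weightedHomogeneousComponent_of_mem ((mem_weightedHomogeneousSubmodule ℤ wt i _).2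
      (wh_cx i _ (homogeneousComponent_isHomogeneous i F)))
  simp_rw [h]
  rw [Finset.sum_ite_eq]
  split_ifs with hm
  · rfl
  · rw [homogeneousComponent_eq_zero _ _ (by simpa using hm), map_zero]

theorem hc_mem (m : ℕ) (F : MvPolynomial (Fin (N + 1)) ℤ) (hF : F ∈ I ℤ) :
    homogeneousComponent m F ∈ I ℤ := by
  have h : cx ℤ F = 0 := hF
  show cx ℤ (homogeneousComponent m F) = 0
  rw [cx_hc, h, map_zero]

theorem eq_zero (F : MvPolynomial (Fin (N + 1)) ℤ) (hF : F ∈ I ℤ) (h0 : F.IsHomogeneous 0) :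
    F = 0 := by
  have h1 : F = C (coeff 0 F) := by
    refine totalDegree_eq_zero_iff_eq_C.1 ?_
    exact Nat.le_zero.1 h0.totalDegree_le
  have h2 : cx ℤ F = 0 := hF
  rw [h1] at h2 ⊢
  unfold cx at h2
  rw [aeval_C] at h2
  have h3 : (C (coeff 0 F) : Cox ℤ) = C 0 := by
    rw [C_0]
    exact h2
  rw [C_injective _ _ h3, C_0]

theorem exists_deg (g : MvPolynomial (Fin (N + 1)) ℤ) (hg : g ∈ I ℤ) (m : ℕ)
    (h : g.IsHomogeneous m) : ∃ e, 0 < e ∧ g.IsHomogeneous e := by
  rcases Nat.eq_zero_or_pos m with h0 | h0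
  · subst h0
    refine ⟨1, one_pos, ?_⟩
    rw [eq_zero g hg h]
    exact isHomogeneous_zero _ _ _
  · exact ⟨m, h0, h⟩

theorem prod_cm (α : Multiset Pt) : (α.map (cm ℤ)).prod =
    mon ℤ (Multiset.card α) (α.map Pt.w).sum (fun k => (α.map fun c => c.e k).sum) := by
  induction α using Multiset.induction_on with
  | empty => simp [mon]
  | cons c α ih =>
    rw [Multiset.map_cons, Multiset.prod_cons, ih, Multiset.card_cons, Multiset.map_cons,
      Multiset.sum_cons]
    simp only [Multiset.map_cons, Multiset.sum_cons]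
    unfold cm mon
    simp only [pow_add, Finset.prod_mul_distrib]
    ring

theorem cx_prod (α : Multiset Pt) : cx ℤ (α.map (xc ℤ)).prod = (α.map (cm ℤ)).prod := by
  rw [map_multiset_prod, Multiset.map_map]
  congr 1
  refine Multiset.map_congr rfl fun c _ => ?_
  exact cx_xc ℤ c

theorem hom_prod (α : Multiset Pt) :
    ((α.map (xc ℤ)).prod : MvPolynomial (Fin (N + 1)) ℤ).IsHomogeneous (Multiset.card α) := by
  induction α using Multiset.induction_on with
  | empty => simpa using isHomogeneous_one _ _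
  | cons c α ih =>
    rw [Multiset.map_cons, Multiset.prod_cons, Multiset.card_cons,
      add_comm (Multiset.card α) 1]
    exact (isHomogeneous_X ℤ _).mul ih

theorem sol_mk : IsSol fun c : Pt => Ideal.Quotient.mk (I ℤ) (xc ℤ c) := by
  intro g hg
  have h1 : eval₂ (Int.castRingHom (MvPolynomial (Fin (N + 1)) ℤ ⧸ I ℤ))
      (fun i => Ideal.Quotient.mk (I ℤ) (xc ℤ (pt i))) g = Ideal.Quotient.mk (I ℤ) g := by
    have h2 : (eval₂Hom (Int.castRingHom (MvPolynomial (Fin (N + 1)) ℤ ⧸ I ℤ))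
      (fun i => Ideal.Quotient.mk (I ℤ) (xc ℤ (pt i)))) = Ideal.Quotient.mk (I ℤ) := by
      refine MvPolynomial.ringHom_ext (fun r => ?_) fun i => ?_
      · simp
      · rw [eval₂Hom_X']
        simp [xc]
    exact congrArg (fun f => f g) h2
  rw [h1]
  exact Ideal.Quotient.eq_zero_iff_mem.2 hg

theorem exists_ghost (p : ℕ) [Fact p.Prime] (g : MvPolynomial (Fin (N + 1)) ℤ) :
    ∃ g₁, C (p : ℤ) * g₁ = expand p g - g ^ p := by
  have h : C (p : ℤ) ∣ expand p g - g ^ p := by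
    rw [C_dvd_iff_zmod, map_sub, map_expand, expand_zmod, map_pow, sub_self]
  obtain ⟨g₁, h1⟩ := h
  exact ⟨g₁, h1.symm⟩

/-- The components of the generators. -/
def S1 (s : Finset (MvPolynomial (Fin (N + 1)) ℤ)) : Set (MvPolynomial (Fin (N + 1)) ℤ) :=
  ⋃ F ∈ s, (fun m => homogeneousComponent m F) '' (Finset.range (F.totalDegree + 1) : Set ℕ)

theorem S1_finite (s : Finset (MvPolynomial (Fin (N + 1)) ℤ)) : (S1 s).Finite :=
  s.finite_toSet.biUnion fun _ _ => (Finset.finite_toSet _).image _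

/-- The binomials. -/
def S2 : Set (MvPolynomial (Fin (N + 1)) ℤ) :=
  {g | g ∈ I ℤ ∧ ∃ α β : Multiset Pt, Multiset.card α ≤ 4 ∧ Multiset.card α = Multiset.card β ∧
    g = (α.map (xc ℤ)).prod - (β.map (xc ℤ)).prod}

theorem S2_finite : S2.Finite := by
  have h : S2 ⊆ ⋃ n ∈ (Finset.range 5 : Set ℕ), Set.range fun ab : Sym Pt n × Sym Pt n =>
      ((ab.1 : Multiset Pt).map (xc ℤ)).prod - ((ab.2 : Multiset Pt).map (xc ℤ)).prod := by
    rintro g ⟨-, α, β, h1, h2, rfl⟩
    refine Set.mem_biUnion (x := Multiset.card α) (by simpa using Nat.lt_succ_of_le h1) ?_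
    exact ⟨(⟨α, rfl⟩, ⟨β, h2.symm⟩), rfl⟩
  exact ((Finset.finite_toSet _).biUnion fun n _ => Set.finite_range _).subset h

/-- The trinomials. -/
def S3 : Set (MvPolynomial (Fin (N + 1)) ℤ) :=
  {g | g ∈ I ℤ ∧ ∃ c c' c'' : Pt, g = xc ℤ c + xc ℤ c'' - xc ℤ c'}

theorem S3_finite : S3.Finite := by
  have h : S3 ⊆ Set.range fun c : Pt × Pt × Pt => xc ℤ c.1 + xc ℤ c.2.2 - xc ℤ c.2.1 := by
    rintro g ⟨-, c, c', c'', rfl⟩
    exact ⟨(c, c', c''), rfl⟩
  exact (Set.finite_range _).subset h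

end GEN_

open GEN_

theorem gen_proof (hTRI : Stmt_Tri) : Stmt_Gen := by
  intro p _
  obtain ⟨s, hs⟩ := (isNoetherianRing_iff_ideal_fg _).1
    (inferInstance : IsNoetherianRing (MvPolynomial (Fin (N + 1)) ℤ)) (I ℤ)
  set S : Set (MvPolynomial (Fin (N + 1)) ℤ) := S1 s ∪ S2 ∪ S3 with hS
  have hfin : S.Finite := ((S1_finite s).union S2_finite).union S3_finite
  have hmem : ∀ g ∈ S, g ∈ I ℤ := by
    rintro g ((hg | hg) | hg)
    · unfold S1 at hg
      simp only [Set.mem_iUnion, Set.mem_image] at hg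
      obtain ⟨F, hF, m, -, rfl⟩ := hg
      exact hc_mem m F (hs ▸ Ideal.subset_span hF)
    · exact hg.1
    · exact hg.1
  have hdeg : ∀ g : S, ∃ e, 0 < e ∧ (g : MvPolynomial (Fin (N + 1)) ℤ).IsHomogeneous e := by
    rintro ⟨g, hg⟩
    have hgI := hmem g hg
    rcases hg with (hg | hg) | hg
    · unfold S1 at hg
      simp only [Set.mem_iUnion, Set.mem_image] at hg
      obtain ⟨F, hF, m, -, rfl⟩ := hg
      exact exists_deg _ hgI m (homogeneousComponent_isHomogeneous m F)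
    · obtain ⟨-, α, β, -, h2, rfl⟩ := hg
      refine exists_deg _ hgI (Multiset.card α) ?_
      refine (hom_prod α).sub ?_
      rw [h2]
      exact hom_prod β
    · obtain ⟨-, c, c', c'', rfl⟩ := hg
      exact ⟨1, one_pos, ((isHomogeneous_X ℤ _).add (isHomogeneous_X ℤ _)).sub
        (isHomogeneous_X ℤ _)⟩
  choose e he1 he2 using hdeg
  choose g₁ hg₁ using fun g : S => exists_ghost p (g : MvPolynomial (Fin (N + 1)) ℤ)
  refine ⟨S, hfin.to_subtype, ⟨Subtype.val, g₁, e, he1, he2, hg₁⟩, ?_, ?_, ?_⟩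
  · show Ideal.span (Set.range (Subtype.val : S → _)) = I ℤ
    rw [Subtype.range_coe]
    refine le_antisymm (Ideal.span_le.2 hmem) ?_
    rw [← hs]
    refine Ideal.span_le.2 fun F hF => ?_
    have h1 : ∑ i ∈ Finset.range (F.totalDegree + 1), homogeneousComponent i F ∈
        Ideal.span S := by
      refine Ideal.sum_mem _ fun m hm => Ideal.subset_span (Or.inl (Or.inl ?_))
      unfold S1
      simp only [Set.mem_iUnion, Set.mem_image]
      exact ⟨F, hF, m, by simpa using hm, rfl⟩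
    rw [sum_homogeneousComponent] at h1
    exact h1
  · intro α β _ h4 hc hw hk
    have hI : (α.map (xc ℤ)).prod - (β.map (xc ℤ)).prod ∈ I ℤ := by
      show cx ℤ ((α.map (xc ℤ)).prod - (β.map (xc ℤ)).prod) = 0
      rw [map_sub, cx_prod, cx_prod, prod_cm, prod_cm, hc, hw]
      have : (fun k => (α.map fun c => c.e k).sum) = fun k => (β.map fun c => c.e k).sum :=
        funext hk
      rw [this, sub_self]
    exact ⟨⟨_, Or.inl (Or.inr ⟨hI, α, β, h4, hc, rfl⟩)⟩, rfl⟩
  · intro i j k l hij hjk hkl e0 c c' c'' h1 h2 h3 h4 h5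
    have hI : xc ℤ c + xc ℤ c'' - xc ℤ c' ∈ I ℤ := by
      have h6 := hTRI _ _ sol_mk i j k l hij hjk hkl e0 c c' c'' h1 h2 h3 h4 h5
      rw [← Ideal.Quotient.eq_zero_iff_mem, map_sub, map_add, ← h6, sub_self]
    exact ⟨⟨_, Or.inr ⟨hI, c, c', c'', rfl⟩⟩, rfl⟩

end Pool.Agent.XV
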