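import Pool.Agent.XV.Stmts

set_option autoImplicit false

noncomputable section

namespace Pool.Agent.XV

open scoped Classical
open MvPolynomial Pool.Agent.FRM Pool.Agent.DIS

theorem jac_proof : Stmt_Jac := by
  intro K _ n d S hS
  obtain ⟨b, hbS, hspan, hli⟩ := exists_linearIndependent K S
  have : Finite b := hli.finite
  have : Fintype b := Fintype.ofFinite b
  let L : (Fin (n + 1) → K) →ₗ[K] (b → K) :=
    { toFun := fun δ f => ∑ l, (f : Fin (n + 1) → K) l * δ l
      map_add' := fun x y => by
        funext f
        simp only [Pi.add_apply, mul_add, Finset.sum_add_distrib]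
      map_smul' := fun c x => by
        funext f
        simp only [Pi.smul_apply, smul_eq_mul, RingHom.id_apply, Finset.mul_sum]
        exact Finset.sum_congr rfl fun l _ => by ring }
  have h1 : ∀ δ ∈ LinearMap.ker L, ∀ f ∈ S, ∑ l, f l * δ l = 0 := by
    intro δ hδ f hf
    have hδ' : ∀ g : b, ∑ l, (g : Fin (n + 1) → K) l * δ l = 0 := fun g =>
      congrFun (LinearMap.mem_ker.1 hδ) g
    have hf' : f ∈ Submodule.span K b := by
      rw [hspan]
      exact Submodule.subset_span hf
    clear hf
    induction hf' using Submodule.span_induction with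
    | mem x hx => exact hδ' ⟨x, hx⟩
    | zero => simp
    | add x y _ _ hx hy =>
      simp only [Pi.add_apply, add_mul, Finset.sum_add_distrib]
      rw [hx, hy, add_zero]
    | smul c x _ hx =>
      simp only [Pi.smul_apply, smul_eq_mul, mul_assoc]
      rw [← Finset.mul_sum, hx, mul_zero]
  have h2 := hS (LinearMap.ker L) h1
  have h3 := LinearMap.finrank_range_add_finrank_ker L
  have h4 : Module.finrank K (LinearMap.range L) ≤ Fintype.card b := by
    have := Submodule.finrank_le (LinearMap.range L)
    rwa [Module.finrank_fintype_fun_eq_card] at this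
  rw [Module.finrank_fintype_fun_eq_card, Fintype.card_fin] at h3
  have h5 : n - d ≤ Fintype.card b := by omega
  have h6 : Nonempty (Fin (n - d) ↪ b) := by
    rw [← Fintype.card_fin (n - d)] at h5
    exact Function.Embedding.nonempty_of_card_le h5
  obtain ⟨φ⟩ := h6
  exact ⟨fun i => (φ i : Fin (n + 1) → K), fun i => hbS (φ i).2, hli.comp φ φ.injective⟩

end Pool.Agent.XV
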