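import Pool.Agent.XV.Stmts

/-!
# The threefold `X`: module SMV (the variety is smooth of dimension three)
-/

set_option autoImplicit false

noncomputable section

namespace Pool.Agent.XV

open scoped Classical
open MvPolynomial Pool.Agent.FRM Pool.Agent.DIS

theorem smv_proof (hPRI : Stmt_Pri) (hDIM : Stmt_Dim) (hTAN : Stmt_Tan) (hJAC : Stmt_Jac) :
    Stmt_Smv := by
  intro K _
  refine ⟨(hPRI K).1, (hPRI K).2, ?_, fun x hx hxI => ?_⟩
  · rw [hDIM K]; norm_num
  · obtain ⟨G, hG, hli⟩ := hJAC K N 3
      {f | ∃ F ∈ I K, f = fun l => eval x (pderiv l F)} (by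
        intro T hT
        refine hTAN K x hx hxI T fun δ hδ F hF => ?_
        exact hT δ hδ _ ⟨F, hF, rfl⟩)
    choose F hF hFG using hG
    refine ⟨F, hF, ?_⟩
    have h : G = fun i (l : Fin (N + 1)) => eval x (pderiv l (F i)) := funext hFG
    rw [← h]
    exact hli

end Pool.Agent.XV
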