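import Pool.Agent.XV.Stmts
import Pool.Agent.LibDb3ab1.Dim
import Pool.Agent.XV.DIM

/-!
# XV, module SPX: the ideals of dimension four over the integral equations
-/

set_option autoImplicit false

noncomputable section

namespace Pool.Agent.XV

open scoped Classical
open MvPolynomial

namespace SPX_

/-! ## Solutions -/

section Sol

variable {K : Type} [Field K]

theorem isSol_of {B : Type} [CommRing B] [Algebra K B] (t : Pt → B)
    (h : ∀ g ∈ I ℤ, aeval (fun i => t (pt i)) (MvPolynomial.map (Int.castRingHom K) g) = 0) :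
    IsSol t := by
  intro g hg
  have h1 := h g hg
  rw [aeval_def, eval₂_map] at h1
  have h2 : (algebraMap K B).comp (Int.castRingHom K) = Int.castRingHom B := RingHom.ext_int _ _
  rw [h2] at h1
  exact h1

/-- relations over the integers give relations over `K` -/
theorem map_mem {g : MvPolynomial (Fin (N + 1)) ℤ} (hg : g ∈ I ℤ) :
    MvPolynomial.map (Int.castRingHom K) g ∈ I K := by
  have h0 : cx ℤ g = 0 := hg
  have h1 : ∀ f : MvPolynomial (Fin (N + 1)) ℤ, cx K (MvPolynomial.map (Int.castRingHom K) f) =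
      MvPolynomial.map (Int.castRingHom K) (cx ℤ f) := by
    intro f
    have h2 : ((cx K : MvPolynomial (Fin (N + 1)) K →+* Cox K).comp
        (MvPolynomial.map (Int.castRingHom K))) =
        (MvPolynomial.map (Int.castRingHom K)).comp
          (cx ℤ : MvPolynomial (Fin (N + 1)) ℤ →+* Cox ℤ) := by
      apply MvPolynomial.ringHom_ext
      · intro r
        simp
      · intro i
        simp [cx, cm, mon, br, br2]
    exact RingHom.congr_fun h2 f
  show cx K _ = 0
  rw [h1, h0, map_zero]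

theorem act_inv (π : Equiv.Perm (Fin 5)) (c : Pt) : act π (act π⁻¹ c) = c := by
  ext k
  · rfl
  · show c.e (pe (π⁻¹)⁻¹ (pe π⁻¹ k)) = c.e k
    rw [← pe_mul, inv_mul_cancel, pe_one]

theorem sg_sq (π : Equiv.Perm (Fin 5)) (k : Fin 10) : sg π k * sg π k = 1 := by
  unfold sg
  split_ifs <;> norm_num

theorem sgn_sq (π : Equiv.Perm (Fin 5)) (c : Pt) : sgn π c * sgn π c = 1 := by
  unfold sgn
  rw [← Finset.prod_mul_distrib]
  refine Finset.prod_eq_one fun k _ => ?_
  rw [← mul_pow, sg_sq, one_pow]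

/-- the inverse of the twist -/
def un {B : Type} [CommRing B] (π : Equiv.Perm (Fin 5)) (t : Pt → B) (c : Pt) : B :=
  (sgn π (act π⁻¹ c) : B) * t (act π⁻¹ c)

theorem un_tws {B : Type} [CommRing B] (π : Equiv.Perm (Fin 5)) (s : Pt → B) (c : Pt) :
    un π (tws π s) c = s c := by
  unfold un tws
  rw [act_inv, ← mul_assoc, ← Int.cast_mul, sgn_sq, Int.cast_one, one_mul]

theorem map_un {R B : Type} [CommRing R] [CommRing B] (φ : R →+* B) (π : Equiv.Perm (Fin 5))
    (t : Pt → R) (c : Pt) : φ (un π t c) = un π (fun c => φ (t c)) c := by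
  unfold un
  rw [map_mul, map_intCast]

theorem sgn_ne {L : Type} [Field L] (π : Equiv.Perm (Fin 5)) (c : Pt) : (sgn π c : L) ≠ 0 := by
  intro h
  have h1 := congrArg (fun n : ℤ => (n : L)) (sgn_sq π c)
  simp only [Int.cast_mul, h, mul_zero, Int.cast_one] at h1
  exact zero_ne_one h1

/-- the formula in a chart -/
def fm {B : Type} [CommRing B] (σ : Fin 6) (Z : Bˣ) (X : Fin 3 → B) (U : Fin 3 → Bˣ) (c : Pt) :
    B := Z * (∏ l, X l ^ elc σ l c) * ((∏ j, U j ^ nu σ j c : Bˣ) : B)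

theorem chart (hCHV : Stmt_Chv) (hCHR : Stmt_Chr) {L : Type} [Field L] (s : Pt → L)
    (hs : IsSol s) (σ : Fin 6) (h0 : s (tp σ 0) ≠ 0) (hU : ∀ j, s (tp σ (tU j)) ≠ 0) :
    ∃ (Z : Lˣ) (X : Fin 3 → L) (U : Fin 3 → Lˣ), (U 0 : L) = 1 + hx σ X ∧
      (U 1 : L) = 1 + hy σ X ∧ (U 2 : L) = 1 - hx σ X * hy σ X ∧ ∀ c, s c = fm σ Z X U c := by
  let Z : Lˣ := Units.mk0 _ h0
  have hz : ∀ y : L, y = Z * (((Z⁻¹ : Lˣ) : L) * y) := fun y => by
    rw [← mul_assoc, Units.mul_inv, one_mul]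
  let X : Fin 3 → L := fun l => ((Z⁻¹ : Lˣ) : L) * s (tp σ (tX l))
  let U : Fin 3 → Lˣ := fun j => Z⁻¹ * Units.mk0 _ (hU j)
  have hUv : ∀ j, s (tp σ (tU j)) = Z * U j := by
    intro j
    show s (tp σ (tU j)) = Z * (((Z⁻¹ : Lˣ) : L) * s (tp σ (tU j)))
    exact hz _
  obtain ⟨a1, a2, a3⟩ := hCHR L s hs σ Z X rfl (fun l => hz _)
  have hc : ∀ y : L, ∀ j, Z * (U j : L) = Z * y → (U j : L) = y := fun y j h =>
    mul_left_cancel₀ Z.ne_zero h
  refine ⟨Z, X, U, hc _ 0 ?_, hc _ 1 ?_, hc _ 2 ?_, fun c => ?_⟩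
  · rw [← hUv, ← a1]; rfl
  · rw [← hUv, ← a2]; rfl
  · rw [← hUv, ← a3]; rfl
  · exact hCHV L s hs σ Z U rfl hUv c

end Sol

/-! ## The universal ring -/

section Univ

variable (K : Type) [Field K]

/-- four variables -/
abbrev P4 : Type := MvPolynomial (Fin 4) K

/-- the chart coordinates -/
def Xv (l : Fin 3) : P4 K := X (Fin.castSucc l)

/-- the element to be inverted -/
def ff (σ : Fin 6) : P4 K :=
  X 3 * ((1 + hx σ (Xv K)) * ((1 + hy σ (Xv K)) * (1 - hx σ (Xv K) * hy σ (Xv K))))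

theorem map_hx {R B : Type} [CommRing R] [CommRing B] (φ : R →+* B) (σ : Fin 6) (X : Fin 3 → R) :
    φ (hx σ X) = hx σ fun l => φ (X l) := by
  simp [hx]

theorem map_hy {R B : Type} [CommRing R] [CommRing B] (φ : R →+* B) (σ : Fin 6) (X : Fin 3 → R) :
    φ (hy σ X) = hy σ fun l => φ (X l) := by
  simp [hy]

theorem map_ff {B : Type} [CommRing B] (φ : P4 K →+* B) (σ : Fin 6) :
    φ (ff K σ) = φ (X 3) * ((1 + hx σ fun l => φ (Xv K l)) * ((1 + hy σ fun l => φ (Xv K l)) *
      (1 - (hx σ fun l => φ (Xv K l)) * hy σ fun l => φ (Xv K l)))) := by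
  rw [ff, map_mul, map_mul, map_mul, map_add, map_add, map_sub, map_mul, map_one, map_hx, map_hy]

/-- the universal ring -/
abbrev Rf (σ : Fin 6) : Type := Localization.Away (ff K σ)

theorem unitf (σ : Fin 6) : ∃ (Z : (Rf K σ)ˣ) (U : Fin 3 → (Rf K σ)ˣ),
    (Z : Rf K σ) = algebraMap (P4 K) (Rf K σ) (X 3) ∧
    (U 0 : Rf K σ) = 1 + hx σ (fun l => algebraMap (P4 K) (Rf K σ) (Xv K l)) ∧
    (U 1 : Rf K σ) = 1 + hy σ (fun l => algebraMap (P4 K) (Rf K σ) (Xv K l)) ∧
    (U 2 : Rf K σ) = 1 - hx σ (fun l => algebraMap (P4 K) (Rf K σ) (Xv K l)) *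
      hy σ (fun l => algebraMap (P4 K) (Rf K σ) (Xv K l)) := by
  have hunit : IsUnit (algebraMap (P4 K) (Rf K σ) (ff K σ)) :=
    IsLocalization.Away.algebraMap_isUnit (ff K σ)
  rw [map_ff] at hunit
  obtain ⟨hu3, hu⟩ := IsUnit.mul_iff.1 hunit
  obtain ⟨hu0, hu⟩ := IsUnit.mul_iff.1 hu
  obtain ⟨hu1, hu2⟩ := IsUnit.mul_iff.1 hu
  exact ⟨hu3.unit, ![hu0.unit, hu1.unit, hu2.unit], rfl, rfl, rfl, rfl⟩

/-- the universal family -/
def uR (σ : Fin 6) (c : Pt) : Rf K σ :=
  fm σ (unitf K σ).choose (fun l => algebraMap (P4 K) (Rf K σ) (Xv K l))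
    (unitf K σ).choose_spec.choose c

theorem map_fm {R B : Type} [CommRing R] [CommRing B] (φ : R →+* B) (σ : Fin 6) (Z : Rˣ)
    (X : Fin 3 → R) (U : Fin 3 → Rˣ) (c : Pt) :
    φ (fm σ Z X U c) = fm σ (Units.map (φ : R →* B) Z) (fun l => φ (X l))
      (fun j => Units.map (φ : R →* B) (U j)) c := by
  unfold fm
  have h6 : (∏ j, Units.map (φ : R →* B) (U j) ^ nu σ j c) =
      Units.map (φ : R →* B) (∏ j, U j ^ nu σ j c) := by
    rw [map_prod]
    simp only [map_zpow]
  rw [h6, map_mul, map_mul, map_prod]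
  simp only [map_pow]
  rfl

/-- specialisation -/
theorem spec {L : Type} [CommRing L] [Algebra K L] (σ : Fin 6) (Z : Lˣ) (X' : Fin 3 → L)
    (U : Fin 3 → Lˣ) (h0 : (U 0 : L) = 1 + hx σ X') (h1 : (U 1 : L) = 1 + hy σ X')
    (h2 : (U 2 : L) = 1 - hx σ X' * hy σ X') :
    ∃ Φ : Rf K σ →ₐ[K] L, (∀ c, Φ (uR K σ c) = fm σ Z X' U c) ∧
      ∀ p : P4 K, Φ (algebraMap (P4 K) (Rf K σ) p) = aeval ![X' 0, X' 1, X' 2, (Z : L)] p := by
  let ψ : P4 K →ₐ[K] L := aeval ![X' 0, X' 1, X' 2, (Z : L)]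
  have hψX : ∀ l, ψ (Xv K l) = X' l := by
    intro l
    fin_cases l <;> simp [ψ, Xv]
  have hψX' : (fun l => (ψ : P4 K →+* L) (Xv K l)) = X' := funext hψX
  have hψZ : ψ (X 3) = Z := by
    simp [ψ]
  have hψf : IsUnit ((ψ : P4 K →+* L) (ff K σ)) := by
    rw [map_ff, hψX', ← h0, ← h1, ← h2]
    show IsUnit (ψ (X 3) * _)
    rw [hψZ]
    exact Z.isUnit.mul ((U 0).isUnit.mul ((U 1).isUnit.mul (U 2).isUnit))
  let φ : Rf K σ →+* L := IsLocalization.Away.lift (ff K σ) hψf
  have hφ : ∀ a, φ (algebraMap (P4 K) (Rf K σ) a) = ψ a := fun a =>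
    IsLocalization.Away.lift_eq (ff K σ) hψf a
  let Φ : Rf K σ →ₐ[K] L :=
    { φ with
      commutes' := fun k => by
        show φ (algebraMap K (Rf K σ) k) = _
        rw [IsScalarTower.algebraMap_apply K (P4 K) (Rf K σ), hφ, AlgHom.commutes] }
  refine ⟨Φ, fun c => ?_, fun p => hφ p⟩
  have hφX : (fun l => φ (algebraMap (P4 K) (Rf K σ) (Xv K l))) = X' := by
    funext l
    rw [hφ]
    exact hψX l
  obtain ⟨e0, e1, e2, e3⟩ := (unitf K σ).choose_spec.choose_spec
  show φ (uR K σ c) = _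
  unfold uR
  rw [map_fm, hφX]
  have hZ : Units.map (φ : Rf K σ →* L) (unitf K σ).choose = Z := by
    ext
    show φ ((unitf K σ).choose : Rf K σ) = Z
    rw [e0, hφ, hψZ]
  have hU : (fun j => Units.map (φ : Rf K σ →* L) ((unitf K σ).choose_spec.choose j)) = U := by
    funext j
    ext
    show φ ((unitf K σ).choose_spec.choose j : Rf K σ) = U j
    fin_cases j
    · show φ ((unitf K σ).choose_spec.choose 0 : Rf K σ) = U 0
      rw [e1, map_add, map_one, map_hx, hφX, h0]
    · show φ ((unitf K σ).choose_spec.choose 1 : Rf K σ) = U 1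
      rw [e2, map_add, map_one, map_hy, hφX, h1]
    · show φ ((unitf K σ).choose_spec.choose 2 : Rf K σ) = U 2
      rw [e3, map_sub, map_mul, map_one, map_hx, map_hy, hφX, h2]
  rw [hZ, hU]

/-- injectivity of the specialisation -/
theorem spec_inj {L : Type} [Field L] [Algebra K L] (σ : Fin 6) (Φ : Rf K σ →ₐ[K] L)
    (ψ : P4 K →ₐ[K] L) (h : ∀ p : P4 K, Φ (algebraMap (P4 K) (Rf K σ) p) = ψ p)
    (hψ : Function.Injective ψ) : Function.Injective Φ := by
  rw [injective_iff_map_eq_zero]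
  intro y hy
  obtain ⟨n, a, ha⟩ := IsLocalization.Away.surj (ff K σ) y
  have h1 : ψ a = 0 := by
    rw [← h, ← ha, map_mul, hy, zero_mul]
  have h2 : a = 0 := hψ (by rw [h1, map_zero])
  rw [h2, map_zero] at ha
  exact (IsUnit.mul_left_eq_zero
    ((IsLocalization.Away.algebraMap_isUnit (ff K σ)).pow n)).1 ha

end Univ

/-! ## Relations of the generic point -/

section Key

variable {K : Type} [Field K]

theorem br_ne (k : Fin 10) : br K k ≠ 0 := by
  intro h
  have h1 := congrArg (MvPolynomial.eval (fun v : Vr => match v with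
    | .a i => if i = eS k then (1 : K) else 0
    | .b i => if i = eT k then (1 : K) else 0
    | .u => 0
    | .T => 0)) h
  have h2 := eS_ne_eT k
  simp [br, br2, h2, h2.symm] at h1

theorem cm_ne (c : Pt) : cm K c ≠ 0 := by
  unfold cm mon
  refine mul_ne_zero (mul_ne_zero (pow_ne_zero _ (X_ne_zero _)) (pow_ne_zero _ (X_ne_zero _))) ?_
  exact Finset.prod_ne_zero_iff.2 fun k _ => pow_ne_zero _ (br_ne k)

theorem key (hSYM : Stmt_Sym) (hCHV : Stmt_Chv) (hCHR : Stmt_Chr) {L : Type} [Field L]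
    [Algebra K L] (s : Pt → L) (π : Equiv.Perm (Fin 5)) (σ : Fin 6) (Z : Lˣ) (X' : Fin 3 → L)
    (U : Fin 3 → Lˣ) (h0 : (U 0 : L) = 1 + hx σ X') (h1 : (U 1 : L) = 1 + hy σ X')
    (h2 : (U 2 : L) = 1 - hx σ X' * hy σ X') (hs : ∀ c, tws π s c = fm σ Z X' U c)
    (hinj : Function.Injective (aeval ![X' 0, X' 1, X' 2, (Z : L)] : P4 K →ₐ[K] L))
    (F : MvPolynomial (Fin (N + 1)) K) (hF : aeval (fun i => s (pt i)) F = 0) : F ∈ I K := by
  obtain ⟨Φ, hΦ1, hΦ2⟩ := spec K σ Z X' U h0 h1 h2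
  have hΦ := spec_inj K σ Φ _ hΦ2 hinj
  have hw : ∀ c, Φ (un π (uR K σ) c) = s c := by
    intro c
    have h3 := map_un (Φ : Rf K σ →+* L) π (uR K σ) c
    have h4 : (fun c => (Φ : Rf K σ →+* L) (uR K σ c)) = tws π s := by
      funext c
      rw [hs c]
      exact hΦ1 c
    rw [h4, un_tws] at h3
    exact h3
  have hw0 : aeval (fun i => un π (uR K σ) (pt i)) F = 0 := by
    apply hΦ
    rw [map_zero, ← hF, MvPolynomial.comp_aeval_apply]
    congr 1
    congr 1
    funext i
    exact (hw (pt i)).symm ▸ rfl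
  let M := FractionRing (Cox K)
  let s₂ : Pt → M := fun c => algebraMap (Cox K) M (cm K c)
  have hinj2 : Function.Injective (algebraMap (Cox K) M) := IsFractionRing.injective _ _
  have hev : ∀ G : MvPolynomial (Fin (N + 1)) K,
      aeval (fun i => s₂ (pt i)) G = algebraMap (Cox K) M (cx K G) := by
    intro G
    show _ = (IsScalarTower.toAlgHom K (Cox K) M) (aeval (fun i => cm K (pt i)) G)
    rw [MvPolynomial.comp_aeval_apply]
    rfl
  have hs₂ : IsSol s₂ := by
    apply isSol_of (K := K)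
    intro g hg
    rw [hev]
    have h3 : cx K (MvPolynomial.map (Int.castRingHom K) g) = 0 := map_mem hg
    rw [h3, map_zero]
  have hne : ∀ c, tws π s₂ c ≠ 0 := by
    intro c
    refine mul_ne_zero (sgn_ne π c) fun h => cm_ne (K := K) (act π c) (hinj2 ?_)
    rw [map_zero]
    exact h
  obtain ⟨Z₂, X₂, U₂, a0, a1, a2, a3⟩ := chart hCHV hCHR (tws π s₂) (hSYM M s₂ π hs₂) σ (hne _)
    (fun j => hne _)
  obtain ⟨Ψ, hΨ1, -⟩ := spec K σ Z₂ X₂ U₂ a0 a1 a2
  have hw2 : ∀ c, Ψ (un π (uR K σ) c) = s₂ c := by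
    intro c
    have h3 := map_un (Ψ : Rf K σ →+* M) π (uR K σ) c
    have h4 : (fun c => (Ψ : Rf K σ →+* M) (uR K σ c)) = tws π s₂ := by
      funext c
      rw [a3 c]
      exact hΨ1 c
    rw [h4, un_tws] at h3
    exact h3
  have h5 : aeval (fun i => s₂ (pt i)) F = 0 := by
    have h6 : (fun i => s₂ (pt i)) = fun i => Ψ (un π (uR K σ) (pt i)) := by
      funext i
      exact (hw2 _).symm
    rw [h6, ← MvPolynomial.comp_aeval_apply, hw0, map_zero]
  rw [hev] at h5
  exact hinj2 (by rw [h5, map_zero])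

end Key

/-! ## Dimensions -/

section Dim

variable {K : Type} [Field K]

theorem dim_eq {A κ : Type} [CommRing A] [IsDomain A] [Algebra K A] [Algebra.FiniteType K A]
    [Field κ] [Algebra K κ] [Algebra A κ] [IsScalarTower K A κ] [IsFractionRing A κ]
    (B : Subalgebra K κ) [Algebra.FiniteType K B] [Algebra.IsAlgebraic B κ] :
    ringKrullDim A = ringKrullDim B := by
  obtain ⟨n, hn⟩ := Cardinal.lt_aleph0.1 (trdeg_lt_aleph0_of_finiteType (R := K) (S := A))
  haveI : FaithfulSMul K A := (faithfulSMul_iff_algebraMap_injective K A).2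
    (algebraMap K A).injective
  haveI : FaithfulSMul A κ := (faithfulSMul_iff_algebraMap_injective A κ).2
    (IsFractionRing.injective A κ)
  haveI : Algebra.IsAlgebraic A κ := IsLocalization.isAlgebraic κ (nonZeroDivisors A)
  have h1 := trdeg_add_eq K A (A := κ)
  have h2 := trdeg_add_eq K B (A := κ)
  rw [(trdeg_eq_zero_iff (R := A) (A := κ)).2 inferInstance, add_zero] at h1
  rw [(trdeg_eq_zero_iff (R := B) (A := κ)).2 inferInstance, add_zero] at h2
  rw [LibDb3ab1.ringKrullDim_eq_trdeg K A hn, LibDb3ab1.ringKrullDim_eq_trdeg K B (s := n)]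
  rw [h2, ← h1, hn]

/-- the formula takes algebraic values -/
theorem fm_alg {κ : Type} [Field κ] [Algebra K κ] (B : Subalgebra K κ) (σ : Fin 6) (Z : κˣ)
    (X' : Fin 3 → κ) (U : Fin 3 → κˣ) (hZ : (Z : κ) ∈ B) (hX : ∀ l, X' l ∈ B)
    (hU : ∀ j, (U j : κ) ∈ B) (c : Pt) : IsAlgebraic B (fm σ Z X' U c) := by
  have hmem : ∀ y : κ, y ∈ B → IsAlgebraic B y := fun y hy =>
    isAlgebraic_algebraMap (⟨y, hy⟩ : B)
  have hprod : ∀ (f : Fin 3 → κ), (∀ l, IsAlgebraic B (f l)) → IsAlgebraic B (∏ l, f l) := by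
    intro f hf
    rw [Fin.prod_univ_three]
    exact ((hf 0).mul (hf 1)).mul (hf 2)
  have hz : ∀ (u : κˣ) (n : ℤ), (u : κ) ∈ B → IsAlgebraic B ((u ^ n : κˣ) : κ) := by
    intro u n hu
    rw [Units.val_zpow_eq_zpow_val]
    cases n with
    | ofNat n =>
      rw [Int.ofNat_eq_natCast, zpow_natCast]
      exact (hmem _ hu).pow n
    | negSucc n =>
      rw [zpow_negSucc]
      exact ((hmem _ hu).pow _).inv
  unfold fm
  rw [Units.coe_prod]
  exact ((hmem _ hZ).mul (hprod _ fun l => (hmem _ (hX l)).pow _)).mul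
    (hprod _ fun j => hz _ _ (hU j))

/-- the dimension of `X` is at least four -/
theorem four_le : 4 ≤ ringKrullDim (MvPolynomial (Fin (N + 1)) K ⧸ I K) := by
  have hfin : Algebra.FiniteType K (DIM_.φ K).range :=
    Algebra.FiniteType.of_surjective (DIM_.φ K).rangeRestrict (DIM_.φ K).rangeRestrict_surjective
  have htr : Algebra.trdeg K (DIM_.φ K).range = (4 : ℕ) := by
    have h2 := lift_trdeg_add_eq K (DIM_.φ K).range (DIM_.P4 K)
    have h3 : Algebra.trdeg (DIM_.φ K).range (DIM_.P4 K) = 0 := by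
      rw [trdeg_eq_zero_iff]
      infer_instance
    rw [h3, MvPolynomial.trdeg_of_isDomain] at h2
    simp at h2
    rw [h2]
    norm_cast
  have hdim := LibDb3ab1.ringKrullDim_eq_trdeg K (DIM_.φ K).range htr
  have hker : ∀ a ∈ I K, (DIM_.φ K).rangeRestrict.toRingHom a = 0 := by
    intro a ha
    have h1 : cx K a = 0 := ha
    apply Subtype.ext
    change DIM_.V K (cx K a) = 0
    rw [h1, map_zero]
  have h5 := ringKrullDim_le_of_surjective
    (Ideal.Quotient.lift (I K) (DIM_.φ K).rangeRestrict.toRingHom hker)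
    (Ideal.Quotient.lift_surjective_of_surjective (I K) hker (DIM_.φ K).rangeRestrict_surjective)
  rw [hdim] at h5
  exact_mod_cast h5

theorem dimP4 : ringKrullDim (P4 K) = 4 := by
  rw [MvPolynomial.ringKrullDim_of_isNoetherianRing, ringKrullDim_eq_zero_of_field, zero_add,
    Nat.card_eq_fintype_card, Fintype.card_fin]
  rfl

theorem not_le {d : WithBot ℕ∞} (h1 : 4 ≤ d) (h2 : d + 1 ≤ 4) : False := by
  have h3 : (4 : WithBot ℕ∞) + 1 ≤ 4 := le_trans (by gcongr) h2
  exact absurd h3 (by decide)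

end Dim

end SPX_

open SPX_ in
theorem spx_proof (hSYM : Stmt_Sym) (hCOV : Stmt_Cov) (hCHV : Stmt_Chv) (hCHR : Stmt_Chr)
    (_hUNI : Stmt_Uni) : Stmt_Spx := by
  intro K _ Q hQ hI
  let A := MvPolynomial (Fin (N + 1)) K ⧸ Q
  haveI : IsDomain A := Ideal.Quotient.isDomain Q
  let κ := FractionRing A
  let mk : MvPolynomial (Fin (N + 1)) K →ₐ[K] A := Ideal.Quotient.mkₐ K Q
  have hinjA : Function.Injective (algebraMap A κ) := IsFractionRing.injective A κ
  let s : Pt → κ := fun c => algebraMap A κ (mk (xc K c))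
  have hev : ∀ G : MvPolynomial (Fin (N + 1)) K,
      aeval (fun i => s (pt i)) G = algebraMap A κ (mk G) := by
    intro G
    have h1 : ((IsScalarTower.toAlgHom K A κ).comp mk) = aeval (fun i => s (pt i)) := by
      apply MvPolynomial.algHom_ext
      intro i
      rw [aeval_X]
      show algebraMap A κ (mk (X i)) = algebraMap A κ (mk (X (pt.symm (pt i))))
      rw [Equiv.symm_apply_apply]
    exact (DFunLike.congr_fun h1 G).symm
  have hker : ∀ G : MvPolynomial (Fin (N + 1)) K, aeval (fun i => s (pt i)) G = 0 → G ∈ Q := by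
    intro G hG
    rw [hev] at hG
    have h1 : mk G = 0 := hinjA (by rw [hG, map_zero])
    exact Ideal.Quotient.eq_zero_iff_mem.1 h1
  have hker' : ∀ G : MvPolynomial (Fin (N + 1)) K, G ∈ Q → aeval (fun i => s (pt i)) G = 0 := by
    intro G hG
    rw [hev]
    have h1 : mk G = 0 := Ideal.Quotient.eq_zero_iff_mem.2 hG
    rw [h1, map_zero]
  have hs : IsSol s := isSol_of (K := K) s fun g hg => hker' _ (hI g hg)
  by_cases hz : ∃ c, s c ≠ 0
  · obtain ⟨π, σ, hn0, hnU⟩ := hCOV κ s hs hz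
    obtain ⟨Z, X', U, a0, a1, a2, a3⟩ := chart hCHV hCHR (tws π s) (hSYM κ s π hs) σ hn0 hnU
    let ψ : P4 K →ₐ[K] κ := aeval ![X' 0, X' 1, X' 2, (Z : κ)]
    let B : Subalgebra K κ := ψ.range
    have hX : ∀ l, X' l ∈ B := by
      intro l
      refine ⟨X (Fin.castSucc l), ?_⟩
      fin_cases l <;> simp [ψ]
    have hZ : (Z : κ) ∈ B := ⟨X 3, by simp [ψ]⟩
    have hhx : hx σ X' ∈ B := B.prod_mem fun l _ => B.pow_mem (hX l) _
    have hhy : hy σ X' ∈ B := B.prod_mem fun l _ => B.pow_mem (hX l) _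
    have hU : ∀ j, (U j : κ) ∈ B := by
      intro j
      fin_cases j
      · show (U 0 : κ) ∈ B
        rw [a0]
        exact B.add_mem B.one_mem hhx
      · show (U 1 : κ) ∈ B
        rw [a1]
        exact B.add_mem B.one_mem hhy
      · show (U 2 : κ) ∈ B
        rw [a2]
        exact B.sub_mem B.one_mem (B.mul_mem hhx hhy)
    have hsalg : ∀ c, IsAlgebraic B (s c) := by
      intro c
      rw [← un_tws π s c]
      unfold un
      rw [a3]
      refine IsAlgebraic.mul ?_ (fm_alg B σ Z X' U hZ hX hU _)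
      have : ((sgn π (act π⁻¹ c) : ℤ) : κ) ∈ B := B.intCast_mem _
      exact isAlgebraic_algebraMap (⟨_, this⟩ : B)
    have hAalg : ∀ a : A, IsAlgebraic B (algebraMap A κ a) := by
      intro a
      obtain ⟨G, rfl⟩ := Ideal.Quotient.mk_surjective a
      have h1 : algebraMap A κ (Ideal.Quotient.mk Q G) = aeval (fun i => s (pt i)) G :=
        (hev G).symm
      rw [h1]
      clear h1
      induction G using MvPolynomial.induction_on with
      | C k =>
        rw [aeval_C]
        exact isAlgebraic_algebraMap (⟨_, B.algebraMap_mem k⟩ : B)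
      | add p q hp hq => rw [map_add]; exact hp.add hq
      | mul_X p i hp =>
        rw [map_mul, aeval_X]
        exact hp.mul (hsalg _)
    haveI hBalg : Algebra.IsAlgebraic B κ := by
      constructor
      intro y
      obtain ⟨a, b, -, rfl⟩ := IsFractionRing.div_surjective (A := A) y
      rw [div_eq_mul_inv]
      exact (hAalg a).mul (hAalg b).inv
    haveI : Algebra.FiniteType K B :=
      Algebra.FiniteType.of_surjective ψ.rangeRestrict ψ.rangeRestrict_surjective
    have hdim : ringKrullDim A = ringKrullDim B := dim_eq (κ := κ) B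
    have hle : ringKrullDim B ≤ 4 := by
      rw [← dimP4 (K := K)]
      exact ringKrullDim_le_of_surjective (ψ.rangeRestrict : P4 K →+* B)
        ψ.rangeRestrict_surjective
    refine ⟨by rw [hdim]; exact hle, fun h4 => ?_⟩
    rw [hdim] at h4
    have hψ : Function.Injective ψ := by
      rw [injective_iff_map_eq_zero]
      intro p hp
      by_contra hp0
      have h5 := ringKrullDim_succ_le_of_surjective (ψ.rangeRestrict : P4 K →+* B)
        ψ.rangeRestrict_surjective (r := p) (mem_nonZeroDivisors_of_ne_zero hp0)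
        (Subtype.ext hp)
      rw [dimP4] at h5
      exact not_le h4 h5
    have hQI : Q ≤ I K := fun F hF =>
      key hSYM hCHV hCHR s π σ Z X' U a0 a1 a2 a3 hψ F (hker' F hF)
    refine le_antisymm hQI fun F hF => ?_
    by_contra hFQ
    have h6 : ringKrullDim (MvPolynomial (Fin (N + 1)) K ⧸ I K) + 1 ≤ ringKrullDim A := by
      refine ringKrullDim_succ_le_of_surjective (Ideal.Quotient.factor hQI)
        (Ideal.Quotient.factor_surjective hQI) (r := Ideal.Quotient.mk Q F) ?_ ?_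
      · refine mem_nonZeroDivisors_of_ne_zero fun h => hFQ ?_
        exact Ideal.Quotient.eq_zero_iff_mem.1 h
      · rw [Ideal.Quotient.factor_mk]
        exact Ideal.Quotient.eq_zero_iff_mem.2 hF
    rw [hdim] at h6
    exact not_le four_le (h6.trans hle)
  · push_neg at hz
    have h1 : ringKrullDim A ≤ 0 := by
      rw [← ringKrullDim_eq_zero_of_field K]
      refine ringKrullDim_le_of_surjective (algebraMap K A) fun a => ?_
      obtain ⟨G, rfl⟩ := Ideal.Quotient.mk_surjective a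
      refine ⟨MvPolynomial.constantCoeff G, hinjA ?_⟩
      have h2 : algebraMap A κ (Ideal.Quotient.mk Q G) = aeval (fun i => s (pt i)) G :=
        (hev G).symm
      rw [h2]
      have h3 : (fun i => s (pt i)) = fun _ => (0 : κ) := by
        funext i
        exact hz _
      rw [h3, ← IsScalarTower.algebraMap_apply]
      have h4 := MvPolynomial.aeval_zero' (σ := Fin (N + 1)) (R := K) (S₁ := κ) G
      exact h4.symm
    refine ⟨h1.trans (by decide), fun h4 => ?_⟩
    exact absurd (h4.trans h1) (by decide)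

end Pool.Agent.XV
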