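import Pool.Agent.XV.Stmts

/-!
# XV, module TRE: trees with five leaves
-/

set_option autoImplicit false

noncomputable section

namespace Pool.Agent.XV

open scoped Classical
open MvPolynomial Pool.Agent.FRM Pool.Agent.DIS

namespace TRE_

lemma rest : ∀ i j : Fin 5, i ≠ j → i ≠ 4 → j ≠ 4 →
    ∃ k l : Fin 5, k ≠ 4 ∧ l ≠ 4 ∧ k ≠ l ∧ i ≠ k ∧ i ≠ l ∧ j ≠ k ∧ j ≠ l := by
  decide

/-- the permutation with given values -/
def mkp (f : Fin 5 → Fin 5) (hf : Function.Injective f) : Equiv.Perm (Fin 5) :=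
  Equiv.ofBijective f (Finite.injective_iff_bijective.mp hf)

lemma mkp_apply (f : Fin 5 → Fin 5) (hf : Function.Injective f) (x : Fin 5) :
    mkp f hf x = f x := rfl

lemma inj5 (a b c d e : Fin 5) (h : a ≠ b ∧ a ≠ c ∧ a ≠ d ∧ a ≠ e ∧ b ≠ c ∧ b ≠ d ∧ b ≠ e ∧
    c ≠ d ∧ c ≠ e ∧ d ≠ e) : Function.Injective (![a, b, c, d, e] : Fin 5 → Fin 5) := by
  obtain ⟨h1, h2, h3, h4, h5, h6, h7, h8, h9, h10⟩ := h
  intro x y hxy
  fin_cases x <;> fin_cases y <;> first
    | rfl
    | (exfalso; simp at hxy; first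
        | exact h1 hxy | exact h2 hxy | exact h3 hxy | exact h4 hxy | exact h5 hxy
        | exact h6 hxy | exact h7 hxy | exact h8 hxy | exact h9 hxy | exact h10 hxy
        | exact h1 hxy.symm | exact h2 hxy.symm | exact h3 hxy.symm | exact h4 hxy.symm
        | exact h5 hxy.symm | exact h6 hxy.symm | exact h7 hxy.symm | exact h8 hxy.symm
        | exact h9 hxy.symm | exact h10 hxy.symm)

variable {Γ : Type} [LinearOrderedCommGroupWithZero Γ]

/-- the normalised distances -/
def D (A : Fin 10 → Γ) (i j : Fin 5) : Γ := A (ed i j) * (A (ed i 4) * A (ed j 4))⁻¹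

lemma D_mul (A : Fin 10 → Γ) (hA : ∀ k, A k ≠ 0) (i j : Fin 5) :
    A (ed i j) = D A i j * (A (ed i 4) * A (ed j 4)) := by
  rw [D, mul_assoc, inv_mul_cancel₀ (mul_ne_zero (hA _) (hA _)), mul_one]

lemma D_comm (A : Fin 10 → Γ) (i j : Fin 5) (h : i ≠ j) : D A i j = D A j i := by
  rw [D, D, ed_comm i j h, mul_comm (A (ed i 4))]

lemma tri_aux (a b c x y z : Γ) (hx : x ≠ 0) (hy : y ≠ 0) (hz : z ≠ 0)
    (h : a * z ≤ max (b * y) (x * c)) :
    a * (x * y)⁻¹ ≤ max (b * (x * z)⁻¹) (c * (y * z)⁻¹) := by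
  have hxyz : x * y * z ≠ 0 := mul_ne_zero (mul_ne_zero hx hy) hz
  have e1 : a * (x * y)⁻¹ = (a * z) * (x * y * z)⁻¹ := by
    field_simp
  have e2 : b * (x * z)⁻¹ = (b * y) * (x * y * z)⁻¹ := by
    field_simp
  have e3 : c * (y * z)⁻¹ = (x * c) * (x * y * z)⁻¹ := by
    field_simp
  rw [e1, e2, e3]
  rcases le_max_iff.mp h with h | h
  · exact le_max_of_le_left (mul_le_mul_left h _)
  · exact le_max_of_le_right (mul_le_mul_left h _)

lemma tri (A : Fin 10 → Γ) (hA : ∀ k, A k ≠ 0)
    (h4 : ∀ i j k l : Fin 5, i < j → j < k → k < l →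
      A (ed i j) * A (ed k l) ≤ max (A (ed i k) * A (ed j l)) (A (ed i l) * A (ed j k)) ∧
      A (ed i k) * A (ed j l) ≤ max (A (ed i j) * A (ed k l)) (A (ed i l) * A (ed j k)) ∧
      A (ed i l) * A (ed j k) ≤ max (A (ed i j) * A (ed k l)) (A (ed i k) * A (ed j l))) :
    ∀ i j k : Fin 5, i < j → j < k → k < 4 →
      D A i j ≤ max (D A i k) (D A j k) ∧ D A i k ≤ max (D A i j) (D A j k) ∧
      D A j k ≤ max (D A i j) (D A i k) := by
  intro i j k hij hjk hk
  obtain ⟨h1, h2, h3⟩ := h4 i j k 4 hij hjk hk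
  refine ⟨?_, ?_, ?_⟩
  · exact tri_aux _ _ _ _ _ _ (hA _) (hA _) (hA _) h1
  · have := tri_aux (A (ed i k)) (A (ed i j)) (A (ed j k)) (A (ed i 4)) (A (ed k 4))
      (A (ed j 4)) (hA _) (hA _) (hA _) h2
    rw [mul_comm (A (ed k 4)) (A (ed j 4))] at this
    exact this
  · have := tri_aux (A (ed j k)) (A (ed i j)) (A (ed i k)) (A (ed j 4)) (A (ed k 4))
      (A (ed i 4)) (hA _) (hA _) (hA _) (by
        rw [mul_comm (A (ed j k)), mul_comm (A (ed j 4)) (A (ed i k))]
        exact h3)
    rw [mul_comm (A (ed k 4)) (A (ed i 4)), mul_comm (A (ed j 4)) (A (ed i 4))] at this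
    exact this

lemma tri' (A : Fin 10 → Γ) (hA : ∀ k, A k ≠ 0)
    (h4 : ∀ i j k l : Fin 5, i < j → j < k → k < l →
      A (ed i j) * A (ed k l) ≤ max (A (ed i k) * A (ed j l)) (A (ed i l) * A (ed j k)) ∧
      A (ed i k) * A (ed j l) ≤ max (A (ed i j) * A (ed k l)) (A (ed i l) * A (ed j k)) ∧
      A (ed i l) * A (ed j k) ≤ max (A (ed i j) * A (ed k l)) (A (ed i k) * A (ed j l)))
    (i j k : Fin 5) (hij : i ≠ j) (hik : i ≠ k) (hjk : j ≠ k) (hi : i ≠ 4) (hj : j ≠ 4)
    (hk : k ≠ 4) : D A i j ≤ max (D A i k) (D A j k) := by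
  have lt4 : ∀ x : Fin 5, x ≠ 4 → x < 4 := by decide
  have T := tri A hA h4
  rcases lt_or_gt_of_ne hij with h1 | h1 <;> rcases lt_or_gt_of_ne hjk with h2 | h2 <;>
    rcases lt_or_gt_of_ne hik with h3 | h3
  · exact (T i j k h1 h2 (lt4 k hk)).1
  · exact absurd (h1.trans h2) (not_lt.mpr h3.le)
  · -- i < k < j
    have h := (T i k j h3 h2 (lt4 j hj)).2.1
    rwa [D_comm A k j hjk.symm] at h
  · -- k < i < j
    have h := (T k i j h3 h1 (lt4 j hj)).2.2
    rwa [D_comm A k i hik.symm, D_comm A k j hjk.symm] at h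
  · -- j < i < k
    have h := (T j i k h1 h3 (lt4 k hk)).1
    rw [D_comm A j i hij.symm, max_comm] at h
    exact h
  · -- j < k < i
    have h := (T j k i h2 h3 (lt4 i hi)).2.1
    rw [D_comm A j i hij.symm, D_comm A k i hik.symm, max_comm] at h
    exact h
  · exact absurd (h2.trans h1) (not_lt.mpr h3.le)
  · -- k < j < i
    have h := (T k j i h2 h1 (lt4 i hi)).2.2
    rw [D_comm A j i hij.symm, D_comm A k j hjk.symm, D_comm A k i hik.symm, max_comm] at h
    exact h

lemma eq_of (a b c : Γ) (h1 : a ≤ b) (h2 : a ≤ c) (h3 : b ≤ max a c) (h4 : c ≤ max a b) :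
    b = c := by
  apply le_antisymm
  · rcases le_max_iff.mp h3 with h | h
    · exact h.trans h2
    · exact h
  · rcases le_max_iff.mp h4 with h | h
    · exact h.trans h1
    · exact h

end TRE_

open TRE_ in
theorem tre_proof : Stmt_Tre := by
  intro Γ _ A hA h4
  have T := tri' A hA h4
  -- the closest pair
  obtain ⟨⟨i, j⟩, hij, hmin⟩ := Finset.exists_min_image
    (Finset.univ.filter fun p : Fin 5 × Fin 5 => p.1 ≠ p.2 ∧ p.1 ≠ 4 ∧ p.2 ≠ 4)
    (fun p => D A p.1 p.2) ⟨(0, 1), by decide⟩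
  simp only [Finset.mem_filter, Finset.mem_univ, true_and] at hij hmin
  obtain ⟨hij, hi4, hj4⟩ := hij
  obtain ⟨k, l, hk4, hl4, hkl, hik, hil, hjk, hjl⟩ := rest i j hij hi4 hj4
  have m1 : D A i j ≤ D A i k := hmin (i, k) ⟨hik, hi4, hk4⟩
  have m2 : D A i j ≤ D A j k := hmin (j, k) ⟨hjk, hj4, hk4⟩
  have m3 : D A i j ≤ D A i l := hmin (i, l) ⟨hil, hi4, hl4⟩
  have m4 : D A i j ≤ D A j l := hmin (j, l) ⟨hjl, hj4, hl4⟩
  have t1 : D A i k ≤ max (D A i j) (D A j k) := by
    have := T i k j hik hij hjk.symm hi4 hk4 hj4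
    rwa [D_comm A k j hjk.symm] at this
  have t2 : D A j k ≤ max (D A i j) (D A i k) := by
    have := T j k i hjk hij.symm hik.symm hj4 hk4 hi4
    rwa [D_comm A j i hij.symm, D_comm A k i hik.symm] at this
  have t3 : D A i l ≤ max (D A i j) (D A j l) := by
    have := T i l j hil hij hjl.symm hi4 hl4 hj4
    rwa [D_comm A l j hjl.symm] at this
  have t4 : D A j l ≤ max (D A i j) (D A i l) := by
    have := T j l i hjl hij.symm hil.symm hj4 hl4 hi4
    rwa [D_comm A j i hij.symm, D_comm A l i hil.symm] at this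
  have e1 : D A i k = D A j k := eq_of _ _ _ m1 m2 t1 t2
  have e2 : D A i l = D A j l := eq_of _ _ _ m3 m4 t3 t4
  have s1 : D A k l ≤ max (D A i k) (D A i l) := by
    have := T k l i hkl hik.symm hil.symm hk4 hl4 hi4
    rwa [D_comm A k i hik.symm, D_comm A l i hil.symm] at this
  have s2 : D A i k ≤ max (D A i l) (D A k l) := T i k l hik hil hkl hi4 hk4 hl4
  have s3 : D A i l ≤ max (D A i k) (D A k l) := by
    have := T i l k hil hik hkl.symm hi4 hl4 hk4
    rwa [D_comm A l k hkl.symm] at this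
  have P := D_mul A hA
  -- the five conditions, in terms of the distances
  have F : ∀ x y u v w : Γ, x = y → x * (u * v) * w = y * (u * v) * w := by
    intro x y u v w h
    rw [h]
  rcases le_total (D A i l) (D A i k) with hle | hle
  · rcases le_total (D A k l) (D A i l) with hle' | hle'
    · -- `d23 ≤ d2 = d3`
      have e3 : D A i k = D A i l := by
        apply le_antisymm _ hle
        rcases le_max_iff.mp s2 with h | h
        · exact h
        · exact h.trans hle'
      refine ⟨mkp ![i, j, k, l, 4] (inj5 _ _ _ _ _ ⟨hij, hik, hil, hi4, hjk, hjl, hj4, hkl, hk4,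
        hl4⟩), ?_, ?_, ?_, ?_, ?_⟩
      · show A (ed i l) * A (ed j 4) = A (ed i 4) * A (ed j l)
        rw [P i l, P j l, e2]
        ac_rfl
      · show A (ed i l) * A (ed k 4) = A (ed i k) * A (ed l 4)
        rw [P i l, P i k, e3]
        ac_rfl
      · show A (ed i l) * A (ed j k) = A (ed i k) * A (ed j l)
        rw [P i l, P j k, P i k, P j l, e2, ← e1]
        ac_rfl
      · show A (ed i j) * A (ed l 4) ≤ A (ed i 4) * A (ed j l)
        rw [P i j, P j l]
        have h : A (ed i 4) * (D A j l * (A (ed j 4) * A (ed l 4))) =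
            D A j l * (A (ed i 4) * A (ed j 4)) * A (ed l 4) := by ac_rfl
        rw [h]
        exact mul_le_mul_left (mul_le_mul_left m4 _) _
      · show A (ed i 4) * A (ed k l) ≤ A (ed i k) * A (ed l 4)
        rw [P k l, P i k]
        have h : A (ed i 4) * (D A k l * (A (ed k 4) * A (ed l 4))) =
            D A k l * (A (ed i 4) * A (ed k 4)) * A (ed l 4) := by ac_rfl
        rw [h]
        exact mul_le_mul_left (mul_le_mul_left (hle'.trans hle) _) _
    · -- `d3 ≤ d2 = d23`
      have e3 : D A i k = D A k l := by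
        apply le_antisymm
        · rcases le_max_iff.mp s2 with h | h
          · exact h.trans hle'
          · exact h
        · rcases le_max_iff.mp s1 with h | h
          · exact h
          · exact h.trans hle
      refine ⟨mkp ![i, j, k, 4, l] (inj5 _ _ _ _ _ ⟨hij, hik, hi4, hil, hjk, hj4, hjl, hk4, hkl,
        hl4.symm⟩), ?_, ?_, ?_, ?_, ?_⟩
      · show A (ed i 4) * A (ed j l) = A (ed i l) * A (ed j 4)
        rw [P i l, P j l, e2]
        ac_rfl
      · show A (ed i 4) * A (ed k l) = A (ed i k) * A (ed 4 l)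
        rw [ed_comm 4 l hl4.symm, P k l, P i k, e3]
        ac_rfl
      · show A (ed i 4) * A (ed j k) = A (ed i k) * A (ed j 4)
        rw [P j k, P i k, e1]
        ac_rfl
      · show A (ed i j) * A (ed 4 l) ≤ A (ed i l) * A (ed j 4)
        rw [ed_comm 4 l hl4.symm, P i j, P i l]
        have h : D A i l * (A (ed i 4) * A (ed l 4)) * A (ed j 4) =
            D A i l * (A (ed i 4) * A (ed j 4)) * A (ed l 4) := by ac_rfl
        rw [h]
        exact mul_le_mul_left (mul_le_mul_left m3 _) _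
      · show A (ed i l) * A (ed k 4) ≤ A (ed i k) * A (ed 4 l)
        rw [ed_comm 4 l hl4.symm, P i l, P i k]
        have h : D A i l * (A (ed i 4) * A (ed l 4)) * A (ed k 4) =
            D A i l * (A (ed i 4) * A (ed k 4)) * A (ed l 4) := by ac_rfl
        rw [h]
        exact mul_le_mul_left (mul_le_mul_left hle _) _
  · rcases le_total (D A k l) (D A i k) with hle' | hle'
    · -- `d23 ≤ d2 = d3`
      have e3 : D A i k = D A i l := by
        apply le_antisymm hle
        rcases le_max_iff.mp s3 with h | h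
        · exact h
        · exact h.trans hle'
      refine ⟨mkp ![i, j, k, l, 4] (inj5 _ _ _ _ _ ⟨hij, hik, hil, hi4, hjk, hjl, hj4, hkl, hk4,
        hl4⟩), ?_, ?_, ?_, ?_, ?_⟩
      · show A (ed i l) * A (ed j 4) = A (ed i 4) * A (ed j l)
        rw [P i l, P j l, e2]
        ac_rfl
      · show A (ed i l) * A (ed k 4) = A (ed i k) * A (ed l 4)
        rw [P i l, P i k, e3]
        ac_rfl
      · show A (ed i l) * A (ed j k) = A (ed i k) * A (ed j l)
        rw [P i l, P j k, P i k, P j l, e2, ← e1]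
        ac_rfl
      · show A (ed i j) * A (ed l 4) ≤ A (ed i 4) * A (ed j l)
        rw [P i j, P j l]
        have h : A (ed i 4) * (D A j l * (A (ed j 4) * A (ed l 4))) =
            D A j l * (A (ed i 4) * A (ed j 4)) * A (ed l 4) := by ac_rfl
        rw [h]
        exact mul_le_mul_left (mul_le_mul_left m4 _) _
      · show A (ed i 4) * A (ed k l) ≤ A (ed i k) * A (ed l 4)
        rw [P k l, P i k]
        have h : A (ed i 4) * (D A k l * (A (ed k 4) * A (ed l 4))) =
            D A k l * (A (ed i 4) * A (ed k 4)) * A (ed l 4) := by ac_rfl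
        rw [h]
        exact mul_le_mul_left (mul_le_mul_left hle' _) _
    · -- `d2 ≤ d3 = d23`
      have e3 : D A i l = D A k l := by
        apply le_antisymm
        · rcases le_max_iff.mp s3 with h | h
          · exact h.trans hle'
          · exact h
        · rcases le_max_iff.mp s1 with h | h
          · exact h.trans hle
          · exact h
      refine ⟨mkp ![i, j, l, 4, k] (inj5 _ _ _ _ _ ⟨hij, hil, hi4, hik, hjl, hj4, hjk, hl4,
        hkl.symm, hk4.symm⟩), ?_, ?_, ?_, ?_, ?_⟩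
      · show A (ed i 4) * A (ed j k) = A (ed i k) * A (ed j 4)
        rw [P i k, P j k, e1]
        ac_rfl
      · show A (ed i 4) * A (ed l k) = A (ed i l) * A (ed 4 k)
        rw [ed_comm 4 k hk4.symm, ed_comm l k hkl.symm, P k l, P i l, e3]
        ac_rfl
      · show A (ed i 4) * A (ed j l) = A (ed i l) * A (ed j 4)
        rw [P j l, P i l, e2]
        ac_rfl
      · show A (ed i j) * A (ed 4 k) ≤ A (ed i k) * A (ed j 4)
        rw [ed_comm 4 k hk4.symm, P i j, P i k]
        have h : D A i k * (A (ed i 4) * A (ed k 4)) * A (ed j 4) =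
            D A i k * (A (ed i 4) * A (ed j 4)) * A (ed k 4) := by ac_rfl
        rw [h]
        exact mul_le_mul_left (mul_le_mul_left m1 _) _
      · show A (ed i k) * A (ed l 4) ≤ A (ed i l) * A (ed 4 k)
        rw [ed_comm 4 k hk4.symm, P i k, P i l]
        have h : D A i k * (A (ed i 4) * A (ed k 4)) * A (ed l 4) =
            D A i k * (A (ed i 4) * A (ed l 4)) * A (ed k 4) := by ac_rfl
        rw [h]
        exact mul_le_mul_left (mul_le_mul_left hle _) _

end Pool.Agent.XV
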