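import Pool.Agent.XV.Stmts

/-!
# Module UNI: the universal solution in a chart
-/

set_option autoImplicit false

noncomputable section

namespace Pool.Agent.XV

open scoped Classical
open MvPolynomial

namespace UNI_

/-! ## Functoriality of solutions -/

theorem eval_map {R B : Type} [CommRing R] [CommRing B] (φ : R →+* B) (s : Pt → R)
    (g : MvPolynomial (Fin (N + 1)) ℤ) :
    eval₂ (Int.castRingHom B) (fun i => φ (s (pt i))) g =
      φ (eval₂ (Int.castRingHom R) (fun i => s (pt i)) g) := by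
  rw [eval₂_comp_left φ (Int.castRingHom R) (fun i => s (pt i)) g]
  congr 1
  exact RingHom.ext_int _ _

theorem isSol_map {R B : Type} [CommRing R] [CommRing B] (φ : R →+* B) (s : Pt → R)
    (h : IsSol s) : IsSol fun c => φ (s c) := by
  intro g hg
  rw [eval_map φ s g, h g hg, map_zero]

theorem isSol_of_map {R B : Type} [CommRing R] [CommRing B] (φ : R →+* B)
    (hφ : Function.Injective φ) (s : Pt → R) (h : IsSol fun c => φ (s c)) : IsSol s := by
  intro g hg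
  have h1 := h g hg
  rw [eval_map φ s g] at h1
  exact hφ (by rw [h1, map_zero])

theorem map_formula {R B : Type} [CommRing R] [CommRing B] (φ : R →+* B) (Z : Rˣ) (X : Fin 3 → R)
    (U : Fin 3 → Rˣ) (a : Fin 3 → ℕ) (n : Fin 3 → ℤ) :
    φ ((Z : R) * (∏ l, X l ^ a l) * ((∏ j, U j ^ n j : Rˣ) : R)) =
      ((Units.map (φ : R →* B) Z : Bˣ) : B) * (∏ l, φ (X l) ^ a l) *
        ((∏ j, Units.map (φ : R →* B) (U j) ^ n j : Bˣ) : B) := by
  have h6 : (∏ j, Units.map (φ : R →* B) (U j) ^ n j) =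
      Units.map (φ : R →* B) (∏ j, U j ^ n j) := by
    rw [map_prod]
    simp only [map_zpow]
  rw [h6, map_mul, map_mul, map_prod]
  simp only [map_pow]
  rfl

/-! ## Exponents -/

/-- minus the exponents of `v` in the chart coordinates -/
def rv : Fin 6 → Fin 3 → ℤ :=
  ![![0, 0, 1], ![0, 0, -1], ![0, -1, -1], ![-1, -1, -1], ![-1, -1, -1], ![-1, -1, -1]]

/-- exponents of `u` -/
def au (σ : Fin 6) : Fin 6 → ℤ := ![rv σ 0, rv σ 1, rv σ 2, 0, -2, -2]

/-- exponents of the brackets -/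
def ab (σ : Fin 6) : Fin 10 → Fin 6 → ℤ :=
  ![![(rx σ 0 : ℤ), rx σ 1, rx σ 2, 0, 1, 0], ![0, 0, 0, 0, 0, 0], ![0, 0, 0, 0, 1, 0],
    ![0, 0, 0, 0, 0, 0], ![0, 0, 0, 0, 0, 1], ![0, 0, 0, 0, 1, 0], ![0, 0, 0, 1, 0, 0],
    ![(ry σ 0 : ℤ), ry σ 1, ry σ 2, 0, 0, 0], ![0, 0, 0, 0, 0, 0], ![0, 0, 0, 0, 0, 0]]

/-- exponents of a monomial -/
def ex (σ : Fin 6) (w : ℕ) (e : Fin 10 → ℕ) (j : Fin 6) : ℤ :=
  (w : ℤ) * au σ j + ∑ k, (e k : ℤ) * ab σ k j

theorem ex_tX : ∀ (σ : Fin 6) (l : Fin 3) (j : Fin 6),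
    ex σ (tw σ (tX l)) (te σ (tX l)) j - ex σ (tw σ 0) (te σ 0) j =
      if j.1 = l.1 then 1 else 0 := by
  decide +kernel

theorem ex_tU : ∀ (σ : Fin 6) (l : Fin 3) (j : Fin 6),
    ex σ (tw σ (tU l)) (te σ (tU l)) j - ex σ (tw σ 0) (te σ 0) j =
      if j.1 = l.1 + 3 then 1 else 0 := by
  decide +kernel

/-! ## Monomials in units -/

section

variable {B : Type} [CommRing B]

/-- monomials in six units -/
def mo (G : Fin 6 → Bˣ) (m : Fin 6 → ℤ) : Bˣ := ∏ j, G j ^ m j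

theorem zpow_fsum {ι : Type} (s : Finset ι) (g : Bˣ) (f : ι → ℤ) :
    g ^ (∑ k ∈ s, f k) = ∏ k ∈ s, g ^ f k := by
  induction s using Finset.induction_on with
  | empty => simp
  | insert a s ha ih => rw [Finset.sum_insert ha, Finset.prod_insert ha, zpow_add, ih]

theorem mo_sub (G : Fin 6 → Bˣ) (m m' : Fin 6 → ℤ) :
    mo G (fun j => m j - m' j) = mo G m * (mo G m')⁻¹ := by
  unfold mo
  simp only [zpow_sub, Finset.prod_mul_distrib, Finset.prod_inv_distrib]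

theorem mo_nsmul (G : Fin 6 → Bˣ) (m : Fin 6 → ℤ) (n : ℕ) :
    mo G (fun j => (n : ℤ) * m j) = mo G m ^ n := by
  unfold mo
  rw [← Finset.prod_pow]
  refine Finset.prod_congr rfl fun j _ => ?_
  show G j ^ ((n : ℤ) * m j) = (G j ^ m j) ^ n
  rw [mul_comm, zpow_mul, zpow_natCast]

theorem mo_ex (G : Fin 6 → Bˣ) (σ : Fin 6) (w : ℕ) (e : Fin 10 → ℕ) :
    mo G (ex σ w e) = mo G (au σ) ^ w * ∏ k, mo G (ab σ k) ^ e k := by
  rw [← mo_nsmul]
  simp only [← mo_nsmul]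
  unfold mo ex
  simp only [zpow_add, Finset.prod_mul_distrib, zpow_fsum]
  rw [Finset.prod_comm]

/-- a unit vector -/
theorem mo_single (G : Fin 6 → Bˣ) (m : Fin 6 → ℤ) (i : Fin 6)
    (h : ∀ j, m j = if j = i then 1 else 0) : mo G m = G i := by
  unfold mo
  rw [Finset.prod_eq_single i]
  · rw [h i, if_pos rfl, zpow_one]
  · intro j _ hj
    rw [h j, if_neg hj, zpow_zero]
  · intro hi
    exact absurd (Finset.mem_univ i) hi

/-- the units -/
def gens (X U : Fin 3 → Bˣ) : Fin 6 → Bˣ := ![X 0, X 1, X 2, U 0, U 1, U 2]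

/-- the values of the variables -/
def vals (σ : Fin 6) (x y : B) (Z : Bˣ) (G : Fin 6 → Bˣ) : Vr → B
  | .a i => (![1, 1 + x, 1, 1, 0] : Fin 5 → B) i
  | .b i => (![0, x * (1 + y), 1, 1 + y, 1] : Fin 5 → B) i
  | .u => (mo G (au σ) : Bˣ)
  | .T => ((Z * (mo G (ex σ (tw σ 0) (te σ 0)))⁻¹ : Bˣ) : B)

/-- the homomorphism -/
def hm (σ : Fin 6) (x y : B) (Z : Bˣ) (G : Fin 6 → Bˣ) : Cox ℤ →+* B :=
  eval₂Hom (Int.castRingHom B) (vals σ x y Z G)

theorem hm_br (σ : Fin 6) (Z : Bˣ) (X U : Fin 3 → Bˣ)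
    (h0 : (U 0 : B) = 1 + hx σ (fun l => (X l : B)))
    (h1 : (U 1 : B) = 1 + hy σ (fun l => (X l : B)))
    (h2 : (U 2 : B) = 1 - hx σ (fun l => (X l : B)) * hy σ (fun l => (X l : B))) (k : Fin 10) :
    hm σ (hx σ (fun l => (X l : B))) (hy σ (fun l => (X l : B))) Z (gens X U) (br ℤ k) =
      (mo (gens X U) (ab σ k) : Bˣ) := by
  have hX : ((mo (gens X U) ![(rx σ 0 : ℤ), rx σ 1, rx σ 2, 0, 1, 0] : Bˣ) : B) =
      hx σ (fun l => (X l : B)) * (1 + hy σ (fun l => (X l : B))) := by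
    rw [← h1]
    simp [mo, gens, hx, Fin.prod_univ_succ]
    ring
  have hY : ((mo (gens X U) ![(ry σ 0 : ℤ), ry σ 1, ry σ 2, 0, 0, 0] : Bˣ) : B) =
      hy σ (fun l => (X l : B)) := by
    simp [mo, gens, hy, Fin.prod_univ_succ]
  generalize hx σ (fun l => (X l : B)) = x at *
  generalize hy σ (fun l => (X l : B)) = y at *
  have e0 : mo (gens X U) ![0, 0, 0, 0, 0, 0] = 1 := by
    simp [mo, gens, Fin.prod_univ_succ]
  have e3 : ((mo (gens X U) ![0, 0, 0, 1, 0, 0] : Bˣ) : B) = 1 + x := by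
    rw [← h0]
    simp [mo, gens, Fin.prod_univ_succ]
  have e4 : ((mo (gens X U) ![0, 0, 0, 0, 1, 0] : Bˣ) : B) = 1 + y := by
    rw [← h1]
    simp [mo, gens, Fin.prod_univ_succ]
  have e5 : ((mo (gens X U) ![0, 0, 0, 0, 0, 1] : Bˣ) : B) = 1 - x * y := by
    rw [← h2]
    simp [mo, gens, Fin.prod_univ_succ]
  fin_cases k
  all_goals simp only [hm, br, br2, eS, eT, coe_eval₂Hom, eval₂_sub, eval₂_mul, eval₂_X, vals, ab]
  · show _ = ((mo (gens X U) ![(rx σ 0 : ℤ), rx σ 1, rx σ 2, 0, 1, 0] : Bˣ) : B)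
    rw [hX]; simp
  · show _ = ((mo (gens X U) ![0, 0, 0, 0, 0, 0] : Bˣ) : B)
    rw [e0]; simp
  · show _ = ((mo (gens X U) ![0, 0, 0, 0, 1, 0] : Bˣ) : B)
    rw [e4]; simp
  · show _ = ((mo (gens X U) ![0, 0, 0, 0, 0, 0] : Bˣ) : B)
    rw [e0]; simp
  · show _ = ((mo (gens X U) ![0, 0, 0, 0, 0, 1] : Bˣ) : B)
    rw [e5]; simp; ring
  · show _ = ((mo (gens X U) ![0, 0, 0, 0, 1, 0] : Bˣ) : B)
    rw [e4]; simp; ring
  · show _ = ((mo (gens X U) ![0, 0, 0, 1, 0, 0] : Bˣ) : B)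
    rw [e3]; simp
  · show _ = ((mo (gens X U) ![(ry σ 0 : ℤ), ry σ 1, ry σ 2, 0, 0, 0] : Bˣ) : B)
    rw [hY]; simp
  · show _ = ((mo (gens X U) ![0, 0, 0, 0, 0, 0] : Bˣ) : B)
    rw [e0]; simp
  · show _ = ((mo (gens X U) ![0, 0, 0, 0, 0, 0] : Bˣ) : B)
    rw [e0]; simp

theorem hm_cm (σ : Fin 6) (Z : Bˣ) (X U : Fin 3 → Bˣ)
    (h0 : (U 0 : B) = 1 + hx σ (fun l => (X l : B)))
    (h1 : (U 1 : B) = 1 + hy σ (fun l => (X l : B)))
    (h2 : (U 2 : B) = 1 - hx σ (fun l => (X l : B)) * hy σ (fun l => (X l : B))) (c : Pt) :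
    hm σ (hx σ (fun l => (X l : B))) (hy σ (fun l => (X l : B))) Z (gens X U) (cm ℤ c) =
      ((Z * mo (gens X U) (fun j => ex σ c.w c.e j - ex σ (tw σ 0) (te σ 0) j) : Bˣ) : B) := by
  unfold cm mon
  rw [map_mul, map_mul, map_pow, map_pow, map_prod]
  simp only [map_pow, hm_br σ Z X U h0 h1 h2]
  have hu : hm σ (hx σ (fun l => (X l : B))) (hy σ (fun l => (X l : B))) Z (gens X U)
      (MvPolynomial.X Vr.u) = (mo (gens X U) (au σ) : Bˣ) := by
    simp [hm, vals]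
  have hT : hm σ (hx σ (fun l => (X l : B))) (hy σ (fun l => (X l : B))) Z (gens X U)
      (MvPolynomial.X Vr.T) =
      ((Z * (mo (gens X U) (ex σ (tw σ 0) (te σ 0)))⁻¹ : Bˣ) : B) := by
    simp [hm, vals]
  rw [hu, hT, mo_sub, mo_ex (gens X U) σ c.w c.e]
  push_cast
  ring

/-- the case of invertible chart coordinates -/
theorem unit_case (hHom : Stmt_Hom) (hChv : Stmt_Chv) (σ : Fin 6) (Z : Bˣ) (X U : Fin 3 → Bˣ)
    (h0 : (U 0 : B) = 1 + hx σ (fun l => (X l : B)))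
    (h1 : (U 1 : B) = 1 + hy σ (fun l => (X l : B)))
    (h2 : (U 2 : B) = 1 - hx σ (fun l => (X l : B)) * hy σ (fun l => (X l : B))) :
    IsSol fun c => (Z : B) * (∏ l, (X l : B) ^ elc σ l c) *
      ((∏ j, U j ^ nu σ j c : Bˣ) : B) := by
  set s : Pt → B := fun c => hm σ (hx σ (fun l => (X l : B))) (hy σ (fun l => (X l : B))) Z
    (gens X U) (cm ℤ c) with hs
  have hsol : IsSol s := hHom B _
  have hval : ∀ c, s c =
      ((Z * mo (gens X U) (fun j => ex σ c.w c.e j - ex σ (tw σ 0) (te σ 0) j) : Bˣ) : B) :=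
    fun c => hm_cm σ Z X U h0 h1 h2 c
  have hZ : s (tp σ 0) = Z := by
    rw [hval]
    simp [tp, mo]
  have hX : ∀ l, s (tp σ (tX l)) = Z * X l := by
    intro l
    rw [hval, mo_single (gens X U) _ (Fin.castLE (by norm_num) l)]
    · push_cast
      congr 1
      fin_cases l <;> rfl
    · intro j
      show ex σ (tw σ (tX l)) (te σ (tX l)) j - ex σ (tw σ 0) (te σ 0) j = _
      rw [ex_tX]
      simp [Fin.ext_iff]
  have hU : ∀ l, s (tp σ (tU l)) = Z * U l := by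
    intro l
    rw [hval, mo_single (gens X U) _ (Fin.addNat l 3)]
    · push_cast
      congr 1
      fin_cases l <;> rfl
    · intro j
      show ex σ (tw σ (tU l)) (te σ (tU l)) j - ex σ (tw σ 0) (te σ 0) j = _
      rw [ex_tU]
      simp [Fin.ext_iff]
  have hfin : s = fun c => (Z : B) * (∏ l, (X l : B) ^ elc σ l c) *
      ((∏ j, U j ^ nu σ j c : Bˣ) : B) := by
    funext c
    rw [hChv B s hsol σ Z U hZ hU c]
    simp only [hX, Units.inv_mul_cancel_left]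
  rw [← hfin]
  exact hsol

end

/-! ## The universal ring -/

/-- the chart coordinates -/
def Xv (l : Fin 3) : MvPolynomial (Fin 4) ℤ := X (Fin.castSucc l)

/-- the element to be inverted -/
def ff (σ : Fin 6) : MvPolynomial (Fin 4) ℤ :=
  X 3 * ((1 + hx σ Xv) * ((1 + hy σ Xv) * (1 - hx σ Xv * hy σ Xv)))

theorem map_hx {R B : Type} [CommRing R] [CommRing B] (φ : R →+* B) (σ : Fin 6) (X : Fin 3 → R) :
    φ (hx σ X) = hx σ fun l => φ (X l) := by
  simp [hx]

theorem map_hy {R B : Type} [CommRing R] [CommRing B] (φ : R →+* B) (σ : Fin 6) (X : Fin 3 → R) :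
    φ (hy σ X) = hy σ fun l => φ (X l) := by
  simp [hy]

theorem ff_ne (σ : Fin 6) : ff σ ≠ 0 := by
  intro h
  have h1 := congrArg (eval₂Hom (RingHom.id ℤ) (![2, 2, 2, 1] : Fin 4 → ℤ)) h
  have h2 : (fun l => (eval₂Hom (RingHom.id ℤ) (![2, 2, 2, 1] : Fin 4 → ℤ)) (Xv l)) =
      fun _ => (2 : ℤ) := by
    funext l
    fin_cases l <;> simp [Xv]
  rw [ff, map_mul, map_mul, map_mul, map_add, map_add, map_sub, map_mul, map_one, map_hx, map_hy,
    map_zero, h2] at h1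
  revert h1
  fin_cases σ <;> simp [hx, hy, rx, ry, Fin.prod_univ_succ]

theorem map_ff {B : Type} [CommRing B] (φ : MvPolynomial (Fin 4) ℤ →+* B) (σ : Fin 6) :
    φ (ff σ) = φ (X 3) * ((1 + hx σ fun l => φ (Xv l)) * ((1 + hy σ fun l => φ (Xv l)) *
      (1 - (hx σ fun l => φ (Xv l)) * hy σ fun l => φ (Xv l)))) := by
  rw [ff, map_mul, map_mul, map_mul, map_add, map_add, map_sub, map_mul, map_one, map_hx, map_hy]

end UNI_

open UNI_ in
theorem uni_proof (hHom : Stmt_Hom) (hChv : Stmt_Chv) : Stmt_Uni := by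
  intro B _ σ Z X U h0 h1 h2
  let R := Localization.Away (ff σ)
  have hle : Submonoid.powers (ff σ) ≤ nonZeroDivisors (MvPolynomial (Fin 4) ℤ) :=
    powers_le_nonZeroDivisors_of_noZeroDivisors (ff_ne σ)
  have hdom : IsDomain R := IsLocalization.isDomain_localization hle
  have hinj : Function.Injective (algebraMap (MvPolynomial (Fin 4) ℤ) R) := IsLocalization.injective R hle
  let ι : MvPolynomial (Fin 4) ℤ →+* R := algebraMap (MvPolynomial (Fin 4) ℤ) R
  have hunit : IsUnit (ι (ff σ)) := IsLocalization.Away.algebraMap_isUnit (ff σ)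
  let XR : Fin 3 → R := fun l => ι (Xv l)
  rw [map_ff] at hunit
  obtain ⟨hu3, hu⟩ := IsUnit.mul_iff.1 hunit
  obtain ⟨hu0, hu⟩ := IsUnit.mul_iff.1 hu
  obtain ⟨hu1, hu2⟩ := IsUnit.mul_iff.1 hu
  let ZR : Rˣ := hu3.unit
  let UR : Fin 3 → Rˣ := ![hu0.unit, hu1.unit, hu2.unit]
  let sR : Pt → R := fun c => (ZR : R) * (∏ l, XR l ^ elc σ l c) *
      ((∏ j, UR j ^ nu σ j c : Rˣ) : R)
  -- the universal solution
  have hsR : IsSol sR := by
    let Q := FractionRing R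
    let κ : R →+* Q := algebraMap R Q
    have hκ : Function.Injective κ := IsFractionRing.injective R Q
    refine isSol_of_map κ hκ sR ?_
    have hXne : ∀ l, κ (XR l) ≠ 0 := by
      intro l h
      have h3 : XR l = 0 := hκ (by rw [h, map_zero])
      have h4 : Xv l = 0 := hinj (by rw [map_zero]; exact h3)
      exact MvPolynomial.X_ne_zero _ h4
    have key := unit_case hHom hChv σ (Units.map (κ : R →* Q) ZR)
      (fun l => Units.mk0 (κ (XR l)) (hXne l)) (fun j => Units.map (κ : R →* Q) (UR j)) ?_ ?_ ?_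
    · have h5 : (fun c => κ (sR c)) = fun c => ((Units.map (κ : R →* Q) ZR : Qˣ) : Q) *
          (∏ l, ((Units.mk0 (κ (XR l)) (hXne l) : Qˣ) : Q) ^ elc σ l c) *
          ((∏ j, Units.map (κ : R →* Q) (UR j) ^ nu σ j c : Qˣ) : Q) := by
        funext c
        exact map_formula κ ZR XR UR _ _
      rw [h5]
      exact key
    · show κ (UR 0 : R) = _
      simp only [Units.val_mk0]
      rw [← map_hx κ σ XR, ← map_one κ, ← map_add]
      rfl
    · show κ (UR 1 : R) = _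
      simp only [Units.val_mk0]
      rw [← map_hy κ σ XR, ← map_one κ, ← map_add]
      rfl
    · show κ (UR 2 : R) = _
      simp only [Units.val_mk0]
      rw [← map_hy κ σ XR, ← map_hx κ σ XR, ← map_mul, ← map_one κ, ← map_sub]
      rfl
  -- specialisation
  let ψ : MvPolynomial (Fin 4) ℤ →+* B :=
    eval₂Hom (Int.castRingHom B) (![X 0, X 1, X 2, (Z : B)] : Fin 4 → B)
  have hψX : ∀ l, ψ (Xv l) = X l := by
    intro l
    fin_cases l <;> simp [ψ, Xv]
  have hψX' : (fun l => ψ (Xv l)) = X := funext hψX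
  have hψZ : ψ (MvPolynomial.X 3) = Z := by
    simp [ψ]
  have hψf : IsUnit (ψ (ff σ)) := by
    rw [map_ff, hψX', hψZ, ← h0, ← h1, ← h2]
    exact Z.isUnit.mul ((U 0).isUnit.mul ((U 1).isUnit.mul (U 2).isUnit))
  let φ : R →+* B := IsLocalization.Away.lift (ff σ) hψf
  have hφ : ∀ a, φ (ι a) = ψ a := fun a => IsLocalization.Away.lift_eq (ff σ) hψf a
  have hφX : ∀ l, φ (XR l) = X l := fun l => (hφ _).trans (hψX l)
  have hφX' : (fun l => φ (XR l)) = X := funext hφX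
  have hZ : Units.map (φ : R →* B) ZR = Z := by
    ext
    show φ (ι (MvPolynomial.X 3)) = Z
    rw [hφ, hψZ]
  have hU : ∀ j, Units.map (φ : R →* B) (UR j) = U j := by
    intro j
    ext
    fin_cases j
    · show φ (1 + hx σ XR) = U 0
      rw [map_add, map_one, map_hx, hφX', h0]
    · show φ (1 + hy σ XR) = U 1
      rw [map_add, map_one, map_hy, hφX', h1]
    · show φ (1 - hx σ XR * hy σ XR) = U 2
      rw [map_sub, map_mul, map_one, map_hx, map_hy, hφX', h2]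
  have hfin : (fun c => φ (sR c)) = fun c => (Z : B) * (∏ l, X l ^ elc σ l c) *
      ((∏ j, U j ^ nu σ j c : Bˣ) : B) := by
    funext c
    have h6 := map_formula φ ZR XR UR (fun l => elc σ l c) (fun j => nu σ j c)
    simp only [hZ, hφX, hU] at h6
    exact h6
  rw [← hfin]
  exact isSol_map φ sR hsR

end Pool.Agent.XV
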