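import Pool.Agent.XV.BIN
import Pool.Agent.XV.CHR
import Pool.Agent.XV.CHV
import Pool.Agent.XV.COV
import Pool.Agent.XV.DIM
import Pool.Agent.XV.FAN
import Pool.Agent.XV.FIB
import Pool.Agent.XV.GEN
import Pool.Agent.XV.HOM
import Pool.Agent.XV.JAC
import Pool.Agent.XV.PRI
import Pool.Agent.XV.SMV
import Pool.Agent.XV.SPX
import Pool.Agent.XV.SYM
import Pool.Agent.XV.TAN
import Pool.Agent.XV.TRE
import Pool.Agent.XV.TRI
import Pool.Agent.XV.UNI

/-!
# The threefold `X`: all statements are proved
-/

set_option autoImplicit false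

namespace Pool.Agent.XV

theorem bin : Stmt_Bin := bin_proof

theorem tri : Stmt_Tri := tri_proof

theorem sym : Stmt_Sym := sym_proof

theorem hom : Stmt_Hom := hom_proof

theorem chv : Stmt_Chv := chv_proof bin

theorem chr : Stmt_Chr := chr_proof bin tri

theorem uni : Stmt_Uni := uni_proof hom chv

theorem tre : Stmt_Tre := tre_proof

theorem fan : Stmt_Fan := fan_proof

theorem cov : Stmt_Cov := cov_proof sym hom chv tre fan

theorem pri : Stmt_Pri := pri_proof

theorem tan : Stmt_Tan := tan_proof sym cov chv chr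

theorem jac : Stmt_Jac := jac_proof

theorem spx : Stmt_Spx := spx_proof sym cov chv chr uni

theorem dim : Stmt_Dim := dim_proof uni spx

theorem fib : Stmt_Fib := fib_proof spx

theorem gen : Stmt_Gen := gen_proof tri

/-- **The threefold is smooth.** -/
theorem smv : Stmt_Smv := smv_proof pri dim tan jac

end Pool.Agent.XV
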