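import Pool.Agent.XV.Defs

/-!
# The action of the permutations of the five points
-/

set_option autoImplicit false

noncomputable section

namespace Pool.Agent.XV

open scoped Classical
open MvPolynomial

theorem ed_spec : ∀ i j : Fin 5, i ≠ j →
    (eS (ed i j) = i ∧ eT (ed i j) = j) ∨ (eS (ed i j) = j ∧ eT (ed i j) = i) := by
  decide

theorem ed_comm : ∀ i j : Fin 5, i ≠ j → ed i j = ed j i := by decide

theorem ed_eS_eT : ∀ k, ed (eS k) (eT k) = k := by decide

theorem eS_ne_eT : ∀ k, eS k ≠ eT k := by decide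

/-- The permutation of the edges. -/
def pe (π : Equiv.Perm (Fin 5)) (k : Fin 10) : Fin 10 := ed (π (eS k)) (π (eT k))

theorem pe_ed (π : Equiv.Perm (Fin 5)) (i j : Fin 5) (h : i ≠ j) :
    pe π (ed i j) = ed (π i) (π j) := by
  unfold pe
  rcases ed_spec i j h with ⟨h1, h2⟩ | ⟨h1, h2⟩
  · rw [h1, h2]
  · rw [h1, h2]
    exact ed_comm _ _ (fun h' => h (π.injective h').symm)

theorem pe_mul (π ρ : Equiv.Perm (Fin 5)) (k : Fin 10) : pe (π * ρ) k = pe π (pe ρ k) := by
  have h : pe ρ k = ed (ρ (eS k)) (ρ (eT k)) := rfl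
  rw [h, pe_ed π _ _ fun h' => eS_ne_eT k (ρ.injective h')]
  rfl

theorem pe_one (k : Fin 10) : pe 1 k = k := ed_eS_eT k

/-- The permutation of the edges, as an equivalence. -/
def peE (π : Equiv.Perm (Fin 5)) : Equiv.Perm (Fin 10) where
  toFun := pe π
  invFun := pe π⁻¹
  left_inv k := by rw [← pe_mul, inv_mul_cancel, pe_one]
  right_inv k := by rw [← pe_mul, mul_inv_cancel, pe_one]

theorem pe_end (π : Equiv.Perm (Fin 5)) (k : Fin 10) (i : Fin 5) :
    (eS (pe π k) = π i ∨ eT (pe π k) = π i) ↔ (eS k = i ∨ eT k = i) := by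
  have h : π (eS k) ≠ π (eT k) := fun h' => eS_ne_eT k (π.injective h')
  rcases ed_spec _ _ h with ⟨h1, h2⟩ | ⟨h1, h2⟩
  · unfold pe
    rw [h1, h2, π.injective.eq_iff, π.injective.eq_iff]
  · unfold pe
    rw [h1, h2, π.injective.eq_iff, π.injective.eq_iff, or_comm]

theorem mdeg_pe (π : Equiv.Perm (Fin 5)) (e : Fin 10 → ℕ) (i : Fin 5) :
    mdeg (fun k => e (pe π⁻¹ k)) i = mdeg e (π⁻¹ i) := by
  unfold mdeg
  rw [← Equiv.sum_comp (peE π)]
  refine Finset.sum_congr rfl fun k _ => ?_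
  have h := pe_end π k (π⁻¹ i)
  have h2 : π (π⁻¹ i) = i := π.apply_symm_apply i
  rw [h2] at h
  simp only [peE, Equiv.coe_fn_mk]
  rw [← pe_mul, inv_mul_cancel, pe_one]
  by_cases hk : eS k = π⁻¹ i ∨ eT k = π⁻¹ i
  · rw [if_pos hk, if_pos (h.2 hk)]
  · rw [if_neg hk, if_neg (fun h' => hk (h.1 h'))]

theorem disj_pe (π : Equiv.Perm (Fin 5)) (k l : Fin 10) (h : Disj k l) :
    Disj (pe π k) (pe π l) := by
  obtain ⟨h1, h2, h3, h4⟩ := h
  have a1 : π (eS k) ≠ π (eT k) := fun h' => eS_ne_eT k (π.injective h')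
  have a2 : π (eS l) ≠ π (eT l) := fun h' => eS_ne_eT l (π.injective h')
  have b1 : π (eS k) ≠ π (eS l) := fun h' => h1 (π.injective h')
  have b2 : π (eS k) ≠ π (eT l) := fun h' => h2 (π.injective h')
  have b3 : π (eT k) ≠ π (eS l) := fun h' => h3 (π.injective h')
  have b4 : π (eT k) ≠ π (eT l) := fun h' => h4 (π.injective h')
  unfold Disj pe
  rcases ed_spec _ _ a1 with ⟨p1, p2⟩ | ⟨p1, p2⟩ <;> rcases ed_spec _ _ a2 with ⟨q1, q2⟩ | ⟨q1, q2⟩ <;>
    rw [p1, p2, q1, q2] <;> exact ⟨‹_›, ‹_›, ‹_›, ‹_›⟩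

theorem adm_pe (π : Equiv.Perm (Fin 5)) {m w : ℕ} {e : Fin 10 → ℕ} (h : Adm m w e) :
    Adm m w fun k => e (pe π⁻¹ k) where
  deg i := by rw [mdeg_pe]; exact h.deg _
  top := h.top
  one k := h.one _
  two k := h.two _
  dbl k l hkl := h.dbl _ _ (disj_pe _ _ _ hkl)

/-- The action of the permutations on the lattice points: the multiplicity of the edge `π k` in
`act π c` is the one of `k` in `c`. -/
def act (π : Equiv.Perm (Fin 5)) (c : Pt) : Pt := ⟨c.w, fun k => c.e (pe π⁻¹ k), adm_pe π c.adm⟩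

theorem act_e (π : Equiv.Perm (Fin 5)) (c : Pt) (k : Fin 10) : (act π c).e (pe π k) = c.e k := by
  show c.e (pe π⁻¹ (pe π k)) = c.e k
  rw [← pe_mul, inv_mul_cancel, pe_one]

/-- The sign of an edge under a permutation. -/
def sg (π : Equiv.Perm (Fin 5)) (k : Fin 10) : ℤ := if π (eS k) < π (eT k) then 1 else -1

/-- The sign of a lattice point under a permutation. -/
def sgn (π : Equiv.Perm (Fin 5)) (c : Pt) : ℤ := ∏ k, sg π k ^ c.e k

/-- Solutions of the integral equations in a ring. -/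
def IsSol {B : Type} [CommRing B] (s : Pt → B) : Prop :=
  ∀ g ∈ I ℤ, eval₂ (Int.castRingHom B) (fun i => s (pt i)) g = 0

/-- The transformed solution. -/
def tws {B : Type} [CommRing B] (π : Equiv.Perm (Fin 5)) (s : Pt → B) (c : Pt) : B :=
  (sgn π c : B) * s (act π c)

end Pool.Agent.XV
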