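import Pool.Agent.FRM.StmtsB

/-!
# The threefold `X` over the moduli space of five points on the line

The coordinates of the projective space are indexed by the points `c = (w, e)` of a polytope: `e`
is a multigraph with five vertices (ten multiplicities `e k`), all degrees are `4 (1 + w)`, and
`w ≤ 12`, `w ≤ e k + 6`, `w ≤ 2 e k + 4`, `w ≤ e k + e l + 2` for disjoint edges `k`, `l`. The
coordinate `x_c` is `T u ^ w ∏ p_k ^ (e k)`, where `p_k = a_i b_j - a_j b_i` for the edge `k = ij`.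
The ideal `I A` of all relations over the ring `A` is the ideal of `X`.
-/

set_option autoImplicit false

noncomputable section

namespace Pool.Agent.XV

open scoped Classical
open MvPolynomial

/-- The smaller endpoint of an edge. -/
def eS : Fin 10 → Fin 5 := ![0, 0, 0, 0, 1, 1, 1, 2, 2, 3]

/-- The larger endpoint of an edge. -/
def eT : Fin 10 → Fin 5 := ![1, 2, 3, 4, 2, 3, 4, 3, 4, 4]

/-- The edge with two given endpoints (junk value on the diagonal). -/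
def ed : Fin 5 → Fin 5 → Fin 10 :=
  ![![0, 0, 1, 2, 3], ![0, 0, 4, 5, 6], ![1, 4, 0, 7, 8], ![2, 5, 7, 0, 9], ![3, 6, 8, 9, 0]]

/-- The degrees of a multigraph. -/
def mdeg (e : Fin 10 → ℕ) (i : Fin 5) : ℕ := ∑ k, if eS k = i ∨ eT k = i then e k else 0

/-- Disjoint edges. -/
def Disj (k l : Fin 10) : Prop := eS k ≠ eS l ∧ eS k ≠ eT l ∧ eT k ≠ eS l ∧ eT k ≠ eT l

instance (k l : Fin 10) : Decidable (Disj k l) := by unfold Disj; infer_instance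

/-- The lattice points of the `m`-fold multiple of the polytope. -/
structure Adm (m w : ℕ) (e : Fin 10 → ℕ) : Prop where
  deg : ∀ i, mdeg e i = 4 * (m + w)
  top : w ≤ 12 * m
  one : ∀ k, w ≤ e k + 6 * m
  two : ∀ k, w ≤ 2 * e k + 4 * m
  dbl : ∀ k l, Disj k l → w ≤ e k + e l + 2 * m

/-- The lattice points of the polytope. -/
@[ext] structure Pt where
  /-- the exponent of `u` -/
  w : ℕ
  /-- the exponents of the brackets -/
  e : Fin 10 → ℕ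
  adm : Adm 1 w e

/-- The variables of the Cox ring. -/
inductive Vr
  | a (i : Fin 5)
  | b (i : Fin 5)
  | u
  | T

/-- The ring in which the coordinates live. -/
abbrev Cox (A : Type) [CommRing A] : Type := MvPolynomial Vr A

/-- The brackets. -/
def br2 (A : Type) [CommRing A] (i j : Fin 5) : Cox A :=
  X (Vr.a i) * X (Vr.b j) - X (Vr.a j) * X (Vr.b i)

/-- The bracket of an edge. -/
def br (A : Type) [CommRing A] (k : Fin 10) : Cox A := br2 A (eS k) (eT k)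

/-- The monomial of degree `m` with exponents `w` and `e`. -/
def mon (A : Type) [CommRing A] (m w : ℕ) (e : Fin 10 → ℕ) : Cox A :=
  X Vr.T ^ m * X Vr.u ^ w * ∏ k, br A k ^ e k

/-- The coordinate of a lattice point. -/
def cm (A : Type) [CommRing A] (c : Pt) : Cox A := mon A 1 c.w c.e

/-- The exponents `w` of the points used in the charts, see `te`. -/
def tw : Fin 6 → Fin 10 → ℕ := ![![0, 0, 0, 1, 0, 0, 0, 0, 0, 0], ![2, 3, 3, 1, 2, 2, 2, 2, 2, 2], ![4, 6, 4, 3, 4, 4, 4, 4, 4, 4], ![8, 9, 8, 6, 8, 8, 8, 8, 8, 8], ![10, 9, 9, 11, 10, 10, 10, 10, 10, 10], ![12, 11, 12, 12, 12, 12, 12, 12, 12, 12]]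

/-- The points used in the charts of the six cones `σ`: `0` is the base point `a`; `1`, `2`, `3` are
`a + [X₁]`, `a + [X₂]`, `a + [X₃]`; `4`, `5`, `6` are `a + [x]`, `a + [y]`, `a + [xy]`;
`7`, `8`, `9` are `a + [1 - x]`, `a + [1 - y]`, `a + [1 - xy]`. -/
def te : Fin 6 → Fin 10 → Fin 10 → ℕ := ![
  ![![0, 2, 0, 2, 2, 2, 0, 0, 0, 2],
    ![1, 2, 0, 1, 2, 1, 0, 0, 0, 3],
    ![0, 1, 0, 3, 2, 2, 0, 1, 0, 1],
    ![0, 4, 0, 4, 4, 4, 0, 0, 0, 4],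
    ![1, 2, 0, 1, 2, 1, 0, 0, 0, 3],
    ![0, 1, 0, 3, 2, 2, 0, 1, 0, 1],
    ![1, 1, 0, 2, 2, 1, 0, 1, 0, 2],
    ![0, 2, 1, 1, 2, 1, 1, 0, 0, 2],
    ![0, 1, 1, 2, 2, 2, 0, 0, 1, 1],
    ![0, 1, 1, 2, 3, 1, 0, 0, 0, 2]],
  ![![0, 4, 4, 4, 6, 4, 2, 0, 2, 4],
    ![1, 6, 4, 5, 8, 5, 2, 0, 2, 7],
    ![0, 5, 4, 7, 8, 6, 2, 1, 2, 5],
    ![0, 2, 4, 2, 4, 2, 2, 0, 2, 2],
    ![1, 4, 4, 3, 6, 3, 2, 0, 2, 5],
    ![0, 3, 4, 5, 6, 4, 2, 1, 2, 3],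
    ![1, 3, 4, 4, 6, 3, 2, 1, 2, 4],
    ![0, 4, 5, 3, 6, 3, 3, 0, 2, 4],
    ![0, 3, 5, 4, 6, 4, 2, 0, 3, 3],
    ![0, 3, 5, 4, 7, 3, 2, 0, 2, 4]],
  ![![0, 6, 8, 6, 8, 6, 6, 2, 4, 4],
    ![1, 9, 8, 10, 12, 9, 6, 3, 4, 8],
    ![0, 5, 8, 7, 8, 6, 6, 3, 4, 3],
    ![0, 5, 8, 3, 6, 4, 6, 1, 4, 3],
    ![1, 6, 8, 5, 8, 5, 6, 2, 4, 5],
    ![0, 5, 8, 7, 8, 6, 6, 3, 4, 3],
    ![1, 5, 8, 6, 8, 5, 6, 3, 4, 4],
    ![0, 6, 9, 5, 8, 5, 7, 2, 4, 4],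
    ![0, 5, 9, 6, 8, 6, 6, 2, 5, 3],
    ![0, 5, 9, 6, 9, 5, 6, 2, 4, 4]],
  ![![2, 12, 12, 10, 14, 10, 10, 4, 6, 10],
    ![3, 14, 12, 11, 16, 11, 10, 4, 6, 13],
    ![2, 11, 12, 11, 14, 10, 10, 5, 6, 9],
    ![1, 9, 12, 6, 10, 7, 10, 3, 6, 6],
    ![3, 12, 12, 9, 14, 9, 10, 4, 6, 11],
    ![2, 11, 12, 11, 14, 10, 10, 5, 6, 9],
    ![3, 11, 12, 10, 14, 9, 10, 5, 6, 10],
    ![2, 12, 13, 9, 14, 9, 11, 4, 6, 10],
    ![2, 11, 13, 10, 14, 10, 10, 4, 7, 9],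
    ![2, 11, 13, 10, 15, 9, 10, 4, 6, 10]],
  ![![4, 14, 14, 12, 14, 16, 10, 4, 12, 10],
    ![4, 13, 14, 9, 12, 14, 10, 3, 12, 9],
    ![3, 12, 14, 11, 12, 15, 10, 4, 12, 7],
    ![5, 15, 14, 14, 16, 17, 10, 5, 12, 12],
    ![5, 14, 14, 11, 14, 15, 10, 4, 12, 11],
    ![4, 13, 14, 13, 14, 16, 10, 5, 12, 9],
    ![5, 13, 14, 12, 14, 15, 10, 5, 12, 10],
    ![4, 14, 15, 11, 14, 15, 11, 4, 12, 10],
    ![4, 13, 15, 12, 14, 16, 10, 4, 13, 9],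
    ![4, 13, 15, 12, 15, 15, 10, 4, 12, 10]],
  ![![6, 16, 16, 14, 16, 18, 12, 6, 14, 12],
    ![5, 15, 16, 12, 14, 17, 12, 5, 14, 10],
    ![7, 16, 16, 13, 16, 17, 12, 6, 14, 13],
    ![6, 15, 16, 15, 16, 18, 12, 7, 14, 11],
    ![7, 16, 16, 13, 16, 17, 12, 6, 14, 13],
    ![6, 15, 16, 15, 16, 18, 12, 7, 14, 11],
    ![7, 15, 16, 14, 16, 17, 12, 7, 14, 12],
    ![6, 16, 17, 13, 16, 17, 13, 6, 14, 12],
    ![6, 15, 17, 14, 16, 18, 12, 6, 15, 11],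
    ![6, 15, 17, 14, 17, 17, 12, 6, 14, 12]]]

instance (m w : ℕ) (e : Fin 10 → ℕ) : Decidable (Adm m w e) :=
  decidable_of_iff ((∀ i, mdeg e i = 4 * (m + w)) ∧ w ≤ 12 * m ∧ (∀ k, w ≤ e k + 6 * m) ∧
      (∀ k, w ≤ 2 * e k + 4 * m) ∧ ∀ k l, Disj k l → w ≤ e k + e l + 2 * m)
    ⟨fun ⟨h1, h2, h3, h4, h5⟩ => ⟨h1, h2, h3, h4, h5⟩,
      fun h => ⟨h.deg, h.top, h.one, h.two, h.dbl⟩⟩

theorem adm_table : ∀ σ n, Adm 1 (tw σ n) (te σ n) := by
  decide +kernel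

/-- The points used in the charts. -/
def tp (σ : Fin 6) (n : Fin 10) : Pt := ⟨tw σ n, te σ n, adm_table σ n⟩

instance : Nonempty Pt := ⟨tp 0 0⟩

theorem le_mdeg (e : Fin 10 → ℕ) (k : Fin 10) : e k ≤ mdeg e (eS k) := by
  unfold mdeg
  have h : e k = if eS k = eS k ∨ eT k = eS k then e k else 0 := by simp
  conv_lhs => rw [h]
  exact Finset.single_le_sum (f := fun l => if eS l = eS k ∨ eT l = eS k then e l else 0)
    (fun _ _ => Nat.zero_le _) (Finset.mem_univ k)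

theorem Pt.w_lt (c : Pt) : c.w < 13 := by
  have := c.adm.top
  omega

theorem Pt.e_lt (c : Pt) (k : Fin 10) : c.e k < 53 := by
  have h1 := le_mdeg c.e k
  have h2 := c.adm.deg (eS k)
  have h3 := c.w_lt
  omega

instance : Finite Pt := by
  refine Finite.of_injective
    (fun c : Pt => ((⟨c.w, c.w_lt⟩, fun k => ⟨c.e k, c.e_lt k⟩) : Fin 13 × (Fin 10 → Fin 53))) ?_
  intro c d h
  simp only [Prod.mk.injEq, Fin.mk.injEq] at h
  ext k
  · exact h.1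
  · have := congrFun h.2 k
    simpa using this

/-- The dimension of the projective space. -/
def N : ℕ := Nat.card Pt - 1

theorem N_succ : Nat.card Pt = N + 1 := by
  have := Nat.card_pos (α := Pt)
  unfold N
  omega

/-- The numbering of the coordinates. -/
def pt : Fin (N + 1) ≃ Pt := (Finite.equivFinOfCardEq N_succ).symm

/-- The homomorphism from the polynomial ring in the coordinates. -/
def cx (A : Type) [CommRing A] : MvPolynomial (Fin (N + 1)) A →ₐ[A] Cox A :=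
  aeval fun i => cm A (pt i)

/-- The ideal of the variety. -/
def I (A : Type) [CommRing A] : Ideal (MvPolynomial (Fin (N + 1)) A) := RingHom.ker (cx A)

/-- The coordinate of the lattice point `c`. -/
def xc (A : Type) [CommRing A] (c : Pt) : MvPolynomial (Fin (N + 1)) A := X (pt.symm c)

theorem cx_xc (A : Type) [CommRing A] (c : Pt) : cx A (xc A c) = cm A c := by
  simp [cx, xc]

end Pool.Agent.XV
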