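import Pool.Agent.XV.Act
import Pool.Agent.DIS.Final

/-!
# The threefold `X`: statements

The recipes are in `/team-store/MP_db3ab1_X.md`.
-/

set_option autoImplicit false

noncomputable section

namespace Pool.Agent.XV

open scoped Classical
open MvPolynomial Pool.Agent.FRM Pool.Agent.DIS

/-- The edge `m` as a multigraph. -/
def ind (m n : Fin 10) : ℕ := if n = m then 1 else 0

/-- The indices of `a + [X_l]` in the tables. -/
def tX : Fin 3 → Fin 10 := ![1, 2, 3]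

/-- The indices of `a + [1 + x]`, `a + [1 + y]`, `a + [1 - xy]` in the tables. -/
def tU : Fin 3 → Fin 10 := ![7, 8, 9]

/-- The edges `14`, `24`, `12`, which see the units. -/
def kU : Fin 3 → Fin 10 := ![6, 8, 4]

/-- The exponents of `X₁`, `X₂`, `X₃`: the orders along the three rays of the cone `σ`. The numbers
`x`, `y` are the multiplicities of the edges `01` and `23`. -/
def el (σ : Fin 6) (l : Fin 3) (w x y : ℕ) : ℕ :=
  (![![x, y, w],
    ![x, y, x + y + 2 - w],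
    ![x, x + y + 2 - w, 2 * x + 4 - w],
    ![2 * x + 4 - w, x + y + 2 - w, x + 6 - w],
    ![x + 6 - w, y + 6 - w, x + y + 2 - w],
    ![12 - w, x + 6 - w, y + 6 - w]] : Fin 6 → Fin 3 → ℕ) σ l

/-- The order of the point `c` along the `l`-th ray of the cone `σ`. -/
def elc (σ : Fin 6) (l : Fin 3) (c : Pt) : ℕ := el σ l c.w (c.e 0) (c.e 7)

/-- The exponents of the units. -/
def nu (σ : Fin 6) (j : Fin 3) (c : Pt) : ℤ :=
  (c.e (kU j) : ℤ) - te σ 0 (kU j) -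
    ∑ l, (elc σ l c : ℤ) * ((te σ (tX l) (kU j) : ℤ) - te σ 0 (kU j))

/-- The exponents of `x` in terms of `X₁`, `X₂`, `X₃`. -/
def rx : Fin 6 → Fin 3 → ℕ :=
  ![![1, 0, 0], ![1, 0, 1], ![1, 1, 2], ![2, 1, 1], ![1, 0, 1], ![0, 1, 0]]

/-- The exponents of `y` in terms of `X₁`, `X₂`, `X₃`. -/
def ry : Fin 6 → Fin 3 → ℕ :=
  ![![0, 1, 0], ![0, 1, 1], ![0, 1, 0], ![0, 1, 0], ![0, 1, 1], ![0, 0, 1]]

/-- `x` as a monomial in the chart coordinates. -/
def hx {B : Type} [CommRing B] (σ : Fin 6) (X : Fin 3 → B) : B := ∏ l, X l ^ rx σ l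

/-- `y` as a monomial in the chart coordinates. -/
def hy {B : Type} [CommRing B] (σ : Fin 6) (X : Fin 3 → B) : B := ∏ l, X l ^ ry σ l

/-! ## Relations -/

/-- BIN: monomial relations. -/
def Stmt_Bin : Prop :=
  ∀ (B : Type) [CommRing B] (s : Pt → B), IsSol s → ∀ (α β : Multiset Pt),
    Multiset.card α = Multiset.card β → (α.map Pt.w).sum = (β.map Pt.w).sum →
    (∀ k, (α.map fun c => c.e k).sum = (β.map fun c => c.e k).sum) →
    (α.map s).prod = (β.map s).prod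

/-- TRI: Plücker relations. -/
def Stmt_Tri : Prop :=
  ∀ (B : Type) [CommRing B] (s : Pt → B), IsSol s → ∀ (i j k l : Fin 5), i < j → j < k → k < l →
    ∀ (e0 : Fin 10 → ℕ) (c c' c'' : Pt), c.w = c'.w → c''.w = c'.w →
    (∀ n, c.e n = e0 n + ind (ed i j) n + ind (ed k l) n) →
    (∀ n, c'.e n = e0 n + ind (ed i k) n + ind (ed j l) n) →
    (∀ n, c''.e n = e0 n + ind (ed i l) n + ind (ed j k) n) → s c' = s c + s c''

/-- SYM: permutation of the points. -/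
def Stmt_Sym : Prop :=
  ∀ (B : Type) [CommRing B] (s : Pt → B) (π : Equiv.Perm (Fin 5)), IsSol s → IsSol (tws π s)

/-- HOM: homomorphisms from the Cox ring give solutions. -/
def Stmt_Hom : Prop :=
  ∀ (B : Type) [CommRing B] (h : Cox ℤ →+* B), IsSol fun c => h (cm ℤ c)

/-! ## Charts -/

/-- CHV: all coordinates in terms of those of the chart (uses BIN). -/
def Stmt_Chv : Prop :=
  ∀ (B : Type) [CommRing B] (s : Pt → B), IsSol s → ∀ (σ : Fin 6) (Z : Bˣ) (U : Fin 3 → Bˣ),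
    s (tp σ 0) = Z → (∀ j, s (tp σ (tU j)) = Z * U j) →
    ∀ c : Pt, s c = Z * (∏ l, (((Z⁻¹ : Bˣ) : B) * s (tp σ (tX l))) ^ elc σ l c) *
      ((∏ j, U j ^ nu σ j c : Bˣ) : B)

/-- CHR: the units in terms of the chart coordinates (uses BIN, TRI). -/
def Stmt_Chr : Prop :=
  ∀ (B : Type) [CommRing B] (s : Pt → B), IsSol s → ∀ (σ : Fin 6) (Z : Bˣ) (X : Fin 3 → B),
    s (tp σ 0) = Z → (∀ l, s (tp σ (tX l)) = Z * X l) →
    s (tp σ 7) = Z * (1 + hx σ X) ∧ s (tp σ 8) = Z * (1 + hy σ X) ∧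
      s (tp σ 9) = Z * (1 - hx σ X * hy σ X)

/-- UNI: the universal solution in a chart (uses HOM, CHV). -/
def Stmt_Uni : Prop :=
  ∀ (B : Type) [CommRing B] (σ : Fin 6) (Z : Bˣ) (X : Fin 3 → B) (U : Fin 3 → Bˣ),
    (U 0 : B) = 1 + hx σ X → (U 1 : B) = 1 + hy σ X → (U 2 : B) = 1 - hx σ X * hy σ X →
    IsSol fun c => (Z : B) * (∏ l, X l ^ elc σ l c) * ((∏ j, U j ^ nu σ j c : Bˣ) : B)

/-! ## The covering lemma -/

/-- TRE: trees with five leaves. -/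
def Stmt_Tre : Prop :=
  ∀ (Γ : Type) [LinearOrderedCommGroupWithZero Γ] (A : Fin 10 → Γ), (∀ k, A k ≠ 0) →
    (∀ i j k l : Fin 5, i < j → j < k → k < l →
      A (ed i j) * A (ed k l) ≤ max (A (ed i k) * A (ed j l)) (A (ed i l) * A (ed j k)) ∧
      A (ed i k) * A (ed j l) ≤ max (A (ed i j) * A (ed k l)) (A (ed i l) * A (ed j k)) ∧
      A (ed i l) * A (ed j k) ≤ max (A (ed i j) * A (ed k l)) (A (ed i k) * A (ed j l))) →
    ∃ π : Equiv.Perm (Fin 5),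
      A (pe π 2) * A (pe π 6) = A (pe π 3) * A (pe π 5) ∧
      A (pe π 2) * A (pe π 8) = A (pe π 1) * A (pe π 9) ∧
      A (pe π 2) * A (pe π 4) = A (pe π 1) * A (pe π 5) ∧
      A (pe π 0) * A (pe π 9) ≤ A (pe π 3) * A (pe π 5) ∧
      A (pe π 3) * A (pe π 7) ≤ A (pe π 1) * A (pe π 9)

/-- The values of `X₁`, `X₂`, `X₃` in terms of those of `x`, `y`, `v`. -/
def gv {Γ : Type} [LinearOrderedCommGroupWithZero Γ] (σ : Fin 6) (l : Fin 3) (x y v : Γ) : Γ :=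
  (![![x, y, v⁻¹],
    ![x * v⁻¹, y * v⁻¹, v],
    ![x * y * v⁻¹ * v⁻¹, y, v * y⁻¹],
    ![x * v⁻¹, y, v * v * x⁻¹ * y⁻¹],
    ![v * y⁻¹, v * x⁻¹, x * y * v⁻¹],
    ![v * x⁻¹ * y⁻¹, x, y]] : Fin 6 → Fin 3 → Γ) σ l

/-- FAN: the cones cover. -/
def Stmt_Fan : Prop :=
  ∀ (Γ : Type) [LinearOrderedCommGroupWithZero Γ] (x y v : Γ), x ≠ 0 → v ≠ 0 → x ≤ y → y ≤ 1 →
    ∃ σ : Fin 6, ∀ l, gv σ l x y v ≤ 1

/-- COV: **the charts cover** (uses SYM, HOM, CHV, TRE, FAN). -/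
def Stmt_Cov : Prop :=
  ∀ (K : Type) [Field K] (s : Pt → K), IsSol s → (∃ c, s c ≠ 0) →
    ∃ (π : Equiv.Perm (Fin 5)) (σ : Fin 6), tws π s (tp σ 0) ≠ 0 ∧ ∀ j, tws π s (tp σ (tU j)) ≠ 0

/-! ## The variety -/

/-- PRI: the ideal is prime and homogeneous. -/
def Stmt_Pri : Prop :=
  ∀ (K : Type) [Field K], (I K).IsPrime ∧ ∀ F ∈ I K, ∀ m, homogeneousComponent m F ∈ I K

/-- TAN: the tangent spaces of the cone (uses SYM, COV, CHV, CHR). -/
def Stmt_Tan : Prop :=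
  ∀ (K : Type) [Field K] (x : Fin (N + 1) → K), x ≠ 0 → (∀ F ∈ I K, eval x F = 0) →
    ∀ T : Submodule K (Fin (N + 1) → K),
      (∀ δ ∈ T, ∀ F ∈ I K, ∑ l, eval x (pderiv l F) * δ l = 0) → Module.finrank K T ≤ 4

/-- JAC: linear algebra. -/
def Stmt_Jac : Prop :=
  ∀ (K : Type) [Field K] (n d : ℕ) (S : Set (Fin (n + 1) → K)),
    (∀ T : Submodule K (Fin (n + 1) → K), (∀ δ ∈ T, ∀ f ∈ S, ∑ l, f l * δ l = 0) →
      Module.finrank K T ≤ d + 1) →
    ∃ G : Fin (n - d) → Fin (n + 1) → K, (∀ i, G i ∈ S) ∧ LinearIndependent K G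

/-- SPX: the ideals of dimension `4` over the integral equations (uses SYM, COV, CHV, CHR, UNI). -/
def Stmt_Spx : Prop :=
  ∀ (K : Type) [Field K] (Q : Ideal (MvPolynomial (Fin (N + 1)) K)), Q.IsPrime →
    (∀ g ∈ I ℤ, MvPolynomial.map (Int.castRingHom K) g ∈ Q) →
    ringKrullDim (MvPolynomial (Fin (N + 1)) K ⧸ Q) ≤ 4 ∧
      (4 ≤ ringKrullDim (MvPolynomial (Fin (N + 1)) K ⧸ Q) → Q = I K)

/-- DIM: the dimension (uses UNI, SPX). -/
def Stmt_Dim : Prop :=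
  ∀ (K : Type) [Field K], ringKrullDim (MvPolynomial (Fin (N + 1)) K ⧸ I K) = 4

/-- FIB: the dimension of the fibres of the integral equations (uses SPX). -/
def Stmt_Fib : Prop :=
  ∀ (K : Type) [Field K] (Q : Ideal (MvPolynomial (Fin (N + 1)) K)),
    (∀ g ∈ I ℤ, MvPolynomial.map (Int.castRingHom K) g ∈ Q) →
    ringKrullDim (MvPolynomial (Fin (N + 1)) K ⧸ Q) ≤ 4

/-- The equations used: homogeneous generators of `I ℤ`, among them all binomials of degree at most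
`4` and the linear trinomials of Plücker. -/
structure GoodEqs {p : ℕ} {J : Type} (E : Eqs p N J) : Prop where
  span : Ideal.span (Set.range E.g) = I ℤ
  bin : ∀ α β : Multiset Pt, 0 < Multiset.card α → Multiset.card α ≤ 4 →
    Multiset.card α = Multiset.card β → (α.map Pt.w).sum = (β.map Pt.w).sum →
    (∀ k, (α.map fun c => c.e k).sum = (β.map fun c => c.e k).sum) →
    ∃ j, E.g j = (α.map (xc ℤ)).prod - (β.map (xc ℤ)).prod
  tri : ∀ (i j k l : Fin 5), i < j → j < k → k < l →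
    ∀ (e0 : Fin 10 → ℕ) (c c' c'' : Pt), c.w = c'.w → c''.w = c'.w →
    (∀ n, c.e n = e0 n + ind (ed i j) n + ind (ed k l) n) →
    (∀ n, c'.e n = e0 n + ind (ed i k) n + ind (ed j l) n) →
    (∀ n, c''.e n = e0 n + ind (ed i l) n + ind (ed j k) n) →
    ∃ j', E.g j' = xc ℤ c + xc ℤ c'' - xc ℤ c'

/-- GEN: existence of the equations (uses TRI). -/
def Stmt_Gen : Prop :=
  ∀ (p : ℕ) [Fact p.Prime], ∃ (J : Type) (_ : Finite J) (E : Eqs p N J), GoodEqs E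

/-- SMV: the variety is smooth of dimension `3` (uses PRI, DIM, TAN, JAC). -/
def Stmt_Smv : Prop :=
  ∀ (K : Type) [Field K], SmoothVariety 3 (I K)

end Pool.Agent.XV
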